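import Mathlib

/-!
The guiding principle, scales, and the selection properties: definitions for the negative answer
to the question whether `𝔡 ≤ 𝔯` gives a Scheepers set with a non-Menger square.
-/

set_option autoImplicit false

namespace Pool.Agent.Helper467_LV

/-- The list of the first `n` values of `y`. -/
def pre (y : ℕ → ℕ) (n : ℕ) : List ℕ := (List.range n).map y

/-- The guiding principle for the families `N`, `c`, `b` indexed by `W`. For all infinite sets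
`A w s` (`w` in `W`, `s` a finite sequence) there is a function `l` such that for every subset `z`
of `ℕ` there are `w` and a function `y` with the following properties, for all `i`: the number
`y i` is in `A w (y 0, …, y (i - 1))`, it is at most `l (i + c w)`, and the restriction of `z` to
the numbers below `y i` is one of the first `N w (y 0, …, y (i - 1))` of the candidates
`b w (y 0, …, y i) j`, `j = 0, 1, 2, …`. -/
def Guiding (W : Type) (N : W → List ℕ → ℕ) (c : W → ℕ)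
    (b : W → List ℕ → ℕ → ℕ → Prop) : Prop :=
  ∀ A : W → List ℕ → ℕ → Prop, (∀ w s k, ∃ m, k ≤ m ∧ A w s m) →
    ∃ l : ℕ → ℕ, ∀ z : ℕ → Prop, ∃ (w : W) (y : ℕ → ℕ), ∀ i,
      A w (pre y i) (y i) ∧ y i ≤ l (i + c w) ∧
      ∃ j, j < N w (pre y i) ∧ ∀ k, k < y i → (z k ↔ b w (pre y (i + 1)) j k)

/-- The functions `g a`, `a` in the linear order `K`, form a scale: they are increasing modulo
finite sets, and dominating. -/
def Scale (K : Type) [LinearOrder K] (g : K → ℕ → ℕ) : Prop :=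
  (∀ a b, a < b → ∃ k, ∀ n, k ≤ n → g a n ≤ g b n) ∧
  ∀ f : ℕ → ℕ, ∃ a, ∃ k, ∀ n, k ≤ n → f n ≤ g a n

/-- The set `X`, as a subspace of `Y`, is Menger. -/
def IsMenger {Y : Type} [TopologicalSpace Y] (X : Set Y) : Prop :=
  ∀ U : ℕ → Set (Set Y), (∀ n, (∀ u ∈ U n, IsOpen u) ∧ X ⊆ ⋃₀ U n) →
    ∃ F : ℕ → Set (Set Y), (∀ n, F n ⊆ U n ∧ (F n).Finite) ∧ X ⊆ ⋃ n, ⋃₀ F n

/-- The set `X`, as a subspace of `Y`, is Hurewicz. -/
def IsHurewicz {Y : Type} [TopologicalSpace Y] (X : Set Y) : Prop :=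
  ∀ U : ℕ → Set (Set Y), (∀ n, (∀ u ∈ U n, IsOpen u) ∧ X ⊆ ⋃₀ U n) →
    ∃ F : ℕ → Set (Set Y), (∀ n, F n ⊆ U n ∧ (F n).Finite) ∧
      ∀ x ∈ X, ∃ k, ∀ n, k ≤ n → x ∈ ⋃₀ F n

/-- The set `X`, as a subspace of `Y`, is Scheepers. -/
def IsScheepers {Y : Type} [TopologicalSpace Y] (X : Set Y) : Prop :=
  ∀ U : ℕ → Set (Set Y), (∀ n, (∀ u ∈ U n, IsOpen u) ∧ X ⊆ ⋃₀ U n) →
    ∃ F : ℕ → Set (Set Y), (∀ n, F n ⊆ U n ∧ (F n).Finite) ∧
      ∀ G : Finset Y, (↑G : Set Y) ⊆ X → ∃ n, (↑G : Set Y) ⊆ ⋃₀ F n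

/-- `𝔡 ≤ 𝔯`: for every family of infinite sets which is not split by a single set there is a
dominating family of at most the same size. -/
def DLeR : Prop :=
  ∀ R : Set (Set ℕ), (∀ A ∈ R, A.Infinite) →
        (¬ ∃ Y : Set ℕ, ∀ A ∈ R, (A ∩ Y).Infinite ∧ (A \ Y).Infinite) →
        ∃ D : Set (ℕ → ℕ),
          (∀ f : ℕ → ℕ, ∃ g ∈ D, ∀ᶠ n in Filter.atTop, f n ≤ g n) ∧
          Cardinal.mk D ≤ Cardinal.mk R

end Pool.Agent.Helper467_LV
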