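import Mathlib
import Pool.Agent.Helper467_LV.Defs

/-!
Embeddings of the tree of finite sequences onto Laver trees, and the induced maps of sequences.
-/

set_option autoImplicit false

namespace Pool.Agent.Helper467_LV

theorem pre_length (y : ℕ → ℕ) (n : ℕ) : (pre y n).length = n := by simp [pre]

theorem pre_zero (y : ℕ → ℕ) : pre y 0 = [] := rfl

theorem pre_succ (y : ℕ → ℕ) (n : ℕ) : pre y (n + 1) = pre y n ++ [y n] := by
  simp [pre, List.range_succ]

theorem pre_getElem (y : ℕ → ℕ) (n i : ℕ) (h : i < (pre y n).length) : (pre y n)[i] = y i := by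
  simp [pre]

theorem pre_eq_iff (y z : ℕ → ℕ) (n : ℕ) : pre y n = pre z n ↔ ∀ i, i < n → y i = z i := by
  constructor
  · intro h i hi
    have h1 : (pre y n)[i]'(by simpa [pre_length] using hi) =
        (pre z n)[i]'(by simpa [pre_length] using hi) := by
      simp only [h]
    simpa [pre_getElem] using h1
  · intro h
    apply List.ext_getElem
    · simp [pre_length]
    · intro i h1 h2
      rw [pre_getElem, pre_getElem]
      exact h i (by simpa [pre_length] using h1)

theorem pre_take (y : ℕ → ℕ) (n k : ℕ) (h : k ≤ n) : (pre y n).take k = pre y k := by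
  apply List.ext_getElem
  · simp [pre_length, h]
  · intro i h1 h2
    rw [List.getElem_take, pre_getElem, pre_getElem]

theorem pre_eq_of_le {y z : ℕ → ℕ} {n k : ℕ} (h : k ≤ n) (h1 : pre y n = pre z n) :
    pre y k = pre z k := by
  rw [pre_eq_iff] at *
  intro i hi
  exact h1 i (by omega)

/-- a sequence starting with a given list -/
def ofList (u : List ℕ) : ℕ → ℕ := fun i => u.getD i 0

theorem pre_ofList (u : List ℕ) : pre (ofList u) u.length = u := by
  apply List.ext_getElem
  · simp [pre_length]
  · intro i h1 h2
    rw [pre_getElem]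
    simp [ofList, h2]

/-- Laver embeddings, as maps of finite sequences. -/
@[ext] structure LE where
  /-- the map of finite sequences -/
  tr : List ℕ → List ℕ
  /-- successors go to successors, increasingly -/
  spec : ∀ u, ∃ j : ℕ → ℕ, StrictMono j ∧ ∀ m, tr (u ++ [m]) = tr u ++ [j m]

namespace LE

theorem tr_length (e : LE) (u : List ℕ) : (e.tr u).length = (e.tr []).length + u.length := by
  induction u using List.reverseRecOn with
  | nil => simp
  | append_singleton u m ih =>
    obtain ⟨j, -, hj⟩ := e.spec u
    rw [hj m]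
    simp [ih]
    omega

theorem tr_prefix (e : LE) (u v : List ℕ) : e.tr u <+: e.tr (u ++ v) := by
  induction v using List.reverseRecOn with
  | nil => simp
  | append_singleton v m ih =>
    obtain ⟨j, -, hj⟩ := e.spec (u ++ v)
    rw [← List.append_assoc, hj m]
    exact ih.trans (List.prefix_append _ _)

/-- the identity -/
instance : One LE := ⟨⟨id, fun _ => ⟨id, strictMono_id, fun _ => rfl⟩⟩⟩

/-- composition -/
instance : Mul LE := ⟨fun e f => ⟨e.tr ∘ f.tr, fun u => by
  obtain ⟨j, hj, hj'⟩ := f.spec u
  obtain ⟨k, hk, hk'⟩ := e.spec (f.tr u)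
  exact ⟨k ∘ j, hk.comp hj, fun m => by simp [hj', hk']⟩⟩⟩

@[simp] theorem one_tr (u : List ℕ) : (1 : LE).tr u = u := rfl

@[simp] theorem mul_tr (e f : LE) (u : List ℕ) : (e * f).tr u = e.tr (f.tr u) := rfl

instance : Monoid LE where
  mul_assoc a b c := rfl
  one_mul a := rfl
  mul_one a := rfl

/-- the map of infinite sequences -/
def map (e : LE) (y : ℕ → ℕ) : ℕ → ℕ := fun i => (e.tr (pre y (i + 1))).getD i 0

theorem tr_pre_take (e : LE) (y : ℕ → ℕ) (n m : ℕ) (h : n ≤ m) :
    (e.tr (pre y m)).take (e.tr (pre y n)).length = e.tr (pre y n) := by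
  have h1 : e.tr (pre y n) <+: e.tr (pre y m) := by
    have h2 : pre y m = pre y n ++ (pre y m).drop n := by
      conv_lhs => rw [← List.take_append_drop n (pre y m)]
      rw [pre_take y m n h]
    rw [h2]
    exact e.tr_prefix _ _
  exact (List.prefix_iff_eq_take.mp h1).symm

theorem map_pre (e : LE) (y : ℕ → ℕ) (n : ℕ) :
    pre (e.map y) (e.tr (pre y n)).length = e.tr (pre y n) := by
  apply List.ext_getElem
  · simp [pre_length]
  · intro i h1 h2
    rw [pre_getElem]
    unfold map
    have hi : i < (e.tr (pre y (i + 1))).length := by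
      rw [tr_length, pre_length]; omega
    rw [List.getD_eq_getElem _ _ hi]
    rcases le_total n (i + 1) with h | h
    · have h3 := e.tr_pre_take y n (i + 1) h
      have h4 : ((e.tr (pre y (i + 1))).take (e.tr (pre y n)).length)[i]'(by
          rw [List.length_take]; omega) = (e.tr (pre y n))[i] := by
        simp only [h3]
      rw [← h4, List.getElem_take]
    · have h3 := e.tr_pre_take y (i + 1) n h
      have h4 : ((e.tr (pre y n)).take (e.tr (pre y (i + 1))).length)[i]'(by
          rw [List.length_take]; omega) = (e.tr (pre y (i + 1)))[i] := by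
        simp only [h3]
      rw [← h4, List.getElem_take]

theorem map_eq_of (e : LE) (y z : ℕ → ℕ)
    (h : ∀ n, pre z (e.tr (pre y n)).length = e.tr (pre y n)) : z = e.map y := by
  funext i
  have h1 := (h (i + 1)).trans (e.map_pre y (i + 1)).symm
  rw [pre_eq_iff] at h1
  exact h1 i (by rw [tr_length, pre_length]; omega)

@[simp] theorem map_one (y : ℕ → ℕ) : (1 : LE).map y = y := by
  symm
  apply map_eq_of
  intro n
  simp [pre_length]

theorem map_mul (e f : LE) (y : ℕ → ℕ) : (e * f).map y = e.map (f.map y) := by
  symm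
  apply map_eq_of
  intro n
  have h1 := f.map_pre y n
  have h2 := e.map_pre (f.map y) (f.tr (pre y n)).length
  rw [h1] at h2
  exact h2

theorem map_congr (e f : LE) (y : ℕ → ℕ) (h : ∀ n, e.tr (pre y n) = f.tr (pre y n)) :
    e.map y = f.map y := by
  apply map_eq_of
  intro n
  rw [← h n]
  exact e.map_pre y n

theorem map_injective_aux (e f : LE) (h : ∀ y, e.map y = f.map y) :
    (f.tr []).length ≤ (e.tr []).length := by
  by_contra hlt
  push Not at hlt
  obtain ⟨j, hj, hj'⟩ := e.spec []
  have key : ∀ m, j m = (f.tr [])[(e.tr []).length]'hlt := by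
    intro m
    have h1 := e.map_pre (ofList [m]) 1
    have h0 : pre (ofList [m]) 1 = [] ++ [m] := by simp [pre, ofList]
    rw [h0, hj' m] at h1
    have h2 := f.map_pre (ofList [m]) 0
    rw [pre_zero, ← h] at h2
    have h3 : (e.map (ofList [m])) (e.tr []).length = j m := by
      have := congrArg (fun l => l.getD (e.tr []).length 0) h1
      rw [List.getD_eq_getElem _ _ (by simp [pre_length]), pre_getElem] at this
      rw [this]
      simp
    have h4 : (e.map (ofList [m])) (e.tr []).length = (f.tr [])[(e.tr []).length]'hlt := by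
      have := congrArg (fun l => l.getD (e.tr []).length 0) h2
      rw [List.getD_eq_getElem _ _ (by simpa [pre_length] using hlt), pre_getElem] at this
      rw [this]
      rw [List.getD_eq_getElem _ _ hlt]
    rw [← h3, h4]
  have h5 := hj (show (0:ℕ) < 1 by norm_num)
  rw [key 0, key 1] at h5
  exact lt_irrefl _ h5

theorem map_injective {e f : LE} (h : ∀ y, e.map y = f.map y) : e = f := by
  have h1 : (e.tr []).length = (f.tr []).length :=
    le_antisymm (map_injective_aux f e (fun y => (h y).symm)) (map_injective_aux e f h)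
  ext1
  funext u
  have h2 := e.map_pre (ofList u) u.length
  have h3 := f.map_pre (ofList u) u.length
  rw [pre_ofList] at h2 h3
  rw [h] at h2
  rw [tr_length, h1, ← tr_length] at h2
  rw [← h2, h3]

end LE

end Pool.Agent.Helper467_LV
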