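import Mathlib
import Pool.Agent.Helper467_LV.LE

/-!
Regions of the Baire space given by a finite sequence and a bound, and the corresponding Laver
embeddings; the weight of a finite sequence; embeddings fixing sequences of small weight.
-/

set_option autoImplicit false

namespace Pool.Agent.Helper467_LV

/-- the weight of a finite sequence -/
def wt (u : List ℕ) : ℕ := (u.map (· + 1)).sum

@[simp] theorem wt_nil : wt [] = 0 := rfl
@[simp] theorem wt_cons (a : ℕ) (u : List ℕ) : wt (a :: u) = a + 1 + wt u := by simp [wt]
@[simp] theorem wt_append (u v : List ℕ) : wt (u ++ v) = wt u + wt v := by simp [wt]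

theorem length_le_wt (u : List ℕ) : u.length ≤ wt u := by
  induction u with
  | nil => simp
  | cons a u ih => simp; omega

theorem le_wt_of_mem (u : List ℕ) (a : ℕ) (h : a ∈ u) : a < wt u := by
  induction u with
  | nil => simp at h
  | cons b u ih =>
    rcases List.mem_cons.mp h with rfl | h
    · simp; omega
    · have := ih h; simp; omega

theorem finite_wt_le (n : ℕ) : {u : List ℕ | wt u ≤ n}.Finite := by
  have h1 : {u : List (Fin (n + 1)) | u.length ≤ n}.Finite := List.finite_length_le _ _
  apply (h1.image (fun u : List (Fin (n + 1)) => u.map (fun a : Fin (n + 1) => (a : ℕ)))).subset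
  intro u hu
  have hu' : wt u ≤ n := hu
  have hm : ∀ a ∈ u, a < n + 1 := fun a ha => by
    have := le_wt_of_mem u a ha
    omega
  refine ⟨u.pmap (fun a h => (⟨a, h⟩ : Fin (n + 1))) hm, ?_, ?_⟩
  · have := length_le_wt u
    show (List.pmap _ u hm).length ≤ n
    rw [List.length_pmap]
    omega
  · show List.map (fun a : Fin (n + 1) => (a : ℕ)) (List.pmap _ u hm) = u
    rw [List.map_pmap, List.pmap_eq_map, List.map_id']

/-- the sequence `z` starts with `u`, and its next entry is at least `c` -/
def Reg (u : List ℕ) (c : ℕ) (z : ℕ → ℕ) : Prop := pre z u.length = u ∧ c ≤ z u.length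

/-- the embedding onto a region -/
def sh (u : List ℕ) (c : ℕ) : LE where
  tr := fun v => match v with
    | [] => u
    | a :: v => u ++ (a + c) :: v
  spec := by
    intro v
    cases v with
    | nil => exact ⟨fun m => m + c, fun a b h => by simpa using h, fun m => rfl⟩
    | cons a v => exact ⟨id, strictMono_id, fun m => by simp⟩

@[simp] theorem sh_tr_nil (u : List ℕ) (c : ℕ) : (sh u c).tr [] = u := rfl
@[simp] theorem sh_tr_cons (u : List ℕ) (c a : ℕ) (v : List ℕ) :
    (sh u c).tr (a :: v) = u ++ (a + c) :: v := rfl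

theorem sh_nil_zero : sh [] 0 = 1 := by
  ext1
  funext v
  cases v <;> simp

theorem sh_zero_tr (u v : List ℕ) : (sh u 0).tr v = u ++ v := by
  cases v <;> simp

theorem sh_mul (u v : List ℕ) (c : ℕ) : sh u 0 * sh v c = sh (u ++ v) c := by
  ext1
  funext w
  rw [LE.mul_tr, sh_zero_tr]
  cases w <;> simp

/-- inverse of `sh`, on infinite sequences -/
def unsh (u : List ℕ) (c : ℕ) (z : ℕ → ℕ) : ℕ → ℕ :=
  fun i => if i = 0 then z u.length - c else z (i + u.length)

theorem pre_eq_of_append {z : ℕ → ℕ} {u v : List ℕ} (h : pre z (u ++ v).length = u ++ v) :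
    pre z u.length = u := by
  have h1 := congrArg (List.take u.length) h
  rw [pre_take _ _ _ (by simp), List.take_left] at h1
  exact h1

theorem apply_of_pre {z : ℕ → ℕ} {u v : List ℕ} {a : ℕ}
    (h : pre z (u ++ a :: v).length = u ++ a :: v) : z u.length = a := by
  have h1 : pre z (u ++ [a]).length = u ++ [a] := by
    have : u ++ a :: v = (u ++ [a]) ++ v := by simp
    rw [this] at h
    exact pre_eq_of_append h
  rw [List.length_append, List.length_singleton, pre_succ] at h1
  have h2 := congrArg List.getLast? h1
  simpa using h2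

theorem reg_sh (u : List ℕ) (c : ℕ) (y : ℕ → ℕ) : Reg u c ((sh u c).map y) := by
  have h0 := (sh u c).map_pre y 0
  have h1 := (sh u c).map_pre y 1
  have h2 : pre y 1 = [y 0] := by simp [pre]
  rw [pre_zero, sh_tr_nil] at h0
  rw [h2, sh_tr_cons] at h1
  exact ⟨h0, by rw [apply_of_pre h1]; omega⟩

theorem pre_unsh (u : List ℕ) (c : ℕ) (z : ℕ → ℕ) (h : Reg u c z) (n : ℕ) :
    pre z ((sh u c).tr (pre (unsh u c z) n)).length = (sh u c).tr (pre (unsh u c z) n) := by
  obtain ⟨h1, h2⟩ := h
  cases n with
  | zero => simpa [pre_zero] using h1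
  | succ n =>
    have h3 : pre (unsh u c z) (n + 1) =
        (z u.length - c) :: (List.range n).map (fun i => z (i + 1 + u.length)) := by
      unfold pre
      rw [List.range_succ_eq_map]
      simp [unsh, Function.comp_def]
    rw [h3, sh_tr_cons, Nat.sub_add_cancel h2]
    apply List.ext_getElem
    · simp [pre_length]
    · intro i h4 h5
      rw [pre_getElem]
      rcases lt_trichotomy i u.length with h6 | h6 | h6
      · rw [List.getElem_append_left h6]
        have h7 : (pre z u.length)[i]'(by simpa [pre_length] using h6) = u[i] := by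
          simp only [h1]
        rw [← h7, pre_getElem]
      · subst h6
        simp
      · rw [List.getElem_append_right (by omega)]
        obtain ⟨k, hk⟩ : ∃ k, i - u.length = k + 1 := ⟨i - u.length - 1, by omega⟩
        simp only [hk, List.getElem_cons_succ, List.getElem_map, List.getElem_range]
        congr 1
        omega

theorem sh_unsh (u : List ℕ) (c : ℕ) (z : ℕ → ℕ) (h : Reg u c z) :
    (sh u c).map (unsh u c z) = z := by
  symm
  apply LE.map_eq_of
  exact pre_unsh u c z h

theorem sh_map_injective (u : List ℕ) (c : ℕ) (y z : ℕ → ℕ)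
    (h : (sh u c).map y = (sh u c).map z) : y = z := by
  funext i
  have h1 := (sh u c).map_pre y (i + 1)
  have h2 := (sh u c).map_pre z (i + 1)
  rw [h] at h1
  rw [LE.tr_length, pre_length] at h1 h2
  have h3 := h1.symm.trans h2
  have e1 : pre y (i + 1) = y 0 :: (List.range i).map (fun i => y (i + 1)) := by
    unfold pre
    rw [List.range_succ_eq_map]
    simp [Function.comp_def]
  have e2 : pre z (i + 1) = z 0 :: (List.range i).map (fun i => z (i + 1)) := by
    unfold pre
    rw [List.range_succ_eq_map]
    simp [Function.comp_def]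
  have h4 : pre y (i + 1) = pre z (i + 1) := by
    rw [e1, e2] at h3 ⊢
    rw [sh_tr_cons, sh_tr_cons] at h3
    have h5 := List.append_cancel_left h3
    rw [List.cons.injEq] at h5 ⊢
    exact ⟨by omega, h5.2⟩
  rw [pre_eq_iff] at h4
  exact h4 i (by omega)

theorem unsh_sh (u : List ℕ) (c : ℕ) (y : ℕ → ℕ) : unsh u c ((sh u c).map y) = y :=
  sh_map_injective u c _ _ (sh_unsh u c _ (reg_sh u c y))

/-- inverse of `sh`, on finite sequences -/
def dec (u : List ℕ) (c : ℕ) (l : List ℕ) : List ℕ :=
  match l.drop u.length with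
  | [] => []
  | a :: r => (a - c) :: r

theorem dec_self (u : List ℕ) (c : ℕ) : dec u c u = [] := by simp [dec]

theorem dec_append (u : List ℕ) (c a : ℕ) (v : List ℕ) :
    dec u c (u ++ a :: v) = (a - c) :: v := by simp [dec]

theorem reg_stem (e : LE) (u : List ℕ) (c : ℕ) (h : ∀ y, Reg u c (e.map y)) (v : List ℕ) :
    e.tr v = u ∨ ∃ a r, c ≤ a ∧ e.tr v = u ++ a :: r := by
  have h0 : u.length ≤ (e.tr []).length := by
    by_contra hlt
    push Not at hlt
    obtain ⟨j, hj, hj'⟩ := e.spec []
    have key : ∀ m, j m = u[(e.tr []).length]'hlt := by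
      intro m
      have h1 := e.map_pre (ofList [m]) 1
      have h0 : pre (ofList [m]) 1 = [] ++ [m] := by simp [pre, ofList]
      rw [h0, hj' m] at h1
      have h3 := apply_of_pre h1
      have h4 := (h (ofList [m])).1
      have h5 : (pre (e.map (ofList [m])) u.length)[(e.tr []).length]'(by
          simpa [pre_length] using hlt) = u[(e.tr []).length] := by
        simp only [h4]
      rw [← h5, pre_getElem, h3]
    have h6 := hj (show (0 : ℕ) < 1 by norm_num)
    rw [key 0, key 1] at h6
    exact lt_irrefl _ h6
  have h1 : u.length ≤ (e.tr v).length := by rw [LE.tr_length]; omega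
  have h2 := e.map_pre (ofList v) v.length
  rw [pre_ofList] at h2
  obtain ⟨h3, h4⟩ := h (ofList v)
  have h5 : (e.tr v).take u.length = u := by
    rw [← h2, pre_take _ _ _ h1, h3]
  rcases hd : (e.tr v).drop u.length with _ | ⟨a, r⟩
  · left
    have := List.take_append_drop u.length (e.tr v)
    rw [hd, h5] at this
    simpa using this.symm
  · right
    have h6 : e.tr v = u ++ a :: r := by
      have := List.take_append_drop u.length (e.tr v)
      rw [hd, h5] at this
      exact this.symm
    refine ⟨a, r, ?_, h6⟩
    rw [h6] at h2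
    rw [apply_of_pre h2] at h4
    exact h4

/-- division by `sh u c` on the left -/
def divLE (e : LE) (u : List ℕ) (c : ℕ) (h : ∀ y, Reg u c (e.map y)) : LE where
  tr := fun v => dec u c (e.tr v)
  spec := by
    intro v
    obtain ⟨j, hj, hj'⟩ := e.spec v
    rcases reg_stem e u c h v with h1 | ⟨a, r, h1, h2⟩
    · have h3 : ∀ m, c ≤ j m := by
        intro m
        rcases reg_stem e u c h (v ++ [m]) with h4 | ⟨a, r, h4, h5⟩
        · rw [hj', h1] at h4
          simp at h4
        · rw [hj', h1] at h5
          have h6 := List.append_cancel_left h5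
          rw [List.cons.injEq] at h6
          omega
      refine ⟨fun m => j m - c, fun a b hab => ?_, fun m => ?_⟩
      · have := hj hab
        have := h3 a
        have := h3 b
        simp only
        omega
      · rw [hj', h1, dec_self, dec_append]
        simp
    · refine ⟨j, hj, fun m => ?_⟩
      rw [hj', h2, dec_append]
      have h3 : u ++ a :: r ++ [j m] = u ++ a :: (r ++ [j m]) := by simp
      rw [h3, dec_append]
      simp

theorem sh_mul_divLE (e : LE) (u : List ℕ) (c : ℕ) (h : ∀ y, Reg u c (e.map y)) :
    sh u c * divLE e u c h = e := by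
  ext1
  funext v
  rw [LE.mul_tr]
  show (sh u c).tr (dec u c (e.tr v)) = e.tr v
  rcases reg_stem e u c h v with h1 | ⟨a, r, h1, h2⟩
  · rw [h1, dec_self, sh_tr_nil]
  · rw [h2, dec_append, sh_tr_cons, Nat.sub_add_cancel h1]

/-- the finite sequence `l` enters the region of `u`, `c` -/
def InReg (u : List ℕ) (c : ℕ) (l : List ℕ) : Prop :=
  ∃ a v, c ≤ a ∧ l = u ++ a :: v

theorem inReg_snoc (u : List ℕ) (c : ℕ) (l : List ℕ) (m : ℕ) :
    InReg u c (l ++ [m]) ↔ InReg u c l ∨ (l = u ∧ c ≤ m) := by
  constructor
  · rintro ⟨a, v, h1, h2⟩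
    rcases List.eq_nil_or_concat v with rfl | ⟨w, b, rfl⟩
    · right
      have h3 := List.append_inj' h2 rfl
      obtain ⟨h4, h5⟩ := h3
      simp at h5
      exact ⟨h4, by omega⟩
    · left
      refine ⟨a, w, h1, ?_⟩
      have h3 : u ++ a :: (w ++ [b]) = (u ++ a :: w) ++ [b] := by simp
      rw [List.concat_eq_append, h3] at h2
      exact (List.append_inj' h2 rfl).1
  · rintro (⟨a, v, h1, h2⟩ | ⟨h1, h2⟩)
    · exact ⟨a, v ++ [m], h1, by rw [h2]; simp⟩
    · exact ⟨m, [], h2, by rw [h1]⟩

open Classical in
/-- the embedding `e` moved to the region of `u`, `c`, and the identity elsewhere -/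
noncomputable def graft (u : List ℕ) (c : ℕ) (e : LE) (he : e.tr [] = []) : LE where
  tr := fun l => if InReg u c l then (sh u c).tr (e.tr (dec u c l)) else l
  spec := by
    intro l
    by_cases hl : InReg u c l
    · obtain ⟨a, v, h1, h2⟩ := id hl
      obtain ⟨j, hj, hj'⟩ := e.spec (dec u c l)
      refine ⟨j, hj, fun m => ?_⟩
      rw [if_pos hl, if_pos ((inReg_snoc u c l m).mpr (Or.inl hl))]
      have h3 : dec u c (l ++ [m]) = dec u c l ++ [m] := by
        rw [h2]
        have h3 : u ++ a :: v ++ [m] = u ++ a :: (v ++ [m]) := by simp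
        rw [h3, dec_append, dec_append]
        simp
      rw [h3, hj']
      have h4 : (e.tr (dec u c l)).length ≠ 0 := by
        rw [LE.tr_length, h2, dec_append]
        simp
      rcases h5 : e.tr (dec u c l) with _ | ⟨b, w⟩
      · rw [h5] at h4; simp at h4
      · simp
    · by_cases hu : l = u
      · subst hu
        obtain ⟨j, hj, hj'⟩ := e.spec []
        refine ⟨fun m => if m < c then m else j (m - c) + c, ?_, fun m => ?_⟩
        · intro a b hab
          have hb := hj.le_apply (x := b - c)
          simp only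
          split_ifs with h1 h2 h2
          · exact hab
          · have := hj.le_apply (x := b - c)
            omega
          · omega
          · have : j (a - c) < j (b - c) := hj (by omega)
            omega
        · rw [if_neg hl]
          by_cases hm : c ≤ m
          · rw [if_pos ((inReg_snoc l c l m).mpr (Or.inr ⟨rfl, hm⟩)), dec_append]
            have h3 := hj' (m - c)
            rw [he] at h3
            simp only [List.nil_append] at h3
            have h4 : (fun m => if m < c then m else j (m - c) + c) m = j (m - c) + c :=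
              if_neg (by omega)
            rw [h3, sh_tr_cons, h4]
          · rw [if_neg (fun h => by
              rcases (inReg_snoc l c l m).mp h with h | h
              · exact hl h
              · exact hm h.2)]
            have h4 : (fun m => if m < c then m else j (m - c) + c) m = m :=
              if_pos (by omega)
            rw [h4]
      · refine ⟨id, strictMono_id, fun m => ?_⟩
        rw [if_neg hl, if_neg (fun h => by
              rcases (inReg_snoc u c l m).mp h with h | h
              · exact hl h
              · exact hu h.1)]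
        rfl

theorem graft_mul_sh (u : List ℕ) (c : ℕ) (e : LE) (he : e.tr [] = []) :
    graft u c e he * sh u c = sh u c * e := by
  classical
  ext1
  funext v
  rw [LE.mul_tr, LE.mul_tr]
  cases v with
  | nil =>
    rw [sh_tr_nil, he, sh_tr_nil]
    show (if InReg u c u then (sh u c).tr (e.tr (dec u c u)) else u) = u
    rw [if_neg]
    rintro ⟨a, v, h1, h2⟩
    have := congrArg List.length h2
    simp at this
  | cons a v =>
    rw [sh_tr_cons]
    show (if InReg u c (u ++ (a + c) :: v) then
      (sh u c).tr (e.tr (dec u c (u ++ (a + c) :: v))) else _) = _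
    rw [if_pos ⟨a + c, v, by omega, rfl⟩, dec_append, Nat.add_sub_cancel]

/-- embeddings fixing the finite sequences of weight at most `n` -/
def FixLE (n : ℕ) (e : LE) : Prop := ∀ u, wt u ≤ n → e.tr u = u

theorem FixLE.mono {n m : ℕ} (h : n ≤ m) {e : LE} (he : FixLE m e) : FixLE n e :=
  fun u hu => he u (hu.trans h)

theorem fixLE_one (n : ℕ) : FixLE n 1 := fun _ _ => rfl

theorem FixLE.mul {n : ℕ} {e f : LE} (he : FixLE n e) (hf : FixLE n f) : FixLE n (e * f) :=
  fun u hu => by rw [LE.mul_tr, hf u hu, he u hu]

theorem FixLE.nil {n : ℕ} {e : LE} (he : FixLE n e) : e.tr [] = [] := he [] (by simp)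

theorem fixLE_graft (n : ℕ) (u : List ℕ) (hu : wt u ≤ n) (e : LE) (he : e.tr [] = []) :
    FixLE n (graft u (n - wt u) e he) := by
  classical
  intro l hl
  show (if InReg u (n - wt u) l then _ else l) = l
  rw [if_neg]
  rintro ⟨a, v, h1, h2⟩
  rw [h2] at hl
  simp at hl
  omega

/-- the longest initial segment of `y` of weight at most `n` -/
def lp (n : ℕ) (y : ℕ → ℕ) : List ℕ := pre y (Nat.findGreatest (fun k => wt (pre y k) ≤ n) n)

theorem wt_pre_mono (y : ℕ → ℕ) {a b : ℕ} (h : a ≤ b) : wt (pre y a) ≤ wt (pre y b) := by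
  induction b, h using Nat.le_induction with
  | base => exact le_refl _
  | succ b _ ih => rw [pre_succ]; simp; omega

theorem wt_lp (n : ℕ) (y : ℕ → ℕ) : wt (lp n y) ≤ n :=
  Nat.findGreatest_spec (P := fun k => wt (pre y k) ≤ n) (Nat.zero_le n)
    (by show wt (pre y 0) ≤ n; rw [pre_zero]; simp)

theorem reg_lp (n : ℕ) (y : ℕ → ℕ) : Reg (lp n y) (n - wt (lp n y)) y := by
  constructor
  · unfold lp; rw [pre_length]
  · have h1 : (lp n y).length = Nat.findGreatest (fun k => wt (pre y k) ≤ n) n := by
      unfold lp; rw [pre_length]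
    rw [h1]
    by_contra h2
    push Not at h2
    have h3 : wt (pre y (Nat.findGreatest (fun k => wt (pre y k) ≤ n) n + 1)) ≤ n := by
      rw [pre_succ]
      have : wt (pre y (Nat.findGreatest (fun k => wt (pre y k) ≤ n) n)) = wt (lp n y) := rfl
      simp only [wt_append, wt_cons, wt_nil]
      omega
    have h4 : Nat.findGreatest (fun k => wt (pre y k) ≤ n) n + 1 ≤ n := by
      have := length_le_wt (pre y (Nat.findGreatest (fun k => wt (pre y k) ≤ n) n + 1))
      rw [pre_length] at this
      omega
    have h5 := Nat.le_findGreatest (P := fun k => wt (pre y k) ≤ n) h4 h3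
    omega

theorem lp_unique (n : ℕ) (y : ℕ → ℕ) (u : List ℕ) (hu : wt u ≤ n)
    (h : Reg u (n - wt u) y) : lp n y = u := by
  obtain ⟨h1, h2⟩ := h
  have h3 : Nat.findGreatest (fun k => wt (pre y k) ≤ n) n = u.length := by
    apply le_antisymm
    · by_contra h4
      push Not at h4
      have h5 : wt (pre y (Nat.findGreatest (fun k => wt (pre y k) ≤ n) n)) ≤ n := wt_lp n y
      have h6 := wt_pre_mono y (show u.length + 1 ≤ _ from h4)
      rw [pre_succ, h1] at h6
      simp only [wt_append, wt_cons, wt_nil] at h6
      omega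
    · apply Nat.le_findGreatest
      · exact (length_le_wt u).trans hu
      · rw [h1]; exact hu
  unfold lp
  rw [h3, h1]

theorem reg_of_fix {n : ℕ} {e : LE} (he : FixLE n e) {u : List ℕ} (hu : wt u ≤ n)
    {y : ℕ → ℕ} (h : Reg u (n - wt u) y) : Reg u (n - wt u) (e.map y) := by
  obtain ⟨h1, h2⟩ := h
  have h3 := e.map_pre y (u.length + 1)
  rw [pre_succ, h1] at h3
  obtain ⟨j, hj, hj'⟩ := e.spec u
  rw [hj', he u hu] at h3
  refine ⟨pre_eq_of_append h3, ?_⟩
  rw [apply_of_pre h3]
  exact h2.trans hj.le_apply

theorem lp_map_of_fix {n : ℕ} {e : LE} (he : FixLE n e) (y : ℕ → ℕ) :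
    lp n (e.map y) = lp n y :=
  lp_unique n _ _ (wt_lp n y) (reg_of_fix he (wt_lp n y) (reg_lp n y))

theorem lp_sh (n : ℕ) (u : List ℕ) (hu : wt u ≤ n) (y : ℕ → ℕ) :
    lp n ((sh u (n - wt u)).map y) = u :=
  lp_unique n _ _ hu (reg_sh _ _ _)

end Pool.Agent.Helper467_LV
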