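import Mathlib
import Pool.Agent.Helper467_LV.Node

/-!
The monoid `GG I` of progressive continuous families of Laver embeddings with countable support,
acting on the space `Om I` of families of sequences.
-/

set_option autoImplicit false

namespace Pool.Agent.Helper467_LV

open Set Filter

/-- families of sequences -/
abbrev Om (I : Type) := I → ℕ → ℕ

section filt

variable {I : Type}

/-- The filter of the sets containing all `x'` agreeing with `x` at finitely many entries, at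
coordinates in `A`. -/
def N (A : Set I) (x : Om I) : Filter (Om I) where
  sets := {s | ∃ F : Finset I, ↑F ⊆ A ∧ ∃ n : ℕ, ∀ x' : Om I,
    (∀ γ ∈ F, ∀ i, i < n → x' γ i = x γ i) → x' ∈ s}
  univ_sets := ⟨∅, by simp, 0, fun _ _ => trivial⟩
  sets_of_superset := fun ⟨F, hF, n, h⟩ hst => ⟨F, hF, n, fun x' hx' => hst (h x' hx')⟩
  inter_sets := by
    rintro s t ⟨F, hF, n, h⟩ ⟨G, hG, m, h'⟩
    classical
    refine ⟨F ∪ G, by simp [hF, hG], max n m, fun x' hx' => ⟨h x' (fun γ hγ i hi => hx' γ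
      (by simp [hγ]) i (by omega)), h' x' (fun γ hγ i hi => hx' γ (by simp [hγ]) i (by omega))⟩⟩

theorem mem_N {A : Set I} {x : Om I} {P : Om I → Prop} :
    (∀ᶠ x' in N A x, P x') ↔ ∃ F : Finset I, ↑F ⊆ A ∧ ∃ n : ℕ, ∀ x' : Om I,
    (∀ γ ∈ F, ∀ i, i < n → x' γ i = x γ i) → P x' := Iff.rfl

theorem N_anti {A B : Set I} (h : A ⊆ B) (x : Om I) : N B x ≤ N A x := by
  rintro s ⟨F, hF, n, hs⟩
  exact ⟨F, hF.trans h, n, hs⟩

theorem N_self {A : Set I} {x : Om I} {P : Om I → Prop} (h : ∀ᶠ x' in N A x, P x') : P x := by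
  obtain ⟨F, -, n, h⟩ := h
  exact h x (fun _ _ _ _ => rfl)

theorem N_of_agree {A : Set I} {x y : Om I} {P : Om I → Prop} (h : ∀ᶠ x' in N A x, P x')
    (hy : ∀ γ ∈ A, y γ = x γ) : P y := by
  obtain ⟨F, hF, n, h⟩ := h
  exact h y (fun γ hγ i _ => by rw [hy γ (hF hγ)])

theorem N_congr {A : Set I} {x y : Om I} (hy : ∀ γ ∈ A, y γ = x γ) : N A y = N A x := by
  ext s
  constructor
  · rintro ⟨F, hF, n, h⟩
    exact ⟨F, hF, n, fun x' hx' => h x' (fun γ hγ i hi => by rw [hx' γ hγ i hi, hy γ (hF hγ)])⟩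
  · rintro ⟨F, hF, n, h⟩
    exact ⟨F, hF, n, fun x' hx' => h x' (fun γ hγ i hi => by rw [hx' γ hγ i hi, hy γ (hF hγ)])⟩

theorem N_coord {A : Set I} (x : Om I) {γ : I} (hγ : γ ∈ A) (i : ℕ) :
    ∀ᶠ x' in N A x, x' γ i = x γ i :=
  ⟨{γ}, by simpa using hγ, i + 1, fun x' hx' => hx' γ (by simp) i (by omega)⟩

theorem N_pre {A : Set I} (x : Om I) {γ : I} (hγ : γ ∈ A) (n : ℕ) :
    ∀ᶠ x' in N A x, pre (x' γ) n = pre (x γ) n :=
  ⟨{γ}, by simpa using hγ, n, fun x' hx' =>
    (pre_eq_iff _ _ _).mpr (fun i hi => hx' γ (by simp) i hi)⟩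

theorem N_agree {A : Set I} (x : Om I) (F : Finset I) (hF : ↑F ⊆ A) (n : ℕ) :
    ∀ᶠ x' in N A x, ∀ γ ∈ F, ∀ i, i < n → x' γ i = x γ i :=
  ⟨F, hF, n, fun _ h => h⟩

theorem tendsto_N {A B : Set I} {φ : Om I → Om I} {x : Om I}
    (h : ∀ γ ∈ A, ∀ i, ∀ᶠ x' in N B x, φ x' γ i = φ x γ i) :
    Tendsto φ (N B x) (N A (φ x)) := by
  rintro s ⟨F, hF, n, hs⟩
  have h1 : ∀ᶠ x' in N B x, ∀ γ ∈ F, ∀ i ∈ Finset.range n, φ x' γ i = φ x γ i := by
    rw [Filter.eventually_all_finset]
    intro γ hγ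
    rw [Filter.eventually_all_finset]
    intro i _
    exact h γ (hF hγ) i
  exact h1.mono (fun x' hx' => hs (φ x') (fun γ hγ i hi => hx' γ hγ i (Finset.mem_range.mpr hi)))

theorem tendsto_N_id {A B : Set I} (h : A ⊆ B) (x : Om I) :
    Tendsto (fun y : Om I => y) (N B x) (N A x) := N_anti h x

end filt

variable {I : Type} [LinearOrder I]

/-- The family `E` of Laver embeddings has support `A`: outside `A` it is trivial, and `E γ x`
depends continuously on the coordinates of `x` which are in `A` and below `γ`. -/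
def Supp (A : Set I) (E : I → Om I → LE) : Prop :=
  (∀ γ, γ ∉ A → ∀ x, E γ x = 1) ∧
  ∀ γ x u, ∀ᶠ x' in N (A ∩ Iio γ) x, (E γ x').tr u = (E γ x).tr u

theorem Supp.mono {A B : Set I} (h : A ⊆ B) {E : I → Om I → LE} (hE : Supp A E) : Supp B E :=
  ⟨fun γ hγ x => hE.1 γ (fun h' => hγ (h h')) x,
    fun γ x u => N_anti (inter_subset_inter_left _ h) x (hE.2 γ x u)⟩

theorem Supp.congr {A : Set I} {E : I → Om I → LE} (hE : Supp A E) {γ : I} {x y : Om I}
    (h : ∀ δ ∈ A, δ < γ → x δ = y δ) : E γ x = E γ y := by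
  ext1
  funext u
  exact N_of_agree (hE.2 γ y u) (fun δ hδ => h δ hδ.1 hδ.2)

/-- progressive continuous families of Laver embeddings with countable support -/
structure GG (I : Type) [LinearOrder I] where
  /-- the embeddings -/
  E : I → Om I → LE
  /-- a countable support exists -/
  supp : ∃ A : Set I, A.Countable ∧ Supp A E

namespace GG

/-- the action on families of sequences -/
def act (t : GG I) (x : Om I) : Om I := fun γ => (t.E γ x).map (x γ)

/-- a countable support -/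
def A (t : GG I) : Set I := t.supp.choose

theorem A_countable (t : GG I) : t.A.Countable := t.supp.choose_spec.1

theorem A_supp (t : GG I) : Supp t.A t.E := t.supp.choose_spec.2

theorem E_congr (t : GG I) {γ : I} {x y : Om I} (h : ∀ δ, δ < γ → x δ = y δ) :
    t.E γ x = t.E γ y := t.A_supp.congr (fun δ _ h' => h δ h')

theorem act_congr (t : GG I) {γ : I} {x y : Om I} (h : ∀ δ, δ ≤ γ → x δ = y δ) :
    t.act x γ = t.act y γ := by
  unfold act
  rw [t.E_congr (fun δ hδ => h δ hδ.le), h γ le_rfl]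

theorem act_eventually {A : Set I} (t : GG I) (hA : Supp A t.E) (γ : I) (i : ℕ) (x : Om I) :
    ∀ᶠ x' in N ((A ∩ Iio γ) ∪ {γ}) x, t.act x' γ i = t.act x γ i := by
  have h1 := N_anti (show A ∩ Iio γ ⊆ (A ∩ Iio γ) ∪ {γ} from subset_union_left) x
    (hA.2 γ x (pre (x γ) (i + 1)))
  have h2 := N_pre (A := (A ∩ Iio γ) ∪ {γ}) x (show γ ∈ _ by simp) (i + 1)
  filter_upwards [h1, h2] with x' h1 h2
  unfold act LE.map
  rw [h2, h1]

/-- continuity of the action -/
theorem tendsto_act {A B : Set I} (t : GG I) (hA : Supp A t.E)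
    (hB : ∀ δ ∈ B, A ∩ Iio δ ⊆ B) (x : Om I) : Tendsto t.act (N B x) (N B (t.act x)) := by
  apply tendsto_N
  intro γ hγ i
  apply N_anti _ x (t.act_eventually hA γ i x)
  rintro δ (hδ | rfl)
  · exact hB γ hγ hδ
  · exact hγ

theorem tendsto_act_lt {A : Set I} (t : GG I) (hA : Supp A t.E) (γ : I) (x : Om I) :
    Tendsto t.act (N (A ∩ Iio γ) x) (N (A ∩ Iio γ) (t.act x)) :=
  t.tendsto_act hA (B := A ∩ Iio γ) (by
    intro δ hδ ε hε
    exact ⟨hε.1, lt_trans (mem_Iio.mp hε.2) (mem_Iio.mp hδ.2)⟩) x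

theorem act_injective_aux {p q : GG I} (h : ∀ x, p.act x = q.act x) : p.E = q.E := by
  funext γ x
  apply LE.map_injective
  intro y
  have h1 : (p.act (Function.update x γ y)) γ = (q.act (Function.update x γ y)) γ := by rw [h]
  have h2 : ∀ t : GG I, (t.act (Function.update x γ y)) γ = (t.E γ x).map y := by
    intro t
    unfold act
    rw [t.E_congr (y := x) (fun δ hδ => by simp [hδ.ne]), Function.update_self]
  rw [h2, h2] at h1
  exact h1

theorem ext_act {p q : GG I} (h : ∀ x, p.act x = q.act x) : p = q := by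
  have h1 := act_injective_aux h
  cases p
  cases q
  simp only at h1
  subst h1
  rfl

theorem ext_E {p q : GG I} (h : p.E = q.E) : p = q := by
  cases p
  cases q
  simp only at h
  subst h
  rfl

instance : One (GG I) := ⟨⟨fun _ _ => 1, ∅, countable_empty, fun _ _ _ => rfl,
  fun _ _ _ => Filter.Eventually.of_forall (fun _ => rfl)⟩⟩

@[simp] theorem one_E (γ : I) (x : Om I) : (1 : GG I).E γ x = 1 := rfl

@[simp] theorem one_act (x : Om I) : (1 : GG I).act x = x := by
  funext γ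
  simp [act]

theorem supp_mul (t u : GG I) {A : Set I} (ht : Supp A t.E) (hu : Supp A u.E) :
    Supp A (fun γ x => t.E γ (u.act x) * u.E γ x) := by
  constructor
  · intro γ hγ x
    show t.E γ (u.act x) * u.E γ x = 1
    rw [ht.1 γ hγ, hu.1 γ hγ, one_mul]
  · intro γ x w
    have h1 := hu.2 γ x w
    have h2 := (u.tendsto_act_lt hu γ x).eventually (ht.2 γ (u.act x) ((u.E γ x).tr w))
    filter_upwards [h1, h2] with x' h1 h2
    rw [LE.mul_tr, LE.mul_tr, h1, h2]

instance : Mul (GG I) := ⟨fun t u => ⟨fun γ x => t.E γ (u.act x) * u.E γ x,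
  t.A ∪ u.A, t.A_countable.union u.A_countable,
    supp_mul t u (t.A_supp.mono subset_union_left) (u.A_supp.mono subset_union_right)⟩⟩

@[simp] theorem mul_E (t u : GG I) (γ : I) (x : Om I) :
    (t * u).E γ x = t.E γ (u.act x) * u.E γ x := rfl

@[simp] theorem mul_act (t u : GG I) (x : Om I) : (t * u).act x = t.act (u.act x) := by
  funext γ
  show ((t * u).E γ x).map (x γ) = (t.E γ (u.act x)).map ((u.E γ x).map (x γ))
  rw [mul_E, LE.map_mul]

theorem Supp_mul {t u : GG I} {A : Set I} (ht : Supp A t.E) (hu : Supp A u.E) :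
    Supp A (t * u).E := supp_mul t u ht hu

instance : Monoid (GG I) where
  mul_assoc a b c := ext_act (fun x => by simp)
  one_mul a := ext_act (fun x => by simp)
  mul_one a := ext_act (fun x => by simp)

/-- the preorder: `q` is stronger than `p` if `q` factors through `p` -/
instance : Preorder (GG I) where
  le q p := ∃ r, q = p * r
  le_refl p := ⟨1, by simp⟩
  le_trans := by
    rintro a b c ⟨r, rfl⟩ ⟨s, rfl⟩
    exact ⟨s * r, by rw [mul_assoc]⟩

theorem le_iff {p q : GG I} : q ≤ p ↔ ∃ r, q = p * r := Iff.rfl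

theorem mul_le (p r : GG I) : p * r ≤ p := ⟨r, rfl⟩

end GG

end Pool.Agent.Helper467_LV
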