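import Mathlib
import Pool.Agent.Helper467_LV.Ops

/-!
Infinite compositions.
-/

set_option autoImplicit false

namespace Pool.Agent.Helper467_LV

open Set Filter

/-- finite compositions -/
def fp (e : ℕ → LE) : ℕ → LE
  | 0 => 1
  | n + 1 => fp e n * e n

/-- the sequence of embeddings converges -/
def Conv (e : ℕ → LE) : Prop := ∃ K, ∀ j, K ≤ j → FixLE j (e j)

theorem fp_stable {e : ℕ → LE} {K : ℕ} (hK : ∀ j, K ≤ j → FixLE j (e j)) (u : List ℕ) {n m : ℕ}
    (h1 : K ≤ n) (h2 : wt u ≤ n) (h3 : n ≤ m) : (fp e m).tr u = (fp e n).tr u := by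
  induction m, h3 using Nat.le_induction with
  | base => rfl
  | succ m hm ih =>
    show (fp e m).tr ((e m).tr u) = _
    rw [hK m (h1.trans hm) u (h2.trans hm), ih]

theorem fp_succ' (e : ℕ → LE) (n : ℕ) : fp e (n + 1) = e 0 * fp (fun j => e (j + 1)) n := by
  induction n with
  | zero => rfl
  | succ n ih =>
    show fp e (n + 1) * e (n + 1) = e 0 * (fp (fun j => e (j + 1)) n * e (n + 1))
    rw [ih, mul_assoc]

open Classical in
/-- the infinite composition -/
noncomputable def LEinf (e : ℕ → LE) : LE :=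
  if h : Conv e then
    { tr := fun u => (fp e (max h.choose (wt u))).tr u
      spec := by
        intro u
        have hK := h.choose_spec
        set K := h.choose with hKdef
        have hj : ∀ n, ∃ j : ℕ → ℕ, StrictMono j ∧
            ∀ m, (fp e n).tr (u ++ [m]) = (fp e n).tr u ++ [j m] := fun n => (fp e n).spec u
        choose j hj1 hj2 using hj
        have key : ∀ m n, max K (wt (u ++ [m])) ≤ n →
            j (max K (wt (u ++ [m]))) m = j n m := by
          intro m n hn
          have h1 := fp_stable hK (u ++ [m]) (le_max_left _ _) (le_max_right K _) hn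
          have h2 := fp_stable hK u (n := max K (wt (u ++ [m]))) (le_max_left _ _)
            (le_trans (by simp) (le_max_right K _)) hn
          rw [hj2, hj2, h2] at h1
          have h3 := List.append_cancel_left h1
          simpa using h3.symm
        refine ⟨fun m => j (max K (wt (u ++ [m]))) m, ?_, ?_⟩
        · intro a b hab
          simp only
          rw [key a (max K (max (wt (u ++ [a])) (wt (u ++ [b]))))
            (max_le (le_max_left _ _) (le_trans (le_max_left _ _) (le_max_right K _))),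
            key b (max K (max (wt (u ++ [a])) (wt (u ++ [b]))))
            (max_le (le_max_left _ _) (le_trans (le_max_right _ _) (le_max_right K _)))]
          exact hj1 _ hab
        · intro m
          rw [hj2]
          congr 1
          exact fp_stable hK u (le_max_left _ _) (le_max_right K _)
            (max_le (le_max_left _ _) (le_trans (by simp) (le_max_right K _))) }
  else 1

theorem LEinf_tr {e : ℕ → LE} {K : ℕ} (hK : ∀ j, K ≤ j → FixLE j (e j)) (u : List ℕ) {n : ℕ}
    (h1 : K ≤ n) (h2 : wt u ≤ n) : (LEinf e).tr u = (fp e n).tr u := by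
  have h : Conv e := ⟨K, hK⟩
  unfold LEinf
  rw [dif_pos h]
  show (fp e (max h.choose (wt u))).tr u = _
  have hK' := h.choose_spec
  have e1 := fp_stable hK' u (n := max h.choose (wt u)) (m := max (max h.choose (wt u)) n)
    (le_max_left _ _) (le_max_right _ _) (le_max_left _ _)
  have e2 := fp_stable hK u (n := n) (m := max (max h.choose (wt u)) n) h1 h2 (le_max_right _ _)
  rw [← e1, e2]

theorem LEinf_eq {e : ℕ → LE} (h : Conv e) : LEinf e = e 0 * LEinf (fun j => e (j + 1)) := by
  obtain ⟨K, hK⟩ := h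
  ext1
  funext u
  have hK' : ∀ j, K ≤ j → FixLE j ((fun j => e (j + 1)) j) :=
    fun j hj => (hK (j + 1) (by omega)).mono (by omega)
  rw [LE.mul_tr, LEinf_tr hK' u (n := max K (wt u)) (le_max_left _ _) (le_max_right _ _),
    LEinf_tr hK u (n := max K (wt u) + 1) (by omega) (by omega), fp_succ', LE.mul_tr]

theorem LEinf_fix {e : ℕ → LE} {n : ℕ} (h : Conv e) (he : ∀ j, FixLE n (e j)) :
    FixLE n (LEinf e) := by
  obtain ⟨K, hK⟩ := h
  intro u hu
  rw [LEinf_tr hK u (n := max K (wt u)) (le_max_left _ _) (le_max_right _ _)]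
  have : ∀ m, FixLE n (fp e m) := by
    intro m
    induction m with
    | zero => exact fixLE_one n
    | succ m ih => exact ih.mul (he m)
  exact this _ u hu

theorem fp_one (n : ℕ) : fp (fun _ => 1) n = 1 := by
  induction n with
  | zero => rfl
  | succ n ih => show fp _ n * 1 = 1; rw [ih, mul_one]

theorem LEinf_one : LEinf (fun _ => 1) = 1 := by
  ext1
  funext u
  rw [LEinf_tr (K := 0) (fun j _ => fixLE_one j) u (n := wt u) (Nat.zero_le _) le_rfl, fp_one]

theorem fp_eventually {X : Type} {l : Filter X} {e : X → ℕ → LE} {e₀ : ℕ → LE}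
    (h : ∀ j u, ∀ᶠ x in l, (e x j).tr u = (e₀ j).tr u) (n : ℕ) (u : List ℕ) :
    ∀ᶠ x in l, (fp (e x) n).tr u = (fp e₀ n).tr u := by
  induction n generalizing u with
  | zero => exact Filter.Eventually.of_forall (fun _ => rfl)
  | succ n ih =>
    filter_upwards [h n u, ih ((e₀ n).tr u)] with x h1 h2
    show (fp (e x) n).tr ((e x n).tr u) = (fp e₀ n).tr ((e₀ n).tr u)
    rw [h1, h2]

variable {I : Type} [LinearOrder I] [WellFoundedLT I]

/-- values of the infinite compositions, by recursion on the coordinate -/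
noncomputable def Tv (t : ℕ → GG I) : I → ℕ → Om I → (ℕ → ℕ) :=
  (wellFounded_lt : WellFounded (fun a b : I => a < b)).fix
    (fun γ ih k x => (LEinf (fun j => (t (k + j)).E γ
      (fun δ => if h : δ < γ then ih δ h (k + j + 1) x else fun _ => 0))).map (x γ))

/-- the infinite compositions as maps -/
noncomputable def Tx (t : ℕ → GG I) (k : ℕ) (x : Om I) : Om I := fun γ => Tv t γ k x

/-- the embeddings of the infinite compositions -/
noncomputable def TE (t : ℕ → GG I) (k : ℕ) (γ : I) (x : Om I) : LE :=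
  LEinf (fun j => (t (k + j)).E γ (Tx t (k + j + 1) x))

theorem Tx_eq (t : ℕ → GG I) (k : ℕ) (x : Om I) (γ : I) :
    Tx t k x γ = (TE t k γ x).map (x γ) := by
  unfold Tx Tv TE
  rw [WellFounded.fix_eq]
  congr 2
  funext j
  apply (t (k + j)).E_congr
  intro δ hδ
  rw [dif_pos hδ]
  rfl

/-- The sequence `t` can be composed: each coordinate is eventually fixed more and more. -/
def Fusible (t : ℕ → GG I) : Prop := ∀ γ, ∃ K, ∀ j, K ≤ j → ∀ x, FixLE j ((t j).E γ x)

theorem Fusible.conv {t : ℕ → GG I} (h : Fusible t) (γ : I) : ∃ K, ∀ k (y : ℕ → Om I) j, K ≤ j →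
    FixLE j ((t (k + j)).E γ (y j)) := by
  obtain ⟨K, hK⟩ := h γ
  exact ⟨K, fun k y j hj => (hK (k + j) (by omega) _).mono (by omega)⟩

theorem Tx_supp (t : ℕ → GG I) (ht : Fusible t) {A : Set I} (hA : ∀ k, Supp A (t k).E) (γ : I) :
    ∀ k x, (∀ i, ∀ᶠ x' in N ((A ∩ Iio γ) ∪ {γ}) x, Tx t k x' γ i = Tx t k x γ i) ∧
      ∀ u, ∀ᶠ x' in N (A ∩ Iio γ) x, (TE t k γ x').tr u = (TE t k γ x).tr u := by
  induction γ using WellFoundedLT.induction with
  | ind γ ih =>
  intro k x
  have h1 : ∀ m, Tendsto (Tx t m) (N (A ∩ Iio γ) x) (N (A ∩ Iio γ) (Tx t m x)) := by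
    intro m
    apply tendsto_N
    intro δ hδ i
    apply N_anti _ x ((ih δ hδ.2 m x).1 i)
    rintro ε (hε | rfl)
    · exact ⟨hε.1, lt_trans (mem_Iio.mp hε.2) (mem_Iio.mp hδ.2)⟩
    · exact hδ
  have h2 : ∀ u, ∀ᶠ x' in N (A ∩ Iio γ) x, (TE t k γ x').tr u = (TE t k γ x).tr u := by
    intro u
    obtain ⟨K, hK⟩ := ht.conv γ
    have h3 : ∀ x', (TE t k γ x').tr u =
        (fp (fun j => (t (k + j)).E γ (Tx t (k + j + 1) x')) (max K (wt u))).tr u := by
      intro x'
      exact LEinf_tr (hK k (fun j => Tx t (k + j + 1) x')) u (le_max_left _ _) (le_max_right _ _)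
    simp only [h3]
    apply fp_eventually
    intro j v
    exact (h1 (k + j + 1)).eventually ((hA (k + j)).2 γ (Tx t (k + j + 1) x) v)
  refine ⟨fun i => ?_, h2⟩
  have h4 := N_anti (show A ∩ Iio γ ⊆ (A ∩ Iio γ) ∪ {γ} from subset_union_left) x
    (h2 (pre (x γ) (i + 1)))
  have h5 := N_pre (A := (A ∩ Iio γ) ∪ {γ}) x (show γ ∈ _ by simp) (i + 1)
  filter_upwards [h4, h5] with x' h4 h5
  rw [Tx_eq, Tx_eq]
  unfold LE.map
  rw [h5, h4]

/-- the infinite compositions exist -/
theorem exists_limit (t : ℕ → GG I) (ht : Fusible t) {A : Set I} (hAc : A.Countable)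
    (hA : ∀ k, Supp A (t k).E) :
    ∃ T : ℕ → GG I, (∀ k, T k = t k * T (k + 1)) ∧ (∀ k, Supp A (T k).E) ∧
      (∀ γ n k, (∀ j, k ≤ j → ∀ x, FixLE n ((t j).E γ x)) → ∀ x, FixLE n ((T k).E γ x)) ∧
      (∀ S : Set I, (∀ k, InS S (t k)) → ∀ k, InS S (T k)) := by
  have hS : ∀ k, Supp A (TE t k) := by
    intro k
    constructor
    · intro γ hγ x
      unfold TE
      simp only [(hA _).1 γ hγ]
      exact LEinf_one
    · intro γ x u
      exact (Tx_supp t ht hA γ k x).2 u
  refine ⟨fun k => ⟨TE t k, A, hAc, hS k⟩, ?_, hS, ?_, ?_⟩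
  · intro k
    have hact : ∀ k x, (⟨TE t k, A, hAc, hS k⟩ : GG I).act x = Tx t k x := by
      intro k x
      funext γ
      rw [Tx_eq]
      rfl
    apply GG.ext_E
    funext γ x
    rw [GG.mul_E, hact]
    show TE t k γ x = (t k).E γ (Tx t (k + 1) x) * TE t (k + 1) γ x
    unfold TE
    obtain ⟨K, hK⟩ := ht.conv γ
    rw [LEinf_eq ⟨K, hK k (fun j => Tx t (k + j + 1) x)⟩]
    have : ∀ j, k + 1 + j = k + (j + 1) := fun j => by omega
    simp only [this]
    rfl
  · intro γ n k h x
    obtain ⟨K, hK⟩ := ht.conv γ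
    exact LEinf_fix ⟨K, hK k (fun j => Tx t (k + j + 1) x)⟩
      (fun j => h (k + j) (by omega) _)
  · intro S h k γ hγ x
    show TE t k γ x = 1
    unfold TE
    simp only [h _ γ hγ]
    exact LEinf_one

end Pool.Agent.Helper467_LV
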