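import Mathlib
import Pool.Agent.Helper467_LV.Lim

/-!
Enumeration of the basic boxes over a countable set of coordinates; local membership; the fusion
lemma.
-/

set_option autoImplicit false

namespace Pool.Agent.Helper467_LV

open Set Filter

section enum

variable {I : Type}

/-- all boxes over a countable set of coordinates, in a sequence -/
theorem exists_boxes {A : Set I} (hA : A.Countable) :
    ∃ (Fs : ℕ → Finset I) (ns : ℕ → ℕ) (xs : ℕ → Om I), (∀ k, ↑(Fs k) ⊆ A) ∧
      ∀ (y : Om I) (F : Finset I) (n : ℕ), ↑F ⊆ A → ∃ k, Fs k = F ∧ ns k = n ∧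
        ∀ γ ∈ F, ∀ i, i < n → y γ i = xs k γ i := by
  classical
  haveI : Countable A := hA.to_subtype
  obtain ⟨e, he⟩ := exists_surjective_nat (Finset A × ℕ × ((A × ℕ) →₀ ℕ))
  refine ⟨fun k => (e k).1.map (Function.Embedding.subtype _), fun k => (e k).2.1,
    fun k γ i => if h : γ ∈ A then (e k).2.2 (⟨γ, h⟩, i) else 0, ?_, ?_⟩
  · intro k γ hγ
    simp only [Finset.coe_map, Function.Embedding.subtype_apply, mem_image, SetLike.mem_coe,
      Subtype.exists, exists_and_right, exists_eq_right] at hγ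
    exact hγ.1
  · intro y F n hF
    set F' : Finset A := F.subtype (fun γ => γ ∈ A) with hF'
    set f : (A × ℕ) →₀ ℕ := Finsupp.onFinset (F' ×ˢ Finset.range n)
      (fun p => if p ∈ F' ×ˢ Finset.range n then y p.1 p.2 else 0) (by
        intro p hp
        by_contra h
        exact hp (if_neg h)) with hf
    obtain ⟨k, hk⟩ := he (F', n, f)
    refine ⟨k, ?_, ?_, ?_⟩
    · simp only [hk]
      ext γ
      simp only [hF', Finset.subtype_map, Finset.mem_filter]
      constructor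
      · exact fun h => h.1
      · exact fun h => ⟨h, hF h⟩
    · simp only [hk]
    · intro γ hγ i hi
      simp only [hk]
      rw [dif_pos (hF hγ), hf, Finsupp.onFinset_apply, if_pos]
      simp only [Finset.mem_product, Finset.mem_range]
      exact ⟨by rw [hF', Finset.mem_subtype]; exact hγ, hi⟩

/-- least index -/
theorem exists_least {A : Set I} (P : ℕ → Om I → Prop)
    (hP : ∀ k x, ∀ᶠ x' in N A x, (P k x' ↔ P k x)) (h : ∀ x, ∃ k, P k x) :
    ∃ idx : Om I → ℕ, (∀ x, ∀ᶠ x' in N A x, idx x' = idx x) ∧ ∀ x, P (idx x) x := by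
  classical
  refine ⟨fun x => Nat.find (h x), fun x => ?_, fun x => Nat.find_spec (h x)⟩
  have h1 : ∀ᶠ x' in N A x, ∀ k ∈ Finset.range (Nat.find (h x) + 1), (P k x' ↔ P k x) := by
    rw [Filter.eventually_all_finset]
    exact fun k _ => hP k x
  filter_upwards [h1] with x' h1
  rw [Nat.find_eq_iff]
  constructor
  · rw [h1 _ (by simp)]
    exact Nat.find_spec (h x)
  · intro k hk
    rw [h1 k (by rw [Finset.mem_range]; omega)]
    exact Nat.find_min (h x) hk

theorem box_eventually {A : Set I} (F : Finset I) (hF : ↑F ⊆ A) (n : ℕ) (z : Om I) (x : Om I) :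
    ∀ᶠ x' in N A x, ((∀ γ ∈ F, ∀ i, i < n → x' γ i = z γ i) ↔
      (∀ γ ∈ F, ∀ i, i < n → x γ i = z γ i)) := by
  filter_upwards [N_agree x F hF n] with x' h
  constructor
  · intro h1 γ hγ i hi
    rw [← h γ hγ i hi]
    exact h1 γ hγ i hi
  · intro h1 γ hγ i hi
    rw [h γ hγ i hi]
    exact h1 γ hγ i hi

/-- choosing a box continuously -/
theorem exists_idx {A : Set I} (hA : A.Countable) (G : Finset I → ℕ → Om I → Prop)
    (hG : ∀ y, ∃ F : Finset I, ↑F ⊆ A ∧ ∃ n, G F n y)
    (hcongr : ∀ F n y y', (∀ γ ∈ F, ∀ i, i < n → y' γ i = y γ i) → G F n y → G F n y') :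
    ∃ (Fs : ℕ → Finset I) (ns : ℕ → ℕ) (xs : ℕ → Om I) (idx : Om I → ℕ),
      (∀ k, ↑(Fs k) ⊆ A) ∧ (∀ x, ∀ᶠ x' in N A x, idx x' = idx x) ∧
      ∀ y, (∀ γ ∈ Fs (idx y), ∀ i, i < ns (idx y) → y γ i = xs (idx y) γ i) ∧
        G (Fs (idx y)) (ns (idx y)) (xs (idx y)) := by
  obtain ⟨Fs, ns, xs, h1, h2⟩ := exists_boxes hA
  obtain ⟨idx, h3, h4⟩ := exists_least (A := A) (fun k x =>
    (∀ γ ∈ Fs k, ∀ i, i < ns k → x γ i = xs k γ i) ∧ G (Fs k) (ns k) (xs k)) (by
      intro k x
      filter_upwards [box_eventually (Fs k) (h1 k) (ns k) (xs k) x] with x' hx'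
      rw [hx']) (by
      intro x
      obtain ⟨F, hF, n, hG'⟩ := hG x
      obtain ⟨k, hk1, hk2, hk3⟩ := h2 x F n hF
      subst hk1
      subst hk2
      exact ⟨k, hk3, hcongr _ _ x _ (fun γ hγ i hi => (hk3 γ hγ i hi).symm) hG'⟩)
  exact ⟨Fs, ns, xs, idx, h1, h3, h4⟩

end enum

variable {I : Type} [LinearOrder I]

/-- closed under extension, in the part `S` -/
def OpenS (S : Set I) (D : Set (GG I)) : Prop :=
  ∀ p r, InS S p → InS S r → p ∈ D → p * r ∈ D

/-- dense, in the part `S` -/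
def DenseS (S : Set I) (D : Set (GG I)) : Prop := ∀ p, InS S p → ∃ r, InS S r ∧ p * r ∈ D

/-- locally in `D` -/
def LocD (S : Set I) (D : Set (GG I)) (t : GG I) : Prop :=
  ∃ A : Set I, A.Countable ∧ A ⊆ S ∧ ∀ y, ∃ F : Finset I, ↑F ⊆ A ∧ ∃ n, t * iota F n y ∈ D

theorem open_mul {S : Set I} {D : Set (GG I)} (hD : OpenS S D) {t r : GG I} {F : Finset I}
    {n : ℕ} {y : Om I} (ht : InS S t) (hr : InS S r) (hF : ↑F ⊆ S) (h : t * iota F n y ∈ D)
    (hry : ∀ x, ∀ γ ∈ F, ∀ i, i < n → r.act x γ i = y γ i) : t * r ∈ D := by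
  obtain ⟨r', h1, h2, -⟩ := factor hry
  rw [h1, ← mul_assoc]
  exact hD _ _ (ht.mul (iota_inS F n y hF)) (h2 S hr hF) h

theorem LocD.mul {S : Set I} (hS : IsLowerSet S) {D : Set (GG I)} (hD : OpenS S D) {t r : GG I}
    (ht : InS S t) (hr : InS S r) (h : LocD S D t) : LocD S D (t * r) := by
  obtain ⟨A, hA, hAS, h⟩ := h
  refine ⟨(A ∪ r.A) ∩ S, (hA.union r.A_countable).mono inter_subset_left, inter_subset_right,
    fun y => ?_⟩
  obtain ⟨F, hF, n, h1⟩ := h (r.act y)
  have hF' : ↑F ⊆ (A ∪ r.A) ∩ S := fun γ hγ => ⟨Or.inl (hF hγ), hAS (hF hγ)⟩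
  obtain ⟨F', h2, n', h3⟩ := factor_of_eventually (A := (A ∪ r.A) ∩ S) (r := r) (y := y) (F := F)
    (n := n) (by
      intro δ hδ ε hε
      exact ⟨Or.inr hε.1, hS (le_of_lt (mem_Iio.mp hε.2)) hδ.2⟩) hF'
  refine ⟨F', h2, n', ?_⟩
  rw [mul_assoc]
  apply open_mul hD ht (hr.mul (iota_inS F' n' y (fun γ hγ => (h2 hγ).2)))
    (fun γ hγ => hAS (hF hγ)) h1
  intro x γ hγ i hi
  rw [GG.mul_act]
  exact h3 _ (iota_agree F' n' y x) γ hγ i hi

theorem LocD.of_mem {S : Set I} {D : Set (GG I)} {t : GG I} (h : t ∈ D) :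
    LocD S D t := by
  refine ⟨∅, countable_empty, empty_subset _, fun y => ⟨∅, by simp, 0, ?_⟩⟩
  have : iota (∅ : Finset I) 0 y = 1 := by
    apply GG.ext_E
    funext γ x
    unfold iota
    rw [rho_E]
    simp
  rw [this, mul_one]
  exact h

/-- `t` fixes the sequences of weight at most `n` at the coordinates in `F` -/
def Fix (F : Finset I) (n : ℕ) (t : GG I) : Prop := ∀ γ ∈ F, ∀ x, FixLE n (t.E γ x)

theorem Fix.mul {F : Finset I} {n : ℕ} {t u : GG I} (ht : Fix F n t) (hu : Fix F n u) :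
    Fix F n (t * u) := fun γ hγ x => (ht γ hγ _).mul (hu γ hγ x)

theorem Fix.one {F : Finset I} {n : ℕ} : Fix F n (1 : GG I) := fun _ _ _ => fixLE_one n

theorem exists_enf {C : Set I} (hC : C.Countable) :
    ∃ f : ℕ → Finset I, (∀ j, ↑(f j) ⊆ C) ∧ ∀ γ ∈ C, ∃ j, γ ∈ f j := by
  haveI : Countable C := hC.to_subtype
  obtain ⟨g, hg⟩ := exists_injective_nat C
  have hfin : ∀ j, {γ | ∃ h : γ ∈ C, g ⟨γ, h⟩ = j}.Finite := by
    intro j
    apply Set.Subsingleton.finite
    rintro a ⟨ha, ha'⟩ b ⟨hb, hb'⟩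
    have := hg (ha'.trans hb'.symm)
    simpa using this
  refine ⟨fun j => (hfin j).toFinset, ?_, ?_⟩
  · intro j γ hγ
    simp only [Finite.coe_toFinset] at hγ
    exact hγ.1
  · intro γ hγ
    exact ⟨g ⟨γ, hγ⟩, by rw [Finite.mem_toFinset]; exact ⟨hγ, rfl⟩⟩

/-- the coordinates moved by `t` -/
def Act (t : GG I) : Set I := {γ | ∃ x, t.E γ x ≠ 1}

theorem act_countable (t : GG I) : (Act t).Countable := by
  apply t.A_countable.mono
  rintro γ ⟨x, hx⟩
  by_contra h
  exact hx (t.A_supp.1 γ h x)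

/-- an enumeration of the coordinates moved by `t` -/
noncomputable def enf (t : GG I) : ℕ → Finset I := (exists_enf (act_countable t)).choose

theorem enf_sub (t : GG I) (j : ℕ) : ↑(enf t j) ⊆ Act t :=
  (exists_enf (act_countable t)).choose_spec.1 j

theorem enf_mem (t : GG I) (γ : I) (h : γ ∈ Act t) : ∃ j, γ ∈ enf t j :=
  (exists_enf (act_countable t)).choose_spec.2 γ h

variable [WellFoundedLT I]

theorem fusion (S : Set I) (F₀ : Finset I) (hF₀ : ↑F₀ ⊆ S) (n₀ : ℕ)
    (Step : ℕ → GG I → Finset I → GG I → Prop)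
    (hstep : ∀ k P (F : Finset I), InS S P → F₀ ⊆ F → ↑F ⊆ S →
      ∃ t, InS S t ∧ Fix F (n₀ + k) t ∧ Step k P F t) :
    ∃ (Fs : ℕ → Finset I) (t T P : ℕ → GG I), Fs 0 = F₀ ∧ (∀ k, Fs k ⊆ Fs (k + 1)) ∧
      (∀ k, ↑(Fs k) ⊆ S) ∧ P 0 = 1 ∧ (∀ k, P (k + 1) = P k * t k) ∧ (∀ k, InS S (P k)) ∧
      (∀ k, InS S (t k)) ∧ (∀ k, Fix (Fs k) (n₀ + k) (t k)) ∧
      (∀ k, Step k (P k) (Fs k) (t k)) ∧ (∀ k, T k = t k * T (k + 1)) ∧
      (∀ k, InS S (T k)) ∧ (∀ k, Fix (Fs k) (n₀ + k) (T k)) ∧ (∀ k, P k * T k = T 0) := by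
  classical
  set Fof : List (GG I) → Finset I := fun L => F₀ ∪ (Finset.range L.length).biUnion
    (fun i => (Finset.range L.length).biUnion (fun j => enf (L.getD i 1) j)) with hFof
  set pick : List (GG I) → GG I := fun L =>
    if h : InS S L.prod ∧ F₀ ⊆ Fof L ∧ ↑(Fof L) ⊆ S then
      (hstep L.length L.prod (Fof L) h.1 h.2.1 h.2.2).choose else 1 with hpick
  have hpick' : ∀ L, InS S L.prod → F₀ ⊆ Fof L → ↑(Fof L) ⊆ S →
      InS S (pick L) ∧ Fix (Fof L) (n₀ + L.length) (pick L) ∧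
        Step L.length L.prod (Fof L) (pick L) := by
    intro L h1 h2 h3
    have h : InS S L.prod ∧ F₀ ⊆ Fof L ∧ ↑(Fof L) ⊆ S := ⟨h1, h2, h3⟩
    have h4 : pick L = (hstep L.length L.prod (Fof L) h.1 h.2.1 h.2.2).choose := dif_pos h
    rw [h4]
    exact (hstep L.length L.prod (Fof L) h.1 h.2.1 h.2.2).choose_spec
  set hist : ℕ → List (GG I) := fun k => Nat.rec [] (fun _ L => L ++ [pick L]) k with hhist
  have hist0 : hist 0 = [] := rfl
  have hist1 : ∀ k, hist (k + 1) = hist k ++ [pick (hist k)] := fun _ => rfl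
  have hlen : ∀ k, (hist k).length = k := by
    intro k
    induction k with
    | zero => rfl
    | succ k ih => rw [hist1, List.length_append, ih]; rfl
  set t : ℕ → GG I := fun k => pick (hist k) with ht
  have hget : ∀ k i, i < k → (hist k).getD i 1 = t i := by
    intro k
    induction k with
    | zero => intro i hi; omega
    | succ k ih =>
      intro i hi
      rw [hist1]
      rcases Nat.lt_succ_iff_lt_or_eq.mp hi with h | h
      · rw [List.getD_append _ _ _ _ (by rw [hlen]; exact h)]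
        exact ih i h
      · subst h
        rw [List.getD_append_right _ _ _ _ (by rw [hlen]), hlen]
        simp [ht]
  have hFs : ∀ k, Fof (hist k) = F₀ ∪ (Finset.range k).biUnion
      (fun i => (Finset.range k).biUnion (fun j => enf (t i) j)) := by
    intro k
    rw [hFof]
    simp only [hlen]
    congr 1
    apply Finset.biUnion_congr rfl
    intro i hi
    apply Finset.biUnion_congr rfl
    intro j hj
    rw [hget k i (Finset.mem_range.mp hi)]
  have hF0 : ∀ L, F₀ ⊆ Fof L := fun L => Finset.subset_union_left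
  have hall : ∀ k, InS S (hist k).prod ∧ (∀ i, i < k → InS S (t i)) ∧ ↑(Fof (hist k)) ⊆ S := by
    intro k
    induction k with
    | zero =>
      refine ⟨InS.one, fun i hi => by omega, ?_⟩
      rw [hFs]
      simpa using hF₀
    | succ k ih =>
      obtain ⟨h1, h2, h3⟩ := ih
      have h4 := hpick' (hist k) h1 (hF0 _) h3
      have h5 : ∀ i, i < k + 1 → InS S (t i) := by
        intro i hi
        rcases Nat.lt_succ_iff_lt_or_eq.mp hi with h | h
        · exact h2 i h
        · subst h; exact h4.1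
      refine ⟨?_, h5, ?_⟩
      · rw [hist1, List.prod_append, List.prod_singleton]
        exact h1.mul h4.1
      · intro γ hγ'
        have hγ : γ ∈ Fof (hist (k + 1)) := hγ'
        rw [hFs (k + 1)] at hγ
        simp only [Finset.mem_union, Finset.mem_biUnion, Finset.mem_range] at hγ
        rcases hγ with hγ | ⟨i, hi, j, hj, hγ⟩
        · exact hF₀ hγ
        · obtain ⟨x, hx⟩ := enf_sub (t i) j hγ
          by_contra hn
          exact hx (h5 i hi γ hn x)
  have htS : ∀ k, InS S (t k) := fun k => (hall (k + 1)).2.1 k (by omega)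
  have hspec : ∀ k, Fix (Fof (hist k)) (n₀ + k) (t k) ∧
      Step k (hist k).prod (Fof (hist k)) (t k) := by
    intro k
    have h := hpick' (hist k) (hall k).1 (hF0 _) (hall k).2.2
    rw [hlen] at h
    exact h.2
  have hmono : ∀ a b, a ≤ b → Fof (hist a) ⊆ Fof (hist b) := by
    intro a b hab
    rw [hFs, hFs]
    intro γ hγ
    simp only [Finset.mem_union, Finset.mem_biUnion, Finset.mem_range] at hγ ⊢
    rcases hγ with hγ | ⟨i, hi, j, hj, hγ⟩
    · exact Or.inl hγ
    · exact Or.inr ⟨i, by omega, j, by omega, hγ⟩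
  have hfus : Fusible t := by
    intro γ
    by_cases h : ∃ i, γ ∈ Act (t i)
    · obtain ⟨i, hi⟩ := h
      obtain ⟨j, hj⟩ := enf_mem (t i) γ hi
      refine ⟨max i j + 1, fun k hk x => ?_⟩
      have h1 : γ ∈ Fof (hist k) := by
        rw [hFs]
        simp only [Finset.mem_union, Finset.mem_biUnion, Finset.mem_range]
        exact Or.inr ⟨i, by omega, j, by omega, hj⟩
      exact ((hspec k).1 γ h1 x).mono (by omega)
    · refine ⟨0, fun k _ x => ?_⟩
      have : (t k).E γ x = 1 := by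
        by_contra hn
        exact h ⟨k, x, hn⟩
      rw [this]
      exact fixLE_one k
  obtain ⟨T, hT1, -, hT3, hT4⟩ := exists_limit t hfus (A := ⋃ k, (t k).A)
    (countable_iUnion (fun k => (t k).A_countable))
    (fun k => (t k).A_supp.mono (subset_iUnion (fun k => (t k).A) k))
  refine ⟨fun k => Fof (hist k), t, T, fun k => (hist k).prod, ?_, ?_, fun k => (hall k).2.2,
    rfl, ?_, fun k => (hall k).1, htS, fun k => (hspec k).1, fun k => (hspec k).2, hT1,
    hT4 S htS, ?_, ?_⟩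
  · simp only [hFs]
    simp
  · exact fun k => hmono k (k + 1) (by omega)
  · intro k
    simp only [hist1, List.prod_append, List.prod_singleton]
    rfl
  · intro k γ hγ x
    apply hT3
    intro j hj x'
    exact ((hspec j).1 γ (hmono k j hj hγ) x').mono (by omega)
  · intro k
    induction k with
    | zero => simp [hist0]
    | succ k ih =>
      show (hist k ++ [t k]).prod * T (k + 1) = T 0
      rw [List.prod_append, List.prod_singleton, mul_assoc, ← hT1]
      exact ih

end Pool.Agent.Helper467_LV
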