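import Mathlib
import Pool.Agent.Helper467_LV.Fusion

/-!
Extension of pure elements from regions, deciding on all regions, and fusion from pure decision.
-/

set_option autoImplicit false

namespace Pool.Agent.Helper467_LV

open Set Filter

variable {I : Type} [LinearOrder I]

theorem reg_congr {u : List ℕ} {c : ℕ} {y z : ℕ → ℕ} (h : ∀ i, i < u.length + 1 → z i = y i)
    (hy : Reg u c y) : Reg u c z := by
  obtain ⟨h1, h2⟩ := hy
  refine ⟨?_, ?_⟩
  · rw [← h1, pre_length, pre_eq_iff]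
    intro i hi
    exact h i (by omega)
  · rw [h _ (by omega)]
    exact h2

theorem cover_aux {S : Set I} {D : Set (GG I)} (hD : OpenS S D) {s : GG I} (hs : InS S s)
    {F F' : Finset I} (hF : ↑F ⊆ S) (hF' : ↑F' ⊆ S) {B : I → List ℕ} {c : I → ℕ} {y : Om I}
    (hy : RegF F B c y) {n' : ℕ} (h : (s * rho F B c) * iota F' n' (unrho F B c y) ∈ D) :
    ∃ n'', s * iota (F ∪ F') n'' y ∈ D := by
  set n'' := n' + 1 + ∑ γ ∈ F, (B γ).length with hn''
  have hlen : ∀ γ ∈ F, n' + 1 + (B γ).length ≤ n'' := by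
    intro γ hγ
    have h : (B γ).length ≤ ∑ γ ∈ F, (B γ).length :=
      Finset.single_le_sum (f := fun γ => (B γ).length) (fun i _ => Nat.zero_le _) hγ
    omega
  have hag : ∀ x, ∀ γ ∈ F ∪ F', ∀ i, i < n'' → (iota (F ∪ F') n'' y).act x γ i = y γ i :=
    fun x => iota_agree (F ∪ F') n'' y x
  have hreg : ∀ x, RegF F B c ((iota (F ∪ F') n'' y).act x) := by
    intro x γ hγ
    apply reg_congr _ (hy γ hγ)
    intro i hi
    exact hag x γ (Finset.mem_union_left _ hγ) i (by have := hlen γ hγ; omega)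
  have hFF : ↑(F ∪ F') ⊆ S := by
    rw [Finset.coe_union]; exact union_subset hF hF'
  refine ⟨n'', ?_⟩
  rw [← rho_mul_divG _ F B c hreg, ← mul_assoc]
  apply open_mul hD (hs.mul (rho_inS F B c hF)) (divG_inS _ F B c hreg (iota_inS _ _ _ hFF) hF)
    hF' h
  intro x γ hγ i hi
  rw [divG_act]
  unfold unrho
  split_ifs with h1
  · have h2 := hlen γ h1
    unfold unsh
    split_ifs with h3
    · rw [hag x γ (Finset.mem_union_left _ h1) _ (by omega)]
    · rw [hag x γ (Finset.mem_union_left _ h1) _ (by omega)]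
  · exact hag x γ (Finset.mem_union_right _ hγ) i (by omega)

theorem LocD.locD {S : Set I} {D : Set (GG I)} (hD : OpenS S D) {t : GG I} (ht : InS S t)
    (h : LocD S {s | LocD S D s} t) : LocD S D t := by
  classical
  obtain ⟨A, hA, hAS, h⟩ := h
  obtain ⟨Fs, ns, xs, h1, h2⟩ := exists_boxes hA
  have h3 : ∀ k, ∃ B : Set I, B.Countable ∧ B ⊆ S ∧
      (LocD S D (t * iota (Fs k) (ns k) (xs k)) → ∀ y, ∃ F : Finset I, ↑F ⊆ B ∧ ∃ n,
        t * iota (Fs k) (ns k) (xs k) * iota F n y ∈ D) := by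
    intro k
    by_cases hk : LocD S D (t * iota (Fs k) (ns k) (xs k))
    · obtain ⟨B, hB, hBS, hB'⟩ := hk
      exact ⟨B, hB, hBS, fun _ => hB'⟩
    · exact ⟨∅, countable_empty, empty_subset _, fun h => absurd h hk⟩
  choose B hB1 hB2 hB3 using h3
  refine ⟨A ∪ ⋃ k, B k, hA.union (countable_iUnion hB1), union_subset hAS (iUnion_subset hB2), ?_⟩
  intro y
  obtain ⟨F, hF, n, hFn⟩ := h y
  obtain ⟨k, hk1, hk2, hk3⟩ := h2 y F n hF
  subst hk1
  subst hk2
  have hyreg : RegF (Fs k) (fun γ => pre (y γ) (ns k)) 0 y := regF_iota.mpr (fun _ _ _ _ => rfl)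
  have h4 : iota (Fs k) (ns k) (xs k) = iota (Fs k) (ns k) y := (iota_congr hk3).symm
  obtain ⟨F', hF', n', h5⟩ := hB3 k (by rw [h4]; exact hFn)
    (unrho (Fs k) (fun γ => pre (y γ) (ns k)) 0 y)
  rw [h4] at h5
  obtain ⟨n'', h6⟩ := cover_aux hD ht (fun γ hγ => hAS (h1 k hγ))
    (fun γ hγ => hB2 k (hF' hγ)) hyreg h5
  refine ⟨Fs k ∪ F', ?_, n'', h6⟩
  rw [Finset.coe_union]
  exact union_subset ((h1 k).trans subset_union_left)
    (hF'.trans ((subset_iUnion B k).trans subset_union_right))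

/-- the embedding onto a region at level `n` -/
def rg (F : Finset I) (n : ℕ) (σ : I → List ℕ) : GG I := rho F σ (fun γ => n - wt (σ γ))

theorem rg_congr {F : Finset I} {n : ℕ} {σ τ : I → List ℕ} (h : ∀ γ ∈ F, σ γ = τ γ) :
    rg F n σ = rg F n τ := by
  apply GG.ext_E
  funext γ x
  unfold rg
  rw [rho_E, rho_E]
  split_ifs with h1
  · rw [h γ h1]
  · rfl

theorem finite_regions (F : Finset I) (n : ℕ) :
    {σ : I → List ℕ | (∀ γ, γ ∉ F → σ γ = []) ∧ ∀ γ ∈ F, wt (σ γ) ≤ n}.Finite := by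
  classical
  have h1 : (Set.univ : Set (F → {u : List ℕ | wt u ≤ n})).Finite := by
    haveI : Finite {u : List ℕ | wt u ≤ n} := finite_wt_le n
    exact Set.finite_univ
  apply (h1.image (fun f => fun γ => if h : γ ∈ F then (f ⟨γ, h⟩ : List ℕ) else [])).subset
  rintro σ ⟨h2, h3⟩
  refine ⟨fun γ => ⟨σ γ, h3 γ γ.2⟩, mem_univ _, ?_⟩
  funext γ
  by_cases h : γ ∈ F
  · simp only [dif_pos h]
  · simp only [dif_neg h]
    exact (h2 γ h).symm

theorem locD_of_regions {S : Set I} {D : Set (GG I)} (hD : OpenS S D) {s : GG I}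
    (hs : InS S s) {F : Finset I} (hF : ↑F ⊆ S) {n : ℕ}
    (h : ∀ σ : I → List ℕ, (∀ γ ∈ F, wt (σ γ) ≤ n) → LocD S D (s * rg F n σ)) :
    LocD S D s := by
  classical
  have h1 : ∀ σ : I → List ℕ, ∃ B : Set I, B.Countable ∧ B ⊆ S ∧
      ((∀ γ ∈ F, wt (σ γ) ≤ n) → ∀ y, ∃ F' : Finset I, ↑F' ⊆ B ∧ ∃ n',
        s * rg F n σ * iota F' n' y ∈ D) := by
    intro σ
    by_cases hσ : ∀ γ ∈ F, wt (σ γ) ≤ n
    · obtain ⟨B, hB, hBS, hB'⟩ := h σ hσ
      exact ⟨B, hB, hBS, fun _ => hB'⟩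
    · exact ⟨∅, countable_empty, empty_subset _, fun h => absurd h hσ⟩
  choose B hB1 hB2 hB3 using h1
  refine ⟨↑F ∪ ⋃ σ ∈ {σ : I → List ℕ | (∀ γ, γ ∉ F → σ γ = []) ∧ ∀ γ ∈ F, wt (σ γ) ≤ n}, B σ,
    F.countable_toSet.union ((finite_regions F n).countable.biUnion (fun σ _ => hB1 σ)),
    union_subset hF (iUnion₂_subset (fun σ _ => hB2 σ)), ?_⟩
  intro y
  set σ : I → List ℕ := fun γ => if γ ∈ F then lp n (y γ) else [] with hσ
  have hσ1 : ∀ γ ∈ F, σ γ = lp n (y γ) := fun γ hγ => if_pos hγ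
  have hσ2 : ∀ γ ∈ F, wt (σ γ) ≤ n := fun γ hγ => by rw [hσ1 γ hγ]; exact wt_lp _ _
  have hreg : RegF F σ (fun γ => n - wt (σ γ)) y := by
    intro γ hγ
    simp only [hσ1 γ hγ]
    exact reg_lp n (y γ)
  obtain ⟨F', hF', n', h2⟩ := hB3 σ hσ2 (unrho F σ (fun γ => n - wt (σ γ)) y)
  obtain ⟨n'', h3⟩ := cover_aux hD hs hF (fun γ hγ => hB2 σ (hF' hγ)) hreg h2
  refine ⟨F ∪ F', ?_, n'', h3⟩
  rw [Finset.coe_union]
  apply union_subset subset_union_left
  refine hF'.trans (Subset.trans ?_ subset_union_right)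
  exact subset_iUnion₂ (s := fun σ (_ : σ ∈ {σ : I → List ℕ | (∀ γ, γ ∉ F → σ γ = []) ∧
    ∀ γ ∈ F, wt (σ γ) ≤ n}) => B σ) σ ⟨fun γ hγ => if_neg hγ, hσ2⟩

/-- extension of a pure element from a region -/
theorem exists_ext (F : Finset I) (n : ℕ) (σ : I → List ℕ) (hσ : ∀ γ ∈ F, wt (σ γ) ≤ n)
    (u : GG I) (hu : ∀ γ ∈ F, ∀ x, (u.E γ x).tr [] = []) :
    ∃ w : GG I, Fix F n w ∧ w * rg F n σ = rg F n σ * u ∧
      ∀ S : Set I, ↑F ⊆ S → InS S u → InS S w := by
  classical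
  set c : I → ℕ := fun γ => n - wt (σ γ) with hc
  set E : I → Om I → LE := fun γ x =>
    if (∀ δ ∈ F, δ < γ → Reg (σ δ) (c δ) (x δ)) then
      (if hγ : γ ∈ F then graft (σ γ) (c γ) (u.E γ (unrho F σ c x)) (hu γ hγ _)
        else u.E γ (unrho F σ c x))
    else 1 with hE
  have hsupp : Supp (u.A ∪ ↑F) E := by
    constructor
    · intro γ hγ x
      simp only [mem_union, SetLike.mem_coe, not_or] at hγ
      rw [hE]
      simp only
      split_ifs
      · exact absurd ‹_› hγ.2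
      · exact u.A_supp.1 γ hγ.1 _
      · rfl
    · intro γ x v
      have h1 : ∀ᶠ x' in N ((u.A ∪ ↑F) ∩ Iio γ) x,
          ((∀ δ ∈ F, δ < γ → Reg (σ δ) (c δ) (x' δ)) ↔
            (∀ δ ∈ F, δ < γ → Reg (σ δ) (c δ) (x δ))) := by
        have h2 : ∀ᶠ x' in N ((u.A ∪ ↑F) ∩ Iio γ) x, ∀ δ ∈ F.filter (fun δ => δ < γ),
            pre (x' δ) ((σ δ).length + 1) = pre (x δ) ((σ δ).length + 1) := by
          rw [Filter.eventually_all_finset]
          intro δ hδ
          rw [Finset.mem_filter] at hδ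
          exact N_pre x (show δ ∈ (u.A ∪ ↑F) ∩ Iio γ from ⟨Or.inr hδ.1, hδ.2⟩) _
        filter_upwards [h2] with x' h2
        constructor
        · intro h3 δ hδ hδγ
          apply reg_congr _ (h3 δ hδ hδγ)
          have h4 := h2 δ (by rw [Finset.mem_filter]; exact ⟨hδ, hδγ⟩)
          rw [pre_eq_iff] at h4
          exact fun i hi => (h4 i hi).symm
        · intro h3 δ hδ hδγ
          apply reg_congr _ (h3 δ hδ hδγ)
          have h4 := h2 δ (by rw [Finset.mem_filter]; exact ⟨hδ, hδγ⟩)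
          rw [pre_eq_iff] at h4
          exact h4
      have h5 : Tendsto (unrho F σ c) (N ((u.A ∪ ↑F) ∩ Iio γ) x)
          (N ((u.A ∪ ↑F) ∩ Iio γ) (unrho F σ c x)) := by
        apply tendsto_N
        intro δ hδ i
        filter_upwards [N_pre x hδ (i + (σ δ).length + 1)] with x' hx'
        rw [pre_eq_iff] at hx'
        unfold unrho
        split_ifs with h2
        · unfold unsh
          split_ifs with h3
          · rw [hx' _ (by omega)]
          · rw [hx' _ (by omega)]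
        · exact hx' i (by omega)
      have hu' : Supp (u.A ∪ ↑F) u.E := u.A_supp.mono subset_union_left
      have h6 := h5.eventually (hu'.2 γ (unrho F σ c x) v)
      have h7 := h5.eventually (hu'.2 γ (unrho F σ c x) (dec (σ γ) (c γ) v))
      filter_upwards [h1, h6, h7] with x' h1 h6 h7
      show (E γ x').tr v = (E γ x).tr v
      rw [hE]
      simp only [h1]
      split_ifs
      · show (if _ then _ else _) = (if _ then _ else _)
        split_ifs
        · rw [h7]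
        · rfl
      · exact h6
      · rfl
  refine ⟨⟨E, _, u.A_countable.union F.countable_toSet, hsupp⟩, ?_, ?_, ?_⟩
  · intro γ hγ x
    show FixLE n (E γ x)
    rw [hE]
    simp only
    split_ifs
    · exact fixLE_graft n (σ γ) (hσ γ hγ) _ _
    · exact fixLE_one n
  · apply GG.ext_E
    funext γ x
    rw [GG.mul_E, GG.mul_E]
    show E γ ((rg F n σ).act x) * (rg F n σ).E γ x = _
    have h1 : ∀ δ ∈ F, δ < γ → Reg (σ δ) (c δ) ((rg F n σ).act x δ) :=
      fun δ hδ _ => regF_rho F σ c x δ hδ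
    have h2 : unrho F σ c ((rg F n σ).act x) = x := unrho_rho F σ c x
    have h3 : ∀ z, (rg F n σ).E γ z = if γ ∈ F then sh (σ γ) (c γ) else 1 := fun z => rfl
    rw [hE, h3, h3]
    simp only
    rw [if_pos h1]
    by_cases hγ : γ ∈ F
    · rw [dif_pos hγ, if_pos hγ]
      simp only [h2]
      exact graft_mul_sh _ _ _ _
    · rw [dif_neg hγ, if_neg hγ, h2, mul_one, one_mul]
  · intro S hFS hu' γ hγ x
    show E γ x = 1
    rw [hE]
    simp only
    split_ifs with h1 h2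
    · exact absurd (hFS h2) hγ
    · exact hu' γ hγ _
    · rfl

/-- pure at `F` -/
def Pure (F : Finset I) (u : GG I) : Prop := ∀ γ ∈ F, ∀ x, (u.E γ x).tr [] = []

/-- pure decision -/
def KK (S : Set I) (F : Finset I) : Prop :=
  ∀ (V : Type) [Finite V] (Q : V → Set (GG I)), (∀ v, OpenS S (Q v)) →
    (∀ v t, InS S t → LocD S (Q v) t → t ∈ Q v) → DenseS S (⋃ v, Q v) →
      ∃ u, InS S u ∧ Pure F u ∧ ∃ v, u ∈ Q v

/-- reading dense sets below pure extensions -/
def Fus (S : Set I) : Prop :=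
  ∀ D : ℕ → Set (GG I), (∀ n, OpenS S (D n)) → (∀ n, DenseS S (D n)) →
    ∀ F : Finset I, ↑F ⊆ S → ∀ n₀, ∃ t, InS S t ∧ Fix F n₀ t ∧ ∀ n, LocD S (D n) t

/-- deciding on all regions -/
theorem region_decision {S : Set I} {F : Finset I} (hF : ↑F ⊆ S) (hK : KK S F) (n : ℕ)
    {V : Type} [Finite V] (Q : V → Set (GG I)) (hQ : ∀ v, OpenS S (Q v))
    (hQ' : ∀ v t, InS S t → LocD S (Q v) t → t ∈ Q v) (hQd : DenseS S (⋃ v, Q v)) :
    ∃ t, InS S t ∧ Fix F n t ∧ ∀ σ : I → List ℕ, (∀ γ ∈ F, wt (σ γ) ≤ n) →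
      ∃ v, t * rg F n σ ∈ Q v := by
  classical
  have key : ∀ Sg : Finset (I → List ℕ), (∀ σ ∈ Sg, ∀ γ ∈ F, wt (σ γ) ≤ n) →
      ∃ t, InS S t ∧ Fix F n t ∧ ∀ σ ∈ Sg, ∃ v, t * rg F n σ ∈ Q v := by
    intro Sg
    induction Sg using Finset.induction_on with
    | empty => exact fun _ => ⟨1, InS.one, Fix.one, fun σ h => by simp at h⟩
    | insert σ₀ Sg _ ih =>
      intro hSg
      obtain ⟨t, h1, h2, h3⟩ := ih (fun σ hσ => hSg σ (Finset.mem_insert_of_mem hσ))
      have hσ₀ := hSg σ₀ (Finset.mem_insert_self _ _)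
      have hrgS : InS S (rg F n σ₀) := rho_inS _ _ _ hF
      obtain ⟨u, hu1, hu2, v, hu3⟩ := hK V (fun v => {u | t * rg F n σ₀ * u ∈ Q v})
        (fun v p r hp hr h => by
          show t * rg F n σ₀ * (p * r) ∈ Q v
          rw [← mul_assoc]
          exact hQ v _ _ ((h1.mul hrgS).mul hp) hr h)
        (fun v s hs h => by
          apply hQ' v _ ((h1.mul hrgS).mul hs)
          obtain ⟨A, hA1, hA2, hA3⟩ := h
          refine ⟨A, hA1, hA2, fun y => ?_⟩
          obtain ⟨F', hF', n', h4⟩ := hA3 y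
          exact ⟨F', hF', n', by rw [mul_assoc (t * rg F n σ₀)]; exact h4⟩)
        (fun p hp => by
          obtain ⟨r, hr, h4⟩ := hQd _ ((h1.mul hrgS).mul hp)
          refine ⟨r, hr, ?_⟩
          rw [mem_iUnion] at h4 ⊢
          obtain ⟨v, h4⟩ := h4
          exact ⟨v, by show t * rg F n σ₀ * (p * r) ∈ Q v; rw [← mul_assoc]; exact h4⟩)
      obtain ⟨w, hw1, hw2, hw3⟩ := exists_ext F n σ₀ hσ₀ u hu2
      have hwS := hw3 S hF hu1
      refine ⟨t * w, h1.mul hwS, h2.mul hw1, ?_⟩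
      intro σ hσ
      rcases Finset.mem_insert.mp hσ with rfl | hσ
      · refine ⟨v, ?_⟩
        rw [mul_assoc, hw2, ← mul_assoc]
        exact hu3
      · obtain ⟨v, hv⟩ := h3 σ hσ
        refine ⟨v, ?_⟩
        have hreg : ∀ x, RegF F σ (fun γ => n - wt (σ γ)) ((w * rg F n σ).act x) := by
          intro x γ hγ
          rw [GG.mul_act]
          exact reg_of_fix (hw1 γ hγ _) (hSg σ (Finset.mem_insert_of_mem hσ) γ hγ)
            (regF_rho F σ _ x γ hγ)
        have h5 := rho_mul_divG (w * rg F n σ) F σ _ hreg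
        rw [mul_assoc, ← h5, ← mul_assoc]
        exact hQ v _ _ (h1.mul (rho_inS _ _ _ hF))
          (divG_inS _ _ _ _ hreg (hwS.mul (rho_inS _ _ _ hF)) hF) hv
  obtain ⟨t, h1, h2, h3⟩ := key (finite_regions F n).toFinset (fun σ hσ γ hγ => by
    rw [Finite.mem_toFinset] at hσ
    exact hσ.2 γ hγ)
  refine ⟨t, h1, h2, fun σ hσ => ?_⟩
  set τ : I → List ℕ := fun γ => if γ ∈ F then σ γ else [] with hτ
  have h4 : ∀ γ ∈ F, σ γ = τ γ := fun γ hγ => (if_pos hγ).symm
  rw [rg_congr h4]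
  apply h3
  rw [Finite.mem_toFinset]
  exact ⟨fun γ hγ => if_neg hγ, fun γ hγ => by rw [← h4 γ hγ]; exact hσ γ hγ⟩

variable [WellFoundedLT I]

theorem fus_of_KK {S : Set I} (hS : IsLowerSet S) (hK : ∀ F : Finset I, ↑F ⊆ S → KK S F) :
    Fus S := by
  intro D hD hDd F hF n₀
  obtain ⟨Fs, t, T, P, h0, -, -, -, h4, h5, h6, -, h8, h9, h10, h11, h12⟩ :=
    fusion S F hF n₀ (fun k P _ t => LocD S (D k) (P * t)) (by
      intro k P F' hP _ hF'
      obtain ⟨t, h1, h2, h3⟩ := region_decision hF' (hK F' hF') (n₀ + k) (V := Unit)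
        (fun _ => {s | LocD S (D k) (P * s)})
        (fun _ p r hp hr h => by
          show LocD S (D k) (P * (p * r))
          rw [← mul_assoc]
          exact LocD.mul hS (hD k) (hP.mul hp) hr h)
        (fun _ s hs h => by
          apply LocD.locD (hD k) (hP.mul hs)
          obtain ⟨A, hA1, hA2, hA3⟩ := h
          refine ⟨A, hA1, hA2, fun y => ?_⟩
          obtain ⟨F'', hF'', n', h4⟩ := hA3 y
          exact ⟨F'', hF'', n', by
            show LocD S (D k) (P * s * iota F'' n' y)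
            rw [mul_assoc]; exact h4⟩)
        (fun p hp => by
          obtain ⟨r, hr, h4⟩ := hDd k (P * p) (hP.mul hp)
          refine ⟨r, hr, ?_⟩
          rw [mem_iUnion]
          refine ⟨(), ?_⟩
          show LocD S (D k) (P * (p * r))
          rw [← mul_assoc]
          exact LocD.of_mem h4)
      refine ⟨t, h1, h2, ?_⟩
      apply locD_of_regions (hD k) (hP.mul h1) hF'
      intro σ hσ
      obtain ⟨_, h4⟩ := h3 σ hσ
      rw [mul_assoc]
      exact h4)
  refine ⟨T 0, h10 0, ?_, fun k => ?_⟩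
  · have := h11 0
    rw [h0] at this
    exact this
  · rw [← h12 (k + 1), h4]
    exact LocD.mul hS (hD k) ((h5 k).mul (h6 k)) (h10 (k + 1)) (h8 k)

end Pool.Agent.Helper467_LV
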