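import Mathlib
import Pool.Agent.Helper467_LV.Ext

/-!
Gluing along boxes below a coordinate, and branching at a coordinate.
-/

set_option autoImplicit false

namespace Pool.Agent.Helper467_LV

open Set Filter

variable {I : Type} [LinearOrder I]

theorem ins_comm {β : I} {p : GG I} (hp : InS (Iio β) p) (s : List ℕ) :
    ins β s * p = p * ins β s := by
  apply GG.ext_E
  funext γ x
  rw [GG.mul_E, GG.mul_E]
  rcases lt_trichotomy γ β with h | h | h
  · rw [ins_E_ne _ _ _ _ h.ne, ins_E_ne _ _ _ _ h.ne, one_mul, mul_one]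
    apply p.E_congr
    intro δ hδ
    rw [ins_act_ne _ _ _ _ (hδ.trans h).ne]
  · subst h
    rw [ins_E_self, ins_E_self, hp γ (by simp), hp γ (by simp), one_mul, mul_one]
  · rw [ins_E_ne _ _ _ _ h.ne', ins_E_ne _ _ _ _ h.ne', hp γ (by simpa using h.le),
      hp γ (by simpa using h.le)]

/-- action of a glued element on a box -/
theorem glue_act {β : I} {W w : GG I} (hw : InS (Ici β) w) {F : Finset I}
    (hF : ↑F ⊆ Iio β) {n : ℕ} {y : Om I} {z : Om I}
    (hE : ∀ γ, W.E γ ((iota F n y).act z) =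
      w.E γ (unrho F (fun γ => pre (y γ) n) 0 ((iota F n y).act z))) :
    W.act ((iota F n y).act z) = (iota F n y).act (w.act z) := by
  funext γ
  have h1 : unrho F (fun γ => pre (y γ) n) 0 ((iota F n y).act z) = z := unrho_rho _ _ _ _
  rw [h1] at hE
  have hi : InS (Iio β) (iota F n y) := iota_inS F n y hF
  show (W.E γ _).map _ = _
  rw [hE]
  rcases lt_or_ge γ β with h | h
  · rw [hw γ (by simpa using h), LE.map_one]
    apply GG.act_congr
    intro δ hδ
    rw [hw.act (by simpa using hδ.trans_lt h)]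
  · rw [hi.act (by simpa using h), hi.act (by simpa using h)]
    rfl

/-- gluing along boxes below `β` -/
theorem exists_glue {β : I} {A : Set I} (hA : A.Countable) (hAβ : A ⊆ Iio β)
    (G : Finset I → ℕ → Om I → GG I → Prop)
    (hG : ∀ y, ∃ F : Finset I, ↑F ⊆ A ∧ ∃ n w, InS (Ici β) w ∧ G F n y w)
    (hcongr : ∀ F n y y' w, (∀ γ ∈ F, ∀ i, i < n → y' γ i = y γ i) → G F n y w → G F n y' w) :
    ∃ W : GG I, InS (Ici β) W ∧
      (∀ C : I → LE → Prop, (∀ F n y w, InS (Ici β) w → G F n y w → ∀ γ x, C γ (w.E γ x)) →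
        ∀ γ x, C γ (W.E γ x)) ∧
      ∀ y, ∃ (F : Finset I) (n : ℕ) (w : GG I), ↑F ⊆ A ∧ InS (Ici β) w ∧ G F n y w ∧
        ∃ (F' : Finset I) (n' : ℕ) (r : GG I), ↑F' ⊆ A ∧ InS (Iio β) r ∧
          iota F' n' y = iota F n y * r ∧ W * iota F' n' y = iota F n y * (w * r) := by
  classical
  obtain ⟨Fs, ns, xs, idx, h1, h2, h3⟩ := exists_idx hA
    (fun F n y => ∃ w, InS (Ici β) w ∧ G F n y w) (fun y => by
      obtain ⟨F, hF, n, w, hw, hG⟩ := hG y
      exact ⟨F, hF, n, w, hw, hG⟩)
    (fun F n y y' h ⟨w, hw, hG⟩ => ⟨w, hw, hcongr F n y y' w h hG⟩)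
  have h4 : ∀ k, ∃ w, InS (Ici β) w ∧
      ((∃ w, InS (Ici β) w ∧ G (Fs k) (ns k) (xs k) w) → G (Fs k) (ns k) (xs k) w) := by
    intro k
    by_cases hk : ∃ w, InS (Ici β) w ∧ G (Fs k) (ns k) (xs k) w
    · obtain ⟨w, hw, hG⟩ := hk
      exact ⟨w, hw, fun _ => hG⟩
    · exact ⟨1, InS.one, fun h => absurd h hk⟩
  choose w hw1 hw2 using h4
  have h3' : ∀ y, G (Fs (idx y)) (ns (idx y)) (xs (idx y)) (w (idx y)) :=
    fun y => hw2 _ (h3 y).2
  set A' : Set I := A ∪ ⋃ k, (w k).A with hA'
  have hA'c : A'.Countable := hA.union (countable_iUnion (fun k => (w k).A_countable))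
  have hAA' : A ⊆ A' ∩ Iio β := fun γ hγ => ⟨Or.inl hγ, hAβ hγ⟩
  have hwA : ∀ k, Supp A' (w k).E := fun k =>
    (w k).A_supp.mono ((subset_iUnion (fun k => (w k).A) k).trans subset_union_right)
  set φ : ℕ → Om I → Om I := fun k => unrho (Fs k) (fun γ => pre (xs k γ) (ns k)) 0 with hφ
  set W := glueUp β A' hA'c idx (fun x => N_anti hAA' x (h2 x)) φ
    (fun k => lowMap_unrho (Fs k) ((h1 k).trans hAβ) _ _) w hw1 hwA with hW
  have hWE : ∀ γ x, W.E γ x = (w (idx x)).E γ (φ (idx x) x) := fun γ x => rfl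
  refine ⟨W, ?_, ?_, ?_⟩
  · intro γ hγ x
    rw [hWE, hw1 _ γ hγ]
  · intro C hC γ x
    rw [hWE]
    exact hC _ _ _ _ (hw1 (idx x)) (h3' x) γ _
  · intro y
    obtain ⟨F₁, hF₁, n₁, h5⟩ := h2 y
    have hbox := (h3 y).1
    have hic : iota (Fs (idx y)) (ns (idx y)) y = iota (Fs (idx y)) (ns (idx y)) (xs (idx y)) :=
      iota_congr hbox
    refine ⟨Fs (idx y), ns (idx y), w (idx y), h1 _, hw1 _,
      hcongr _ _ _ y _ hbox (h3' y), ?_⟩
    have hag : ∀ x, ∀ γ ∈ Fs (idx y), ∀ i, i < ns (idx y) →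
        (iota (F₁ ∪ Fs (idx y)) (max n₁ (ns (idx y))) y).act x γ i = y γ i := fun x γ hγ i hi =>
      iota_agree _ _ y x γ (Finset.mem_union_right _ hγ) i (lt_max_of_lt_right hi)
    obtain ⟨r, hr1, hr2, -⟩ := factor hag
    have hF' : ↑(F₁ ∪ Fs (idx y)) ⊆ A := by
      rw [Finset.coe_union]; exact union_subset hF₁ (h1 _)
    have hrβ : InS (Iio β) r := hr2 _ (iota_inS _ _ _ (hF'.trans hAβ)) ((h1 _).trans hAβ)
    refine ⟨F₁ ∪ Fs (idx y), max n₁ (ns (idx y)), r, hF', hrβ, hr1, ?_⟩
    apply GG.ext_act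
    intro x
    rw [GG.mul_act, GG.mul_act, GG.mul_act]
    have hx : idx ((iota (Fs (idx y)) (ns (idx y)) y).act (r.act x)) = idx y := by
      rw [← GG.mul_act, ← hr1]
      apply h5
      intro γ hγ i hi
      exact iota_agree _ _ y x γ (Finset.mem_union_left _ hγ) i (lt_max_of_lt_left hi)
    rw [hr1, GG.mul_act]
    apply glue_act (hw1 (idx y)) ((h1 _).trans hAβ)
    intro γ
    rw [hWE, hx]
    have h6 : φ (idx y) = unrho (Fs (idx y)) (fun γ => pre (y γ) (ns (idx y))) 0 := by
      have h7 : ∀ γ ∈ Fs (idx y), pre (y γ) (ns (idx y)) = pre (xs (idx y) γ) (ns (idx y)) :=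
        fun γ hγ => (pre_eq_iff _ _ _).mpr (hbox γ hγ)
      rw [hφ]
      funext z δ
      simp only [unrho]
      split_ifs with h8
      · rw [h7 δ h8]
      · rfl
    rw [h6]

/-- removing the first entry at `β` -/
def shf (β : I) : Om I → Om I := unrho {β} (fun _ => [0]) 0

theorem shf_ins (β : I) (k : ℕ) (x : Om I) : shf β ((ins β [k]).act x) = x := by
  have h1 : shf β ((ins β [k]).act x) = unrho {β} (fun _ => [k]) 0 ((ins β [k]).act x) := by
    funext γ
    unfold shf unrho unsh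
    simp
  rw [h1]
  exact unrho_rho _ _ _ _

theorem shf_ne {β γ : I} (h : γ ≠ β) (x : Om I) : shf β x γ = x γ := by
  unfold shf unrho
  simp [h]

theorem shf_self (β : I) (x : Om I) (i : ℕ) : shf β x β i = x β (i + 1) := by
  unfold shf unrho unsh
  simp only [Finset.mem_singleton, if_true]
  split_ifs with h
  · subst h; simp
  · simp

theorem tendsto_shf {β : I} {B : Set I} (x : Om I) :
    Tendsto (shf β) (N B x) (N B (shf β x)) := by
  apply tendsto_N
  intro δ hδ i
  by_cases h : δ = β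
  · subst h
    simp only [shf_self]
    exact N_coord x hδ (i + 1)
  · simp only [shf_ne h]
    exact N_coord x hδ i

/-- branching at `β` -/
theorem exists_branch {β : I} {A : Set I} (hA : A.Countable) (hβA : β ∈ A) (m : ℕ → Om I → ℕ)
    (hm : ∀ k x, ∀ᶠ x' in N (A ∩ Iio β) x, m k x' = m k x)
    (hmono : ∀ x, StrictMono (fun k => m k x)) (U : ℕ → GG I) (hU : ∀ k, InS (Ici β) (U k))
    (hUA : ∀ k, Supp A (U k).E) (hpure : ∀ k x, ((U k).E β x).tr [] = []) :
    ∃ W : GG I, InS (Ici β) W ∧ Supp A W.E ∧ (∀ x, (W.E β x).tr [] = []) ∧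
      (∀ k v x, (W.E β x).tr (k :: v) = m k x :: ((U k).E β x).tr v) ∧
      (∀ γ, β < γ → ∀ x, W.E γ x = (U (x β 0)).E γ (shf β x)) ∧
      ∀ k x, W.act ((ins β [k]).act x) = (ins β [m k x]).act ((U k).act x) := by
  classical
  set b : Om I → LE := fun x =>
    { tr := fun l => match l with
        | [] => []
        | k :: v => m k x :: ((U k).E β x).tr v
      spec := by
        intro l
        cases l with
        | nil =>
          refine ⟨fun k => m k x, hmono x, fun k => ?_⟩
          simp only [List.nil_append]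
          rw [hpure]
        | cons k v =>
          obtain ⟨j, hj, hj'⟩ := ((U k).E β x).spec v
          exact ⟨j, hj, fun a => by simp [hj']⟩ } with hb
  set E : I → Om I → LE := fun γ x =>
    if γ < β then 1 else if γ = β then b x else (U (x β 0)).E γ (shf β x) with hE
  have hElt : ∀ γ, γ < β → ∀ x, E γ x = 1 := fun γ h x => if_pos h
  have hEeq : ∀ x, E β x = b x := fun x => by
    rw [hE]; simp only; rw [if_neg (lt_irrefl _)]; simp
  have hEgt : ∀ γ, β < γ → ∀ x, E γ x = (U (x β 0)).E γ (shf β x) := fun γ h x => by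
    rw [hE]; simp only; rw [if_neg (not_lt.mpr h.le), if_neg h.ne']
  have hS : Supp A E := by
    constructor
    · intro γ hγ x
      rcases lt_trichotomy γ β with h | h | h
      · exact hElt γ h x
      · subst h; exact absurd hβA hγ
      · rw [hEgt γ h, (hUA _).1 γ hγ]
    · intro γ x u
      rcases lt_trichotomy γ β with h | h | h
      · simp only [hElt γ h]
        exact Filter.Eventually.of_forall (fun _ => trivial)
      · subst h
        simp only [hEeq]
        cases u with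
        | nil => exact Filter.Eventually.of_forall (fun _ => rfl)
        | cons k v =>
          filter_upwards [hm k x, (hUA k).2 γ x v] with x' h1 h2
          show m k x' :: _ = m k x :: _
          rw [h1, h2]
      · simp only [hEgt γ h]
        filter_upwards [N_coord x (show β ∈ A ∩ Iio γ from ⟨hβA, h⟩) 0,
          (tendsto_shf x).eventually ((hUA (x β 0)).2 γ (shf β x) u)] with x' h1 h2
        rw [h1, h2]
  have hWβ : ∀ k v x, ((⟨E, A, hA, hS⟩ : GG I).E β x).tr (k :: v) =
      m k x :: ((U k).E β x).tr v := fun k v x => by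
    show (E β x).tr _ = _
    rw [hEeq]
  refine ⟨⟨E, A, hA, hS⟩, fun γ hγ x => hElt γ (by simpa using hγ) x, hS, fun x => ?_, hWβ,
    hEgt, ?_⟩
  · show (E β x).tr [] = []
    rw [hEeq]
  · intro k x
    funext γ
    have hmk : m k ((ins β [k]).act x) = m k x :=
      N_of_agree (hm k x) (fun γ hγ => ins_act_ne β [k] x γ (ne_of_lt hγ.2))
    rcases lt_trichotomy γ β with h | h | h
    · show (E γ _).map _ = _
      rw [hElt γ h, LE.map_one, ins_act_ne _ _ _ _ h.ne, ins_act_ne _ _ _ _ h.ne,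
        (hU k).act (by simpa using h)]
    · subst h
      show (E γ _).map _ = _
      rw [ins_act_self, ins_act_self]
      show _ = (sh [m k x] 0).map (((U k).E γ x).map (x γ))
      rw [← LE.map_mul, ← LE.map_mul]
      apply LE.map_congr
      intro n
      rw [LE.mul_tr, LE.mul_tr, sh_zero_tr, sh_zero_tr, hEeq]
      show m k _ :: _ = _
      have h2 : (U k).E γ ((ins γ [k]).act x) = (U k).E γ x :=
        (U k).E_congr (fun δ hδ => ins_act_ne _ _ _ _ hδ.ne)
      rw [hmk, h2]
      rfl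
    · show (E γ _).map _ = _
      rw [hEgt γ h, ins_act_ne _ _ _ _ h.ne', ins_act_ne _ _ _ _ h.ne', shf_ins]
      have h3 : (ins β [k]).act x β 0 = k := by
        have h4 := (regF_rho {β} (fun _ => [k]) 0 x β (by simp)).1
        have h5 := apply_of_pre (u := []) (v := []) (a := k) h4
        exact h5
      rw [h3]
      rfl

end Pool.Agent.Helper467_LV
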