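import Mathlib
import Pool.Agent.Helper467_LV.Glue

/-!
Pure decision.
-/

set_option autoImplicit false

namespace Pool.Agent.Helper467_LV

open Set Filter

variable {I : Type} [LinearOrder I]

/-- the part below `β` forces that the sequence `s` at `β` has a pure extension in `Q` -/
def Gd (S : Set I) (β : I) (Q : Set (GG I)) (s : List ℕ) : Set (GG I) :=
  {p | ∃ w, InS S w ∧ InS (Ici β) w ∧ Pure {β} w ∧ p * ins β s * w ∈ Q}

theorem Iio_sub {S : Set I} (hS : IsLowerSet S) {β : I} (hβ : β ∈ S) : Iio β ⊆ S :=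
  fun _ hγ => hS (le_of_lt (mem_Iio.mp hγ)) hβ

theorem Gd_open {S : Set I} (hS : IsLowerSet S) {β : I} (hβ : β ∈ S) {Q : Set (GG I)}
    (hQ : OpenS S Q) (s : List ℕ) : OpenS (Iio β) (Gd S β Q s) := by
  rintro p r hp hr ⟨w, hw1, hw2, hw3, hw4⟩
  obtain ⟨w', h1, h2⟩ := exists_comm hw2 hr
  refine ⟨w', ?_, ?_, ?_, ?_⟩
  · intro γ hγ x
    rw [h1, hw1 γ hγ]
  · intro γ hγ x
    rw [h1, hw2 γ hγ]
  · intro γ hγ x
    rw [h1]
    exact hw3 γ hγ _
  · have : p * r * ins β s * w' = p * ins β s * w * r := by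
      rw [mul_assoc p r, ← ins_comm hr, ← mul_assoc p, mul_assoc (p * ins β s), ← h2, mul_assoc,
        mul_assoc, mul_assoc]
    rw [this]
    exact hQ _ _ (((hp.mono (Iio_sub hS hβ)).mul (ins_inS β s hβ)).mul hw1)
      (hr.mono (Iio_sub hS hβ)) hw4

theorem Gd_glue {S : Set I} (hS : IsLowerSet S) {β : I} (hβ : β ∈ S) {Q : Set (GG I)}
    (hQ : OpenS S Q) (hQ' : ∀ t, InS S t → LocD S Q t → t ∈ Q) (s : List ℕ) (t : GG I)
    (ht : InS (Iio β) t) (h : LocD (Iio β) (Gd S β Q s) t) : t ∈ Gd S β Q s := by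
  obtain ⟨A, hA, hAβ, h⟩ := h
  obtain ⟨W, hW1, hW2, hW3⟩ := exists_glue hA hAβ
    (fun F n y w => InS S w ∧ Pure {β} w ∧ t * iota F n y * ins β s * w ∈ Q)
    (fun y => by
      obtain ⟨F, hF, n, w, h1, h2, h3, h4⟩ := h y
      exact ⟨F, hF, n, w, h2, h1, h3, h4⟩)
    (fun F n y y' w hag ⟨h1, h2, h3⟩ => ⟨h1, h2, by rw [iota_congr hag]; exact h3⟩)
  have hWS : InS S W := by
    have := hW2 (fun γ e => γ ∉ S → e = 1) (fun F n y w _ h γ x hγ => h.1 γ hγ x)
    exact fun γ hγ x => this γ x hγ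
  refine ⟨W, hWS, hW1, ?_, ?_⟩
  · have := hW2 (fun γ e => γ ∈ ({β} : Finset I) → e.tr [] = [])
      (fun F n y w _ h γ x hγ => h.2.1 γ hγ x)
    exact fun γ hγ x => this γ x hγ
  · apply hQ' _ (((ht.mono (Iio_sub hS hβ)).mul (ins_inS β s hβ)).mul hWS)
    refine ⟨A, hA, hAβ.trans (Iio_sub hS hβ), fun y => ?_⟩
    obtain ⟨F, n, w, hF, hw, ⟨hwS, -, hwQ⟩, F', n', r, hF', hr, h1, h2⟩ := hW3 y
    refine ⟨F', hF', n', ?_⟩
    have hi : InS (Iio β) (iota F n y) := iota_inS F n y (hF.trans hAβ)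
    have : t * ins β s * W * iota F' n' y = t * iota F n y * ins β s * w * r := by
      calc t * ins β s * W * iota F' n' y = t * (ins β s * iota F n y) * (w * r) := by
            rw [mul_assoc (t * ins β s), h2]; simp only [mul_assoc]
        _ = _ := by rw [ins_comm hi]; simp only [mul_assoc]
    rw [this]
    exact hQ _ _ ((((ht.mono (Iio_sub hS hβ)).mul (hi.mono (Iio_sub hS hβ))).mul
      (ins_inS β s hβ)).mul hwS) (hr.mono (Iio_sub hS hβ)) hwQ

/-- gluing along branches at `β` -/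
theorem Gd_branch {S : Set I} (hS : IsLowerSet S) {β : I} (hβ : β ∈ S) {Q : Set (GG I)}
    (hQ : OpenS S Q) (hQ' : ∀ t, InS S t → LocD S Q t → t ∈ Q) (s : List ℕ) (t : GG I)
    (ht : InS (Iio β) t)
    (h : ∀ k, LocD (Iio β) {r | ∃ m, k ≤ m ∧ r ∈ Gd S β Q (s ++ [m])} t) : t ∈ Gd S β Q s := by
  classical
  choose A₀ hA₀ hA₀β h using h
  set A : Set I := ⋃ k, A₀ k with hAdef
  have hA : A.Countable := countable_iUnion hA₀
  have hAβ : A ⊆ Iio β := iUnion_subset hA₀β
  obtain ⟨Fs, ns, xs, hFs, hcov⟩ := exists_boxes hA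
  -- the predicate on codes
  set P : ℕ → Om I → ℕ → Prop := fun k y c => k ≤ c.unpair.2 ∧
    (∀ γ ∈ Fs c.unpair.1, ∀ i, i < ns c.unpair.1 → y γ i = xs c.unpair.1 γ i) ∧
    t * iota (Fs c.unpair.1) (ns c.unpair.1) (xs c.unpair.1) ∈ Gd S β Q (s ++ [c.unpair.2]) with hP
  have hex : ∀ k y, ∃ c, P k y c := by
    intro k y
    obtain ⟨F, hF, n, m, hkm, hG⟩ := h k y
    obtain ⟨i, hi1, hi2, hi3⟩ := hcov y F n (hF.trans (subset_iUnion A₀ k))
    subst hi1
    subst hi2
    refine ⟨Nat.pair i m, ?_⟩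
    rw [hP]
    simp only [Nat.unpair_pair]
    exact ⟨hkm, hi3, by rw [← iota_congr hi3]; exact hG⟩
  have hnext : ∀ f : {f : Om I → ℕ // ∀ x, ∀ᶠ x' in N A x, f x' = f x},
      ∃ g : {f : Om I → ℕ // ∀ x, ∀ᶠ x' in N A x, f x' = f x}, ∀ y, P (f.1 y) y (g.1 y) := by
    intro f
    obtain ⟨g, hg1, hg2⟩ := exists_least (A := A) (fun c y => P (f.1 y) y c) (by
      intro c x
      filter_upwards [f.2 x, box_eventually (Fs c.unpair.1) (hFs _) (ns c.unpair.1)
        (xs c.unpair.1) x] with x' h1 h2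
      rw [hP]
      simp only
      rw [h1, h2]) (fun y => hex (f.1 y) y)
    exact ⟨⟨g, hg1⟩, hg2⟩
  choose nxt hnxt using hnext
  set succ2 : {f : Om I → ℕ // ∀ x, ∀ᶠ x' in N A x, f x' = f x} →
      {f : Om I → ℕ // ∀ x, ∀ᶠ x' in N A x, f x' = f x} := fun g =>
    ⟨fun y => (g.1 y).unpair.2 + 1, fun x => by
      filter_upwards [g.2 x] with x' h1
      rw [h1]⟩ with hsucc2
  set cs : ℕ → {f : Om I → ℕ // ∀ x, ∀ᶠ x' in N A x, f x' = f x} := fun k =>
    Nat.rec (nxt ⟨fun _ => 0, fun x => Filter.Eventually.of_forall (fun _ => rfl)⟩)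
      (fun _ g => nxt (succ2 g)) k with hcs
  have hcs1 : ∀ k, cs (k + 1) = nxt (succ2 (cs k)) := fun _ => rfl
  set m : ℕ → Om I → ℕ := fun k y => ((cs k).1 y).unpair.2 with hm
  have hPk : ∀ k y, ∃ l, P l y ((cs k).1 y) := by
    intro k y
    cases k with
    | zero => exact ⟨_, hnxt _ y⟩
    | succ k => rw [hcs1]; exact ⟨_, hnxt _ y⟩
  have hmono : ∀ y, StrictMono (fun k => m k y) := by
    intro y
    apply strictMono_nat_of_lt_succ
    intro k
    have h1 := (hnxt (succ2 (cs k)) y).1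
    rw [← hcs1] at h1
    simp only [hsucc2] at h1
    exact h1
  -- the elements
  have hu : ∀ c : ℕ, ∃ w, InS S w ∧ InS (Ici β) w ∧ Pure {β} w ∧
      (t * iota (Fs c.unpair.1) (ns c.unpair.1) (xs c.unpair.1) ∈ Gd S β Q (s ++ [c.unpair.2]) →
        t * iota (Fs c.unpair.1) (ns c.unpair.1) (xs c.unpair.1) * ins β (s ++ [c.unpair.2]) * w
          ∈ Q) := by
    intro c
    by_cases hc : t * iota (Fs c.unpair.1) (ns c.unpair.1) (xs c.unpair.1) ∈
      Gd S β Q (s ++ [c.unpair.2])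
    · obtain ⟨w, h1, h2, h3, h4⟩ := id hc
      exact ⟨w, h1, h2, h3, fun _ => h4⟩
    · exact ⟨1, InS.one, InS.one, fun γ _ x => rfl, fun h => absurd h hc⟩
  choose u hu1 hu2 hu3 hu4 using hu
  set A' : Set I := (A ∪ {β}) ∪ ⋃ c, (u c).A with hA'
  have hA'c : A'.Countable :=
    (hA.union (countable_singleton β)).union (countable_iUnion (fun c => (u c).A_countable))
  have hβA' : β ∈ A' := Or.inl (Or.inr rfl)
  have hAA' : A ⊆ A' ∩ Iio β := fun γ hγ => ⟨Or.inl (Or.inl hγ), hAβ hγ⟩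
  have huA : ∀ c, Supp A' (u c).E := fun c =>
    (u c).A_supp.mono ((subset_iUnion (fun c => (u c).A) c).trans subset_union_right)
  set φ : ℕ → Om I → Om I := fun c => unrho (Fs c.unpair.1)
    (fun γ => pre (xs c.unpair.1 γ) (ns c.unpair.1)) 0 with hφ
  have hφl : ∀ c, LowMap β A' (φ c) :=
    fun c => lowMap_unrho (Fs c.unpair.1) ((hFs _).trans hAβ) _ _
  have hidx : ∀ k x, ∀ᶠ x' in N (A' ∩ Iio β) x, (cs k).1 x' = (cs k).1 x :=
    fun k x => N_anti hAA' x ((cs k).2 x)
  set U : ℕ → GG I := fun k => glueUp β A' hA'c (cs k).1 (hidx k) φ hφl u hu2 huA with hU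
  have hUE : ∀ k γ x, (U k).E γ x = (u ((cs k).1 x)).E γ (φ ((cs k).1 x) x) :=
    fun k γ x => rfl
  have hUA : ∀ k, Supp A' (U k).E := by
    intro k
    constructor
    · intro γ hγ x
      rw [hUE, (huA _).1 γ hγ]
    · intro γ x v
      rcases lt_or_ge γ β with h1 | h1
      · simp only [hUE, hu2 _ γ (by simpa using h1)]
        exact Filter.Eventually.of_forall (fun _ => trivial)
      · have h2 := N_anti (inter_subset_inter_right A' (Iio_subset_Iio h1)) x (hidx k x)
        have h3 := ((hφl ((cs k).1 x)).tendsto h1 x).eventually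
          ((huA ((cs k).1 x)).2 γ (φ ((cs k).1 x) x) v)
        filter_upwards [h2, h3] with x' h2 h3
        rw [hUE, hUE, h2, h3]
  obtain ⟨W, hW1, hW2, hW3, hW4, hW5, hW6⟩ := exists_branch hA'c hβA' m
    (fun k x => by
      filter_upwards [hidx k x] with x' h1
      simp only [hm, h1]) hmono U
    (fun k γ hγ x => by rw [hUE, hu2 _ γ hγ]) hUA
    (fun k x => by rw [hUE]; exact hu3 _ β (by simp) _)
  have hWS : InS S W := by
    intro γ hγ x
    rcases lt_trichotomy γ β with h1 | h1 | h1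
    · exact hW1 γ (by simpa using h1) x
    · subst h1; exact absurd hβ hγ
    · rw [hW5 γ h1, hUE, hu1 _ γ hγ]
  refine ⟨W, hWS, hW1, ?_, ?_⟩
  · intro γ hγ x
    rw [Finset.mem_singleton] at hγ
    subst hγ
    exact hW3 x
  · apply hQ' _ (((ht.mono (Iio_sub hS hβ)).mul (ins_inS β s hβ)).mul hWS)
    have hISub := Iio_sub hS hβ
    refine ⟨A ∪ {β}, hA.union (countable_singleton β), union_subset (hAβ.trans hISub)
      (singleton_subset_iff.mpr hβ), fun y => ?_⟩
    set k := y β 0 with hk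
    set c := (cs k).1 y with hc
    obtain ⟨l, -, hbox, hgood⟩ := hPk k y
    obtain ⟨F₁, hF₁, n₁, hconst⟩ := (cs k).2 y
    set F := F₁ ∪ Fs c.unpair.1 ∪ {β} with hF
    set n := max (max n₁ (ns c.unpair.1)) 1 with hn
    have hag := iota_agree F n y
    have hFA : ↑F ⊆ A ∪ {β} := by
      rw [hF, Finset.coe_union, Finset.coe_union, Finset.coe_singleton]
      exact union_subset_union (union_subset hF₁ (hFs _)) le_rfl
    refine ⟨F, hFA, n, ?_⟩
    have hFS : ↑F ⊆ S := hFA.trans (union_subset (hAβ.trans hISub) (singleton_subset_iff.mpr hβ))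
    -- factor
    have hreg1 : ∀ x, RegF {β} (fun _ => [k]) 0 ((iota F n y).act x) := by
      intro x γ hγ
      rw [Finset.mem_singleton] at hγ
      subst hγ
      refine ⟨?_, Nat.zero_le _⟩
      have h1 := hag x γ (by rw [hF]; simp) 0 (by omega)
      simp [pre, h1, hk]
    have hr1 := rho_mul_divG (iota F n y) {β} (fun _ => [k]) 0 hreg1
    set r₁ := divG (iota F n y) {β} (fun _ => [k]) 0 hreg1 with hr1def
    have hr1S : InS S r₁ := divG_inS _ _ _ _ _ (iota_inS _ _ _ hFS) (by simpa using hβ)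
    have hr1' : ins β [k] * r₁ = iota F n y := hr1
    have hreg2 : ∀ x, ∀ γ ∈ Fs c.unpair.1, ∀ i, i < ns c.unpair.1 →
        r₁.act x γ i = xs c.unpair.1 γ i := by
      intro x γ hγ i hi
      have h1 := hag x γ (by rw [hF]; simp [hγ]) i (by omega)
      have hne : γ ≠ β := ne_of_lt (hAβ (hFs _ hγ))
      rw [← hr1', GG.mul_act, ins_act_ne _ _ _ _ hne] at h1
      rw [h1]
      exact hbox γ hγ i hi
    obtain ⟨r₂, hr2, hr2S, -⟩ := factor hreg2
    have hr2S' : InS S r₂ := hr2S S hr1S ((hFs _).trans (hAβ.trans hISub))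
    have hiI : InS (Iio β) (iota (Fs c.unpair.1) (ns c.unpair.1) (xs c.unpair.1)) :=
      iota_inS _ _ _ ((hFs _).trans hAβ)
    have hmain : W * iota F n y = ins β [c.unpair.2] *
        (iota (Fs c.unpair.1) (ns c.unpair.1) (xs c.unpair.1) * (u c * r₂)) := by
      apply GG.ext_act
      intro x
      rw [← hr1', GG.mul_act, GG.mul_act, hW6, GG.mul_act, GG.mul_act, GG.mul_act]
      have hcx : (cs k).1 (r₁.act x) = c := by
        have h1 : (cs k).1 ((iota F n y).act x) = c := by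
          apply hconst
          intro γ hγ i hi
          exact hag x γ (by rw [hF]; simp [hγ]) i (by omega)
        rw [← h1]
        have h2 : ∀ᶠ x' in N A (r₁.act x), (cs k).1 x' = (cs k).1 (r₁.act x) := (cs k).2 _
        symm
        apply N_of_agree h2
        intro γ hγ
        rw [← hr1', GG.mul_act, ins_act_ne _ _ _ _ (ne_of_lt (hAβ hγ))]
      have hmx : m k (r₁.act x) = c.unpair.2 := by
        simp only [hm, hcx]
      rw [hmx]
      congr 1
      rw [hr2, GG.mul_act]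
      apply glue_act (hu2 c) ((hFs _).trans hAβ)
      intro γ
      have hcx' : (cs k).1 ((iota (Fs c.unpair.1) (ns c.unpair.1) (xs c.unpair.1)).act
          (r₂.act x)) = c := by
        rw [← GG.mul_act, ← hr2]; exact hcx
      rw [hUE, hcx']
    have : t * ins β s * W * iota F n y = t *
        iota (Fs c.unpair.1) (ns c.unpair.1) (xs c.unpair.1) * ins β (s ++ [c.unpair.2]) * u c *
          r₂ := by
      rw [mul_assoc (t * ins β s), hmain, ← ins_mul_ins]
      have h1 := ins_comm hiI [c.unpair.2]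
      have h2 := ins_comm hiI s
      calc t * ins β s * (ins β [c.unpair.2] *
            (iota (Fs c.unpair.1) (ns c.unpair.1) (xs c.unpair.1) * (u c * r₂)))
          = t * ins β s * (ins β [c.unpair.2] *
            iota (Fs c.unpair.1) (ns c.unpair.1) (xs c.unpair.1)) * (u c * r₂) := by
            simp only [mul_assoc]
        _ = t * (ins β s * iota (Fs c.unpair.1) (ns c.unpair.1) (xs c.unpair.1)) *
            ins β [c.unpair.2] * (u c * r₂) := by
            rw [h1]; simp only [mul_assoc]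
        _ = _ := by rw [h2]; simp only [mul_assoc]
    rw [this]
    exact hQ _ _ ((((ht.mono hISub).mul (hiI.mono hISub)).mul (ins_inS β _ hβ)).mul (hu1 c))
      hr2S' (hu4 c hgood)

/-- `s` at `β` cannot be made good below `p` -/
def Bd (S : Set I) (β : I) {V : Type} (Q : V → Set (GG I)) (s : List ℕ) (p : GG I) : Prop :=
  ∀ r, InS (Iio β) r → ∀ v, p * r ∉ Gd S β (Q v) s

theorem Bd.mul {S : Set I} {β : I} {V : Type} {Q : V → Set (GG I)} {s : List ℕ} {p r : GG I}
    (h : Bd S β Q s p) (hr : InS (Iio β) r) : Bd S β Q s (p * r) := by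
  intro r' hr' v
  rw [mul_assoc]
  exact h _ (hr.mul hr') v

/-- the dense sets deciding whether `s` is good -/
def Ds (S : Set I) (β : I) {V : Type} (Q : V → Set (GG I)) (s : List ℕ) : Set (GG I) :=
  {p | (∃ v, p ∈ Gd S β (Q v) s) ∨
    (Bd S β Q s p ∧ ∃ k, ∀ m, k ≤ m → Bd S β Q (s ++ [m]) p)}

theorem Ds_open {S : Set I} (hS : IsLowerSet S) {β : I} (hβ : β ∈ S) {V : Type}
    {Q : V → Set (GG I)} (hQ : ∀ v, OpenS S (Q v)) (s : List ℕ) :
    OpenS (Iio β) (Ds S β Q s) := by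
  rintro p r hp hr (⟨v, h⟩ | ⟨h1, k, h2⟩)
  · exact Or.inl ⟨v, Gd_open hS hβ (hQ v) s p r hp hr h⟩
  · exact Or.inr ⟨h1.mul hr, k, fun m hm => (h2 m hm).mul hr⟩

theorem Ds_dense {S : Set I} (hS : IsLowerSet S) {β : I} (hβ : β ∈ S) (hF : Fus (Iio β))
    {V : Type} [Finite V] {Q : V → Set (GG I)} (hQ : ∀ v, OpenS S (Q v))
    (hQ' : ∀ v t, InS S t → LocD S (Q v) t → t ∈ Q v) (s : List ℕ) :
    DenseS (Iio β) (Ds S β Q s) := by
  classical
  intro p hp
  by_contra hcon
  push Not at hcon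
  have h1 : ∀ r, InS (Iio β) r → Bd S β Q s (p * r) := by
    intro r hr r' hr' v h
    rw [mul_assoc] at h
    exact hcon _ (hr.mul hr') (Or.inl ⟨v, h⟩)
  have h2 : ∀ r, InS (Iio β) r → ∀ k, ∃ m, k ≤ m ∧ ∃ r', InS (Iio β) r' ∧
      ∃ v, p * r * r' ∈ Gd S β (Q v) (s ++ [m]) := by
    intro r hr k
    by_contra h3
    push Not at h3
    exact hcon r hr (Or.inr ⟨h1 r hr, k, fun m hm r' hr' v => h3 m hm r' hr' v⟩)
  have h3 : ∃ v r₀, InS (Iio β) r₀ ∧ ∀ r, InS (Iio β) r → ∀ k, ∃ m, k ≤ m ∧ ∃ r',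
      InS (Iio β) r' ∧ p * r₀ * r * r' ∈ Gd S β (Q v) (s ++ [m]) := by
    by_contra h4
    push Not at h4
    have key : ∀ T : Finset V, ∃ r, InS (Iio β) r ∧ ∃ k, ∀ v ∈ T, ∀ m, k ≤ m → ∀ r',
        InS (Iio β) r' → p * r * r' ∉ Gd S β (Q v) (s ++ [m]) := by
      intro T
      induction T using Finset.induction_on with
      | empty => exact ⟨1, InS.one, 0, fun v hv => by simp at hv⟩
      | insert v T _ ih =>
        obtain ⟨r, hr, k, h5⟩ := ih
        obtain ⟨r₁, hr₁, k₁, h6⟩ := h4 v r hr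
        refine ⟨r * r₁, hr.mul hr₁, max k k₁, ?_⟩
        intro v' hv' m hm r' hr'
        rw [← mul_assoc]
        rcases Finset.mem_insert.mp hv' with rfl | hv'
        · exact h6 m (le_trans (le_max_right _ _) hm) r' hr'
        · have := h5 v' hv' m (le_trans (le_max_left _ _) hm) (r₁ * r') (hr₁.mul hr')
          rw [← mul_assoc] at this
          exact this
    have := Fintype.ofFinite V
    obtain ⟨r, hr, k, h5⟩ := key Finset.univ
    obtain ⟨m, hm, r', hr', v, h6⟩ := h2 r hr k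
    exact h5 v (Finset.mem_univ _) m hm r' hr' h6
  obtain ⟨v, r₀, hr₀, h4⟩ := h3
  have hG := fun m => Gd_open hS hβ (hQ v) (s ++ [m])
  obtain ⟨t, ht, -, h5⟩ := hF (fun k => {r | ∃ m, k ≤ m ∧ p * r₀ * r ∈ Gd S β (Q v) (s ++ [m])})
    (fun k a b ha hb ⟨m, hm, h⟩ => ⟨m, hm, by
      rw [← mul_assoc]; exact hG m _ _ ((hp.mul hr₀).mul ha) hb h⟩)
    (fun k a ha => by
      obtain ⟨m, hm, r', hr', h⟩ := h4 a ha k
      exact ⟨r', hr', m, hm, by rw [← mul_assoc]; exact h⟩) ∅ (by simp) 0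
  have h6 : p * r₀ * t ∈ Gd S β (Q v) s := by
    apply Gd_branch hS hβ (hQ v) (hQ' v) s _ ((hp.mul hr₀).mul ht)
    intro k
    obtain ⟨A, hA, hAβ, h7⟩ := h5 k
    refine ⟨A, hA, hAβ, fun y => ?_⟩
    obtain ⟨F, hFA, n, m, hm, h8⟩ := h7 y
    exact ⟨F, hFA, n, m, hm, by rw [mul_assoc (p * r₀)]; exact h8⟩
  rw [mul_assoc] at h6
  exact hcon _ (hr₀.mul ht) (Or.inl ⟨v, h6⟩)

/-- the pure decision property, by induction on the largest coordinate of the finite set -/
theorem KK_step {S : Set I} (hS : IsLowerSet S) {β : I} (hβ : β ∈ S) {F' : Finset I}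
    (hF' : ∀ γ ∈ F', γ < β) (hFus : Fus (Iio β)) (hKK : KK (Iio β) F') :
    KK S (insert β F') := by
  classical
  intro V _ Q hQ hQ' hQd
  have hISub := Iio_sub hS hβ
  by_cases hden : DenseS (Iio β) (⋃ v, Gd S β (Q v) [])
  · obtain ⟨p, hp1, hp2, v, w, hw1, hw2, hw3, hw4⟩ := hKK V (fun v => Gd S β (Q v) [])
      (fun v => Gd_open hS hβ (hQ v) []) (fun v t ht => Gd_glue hS hβ (hQ v) (hQ' v) [] t ht) hden
    rw [ins_nil, mul_one] at hw4
    refine ⟨p * w, (hp1.mono hISub).mul hw1, ?_, v, hw4⟩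
    intro γ hγ x
    rw [GG.mul_E, LE.mul_tr]
    rcases Finset.mem_insert.mp hγ with rfl | hγ
    · rw [hw3 γ (by simp), hp1 γ (by simp)]
      rfl
    · rw [hw2 γ (by simpa using hF' γ hγ)]
      exact hp2 γ hγ _
  · exfalso
    unfold DenseS at hden
    push Not at hden
    obtain ⟨p₀, hp₀, hbad⟩ := hden
    have hbad' : ∀ r, InS (Iio β) r → ∀ v, p₀ * r ∉ Gd S β (Q v) [] :=
      fun r hr v h => hbad r hr (mem_iUnion.mpr ⟨v, h⟩)
    set dcd : ℕ → List ℕ := fun j => (Encodable.decode (α := List ℕ) j).getD [] with hdcd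
    have hdcd' : ∀ s : List ℕ, dcd (Encodable.encode s) = s := fun s => by
      rw [hdcd]; simp
    obtain ⟨t, ht, -, h5⟩ := hFus (fun j => {r | p₀ * r ∈ Ds S β Q (dcd j)})
      (fun j a b ha hb h => by
        show p₀ * (a * b) ∈ Ds S β Q (dcd j)
        rw [← mul_assoc]
        exact Ds_open hS hβ hQ _ _ _ (hp₀.mul ha) hb h)
      (fun j a ha => by
        obtain ⟨r, hr, h⟩ := Ds_dense hS hβ hFus hQ hQ' (dcd j) (p₀ * a) (hp₀.mul ha)
        exact ⟨r, hr, by show p₀ * (a * r) ∈ Ds S β Q (dcd j); rw [← mul_assoc]; exact h⟩)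
      ∅ (by simp) 0
    choose A₀ hA₀ hA₀β h5 using h5
    set A : Set I := ⋃ k, A₀ k with hAdef
    have hA : A.Countable := countable_iUnion hA₀
    have hAβ : A ⊆ Iio β := iUnion_subset hA₀β
    obtain ⟨Fs, ns, xs, hFs, hcov⟩ := exists_boxes hA
    have hidx : ∀ s : List ℕ, ∃ idx : Om I → ℕ, (∀ x, ∀ᶠ x' in N A x, idx x' = idx x) ∧
        ∀ x, (∀ γ ∈ Fs (idx x), ∀ i, i < ns (idx x) → x γ i = xs (idx x) γ i) ∧
          p₀ * t * iota (Fs (idx x)) (ns (idx x)) (xs (idx x)) ∈ Ds S β Q s := by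
      intro s
      apply exists_least (A := A) (fun c x => (∀ γ ∈ Fs c, ∀ i, i < ns c → x γ i = xs c γ i) ∧
          p₀ * t * iota (Fs c) (ns c) (xs c) ∈ Ds S β Q s)
      · intro c x
        filter_upwards [box_eventually (Fs c) (hFs c) (ns c) (xs c) x] with x' h1
        rw [h1]
      · intro x
        obtain ⟨F, hF, n, h6⟩ := h5 (Encodable.encode s) x
        rw [hdcd'] at h6
        obtain ⟨i, hi1, hi2, hi3⟩ := hcov x F n (hF.trans (subset_iUnion A₀ _))
        subst hi1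
        subst hi2
        refine ⟨i, hi3, ?_⟩
        rw [← iota_congr hi3, mul_assoc]
        exact h6
    choose idx hidx1 hidx2 using hidx
    set bx : ℕ → GG I := fun i => iota (Fs i) (ns i) (xs i) with hbx
    have hbxS : ∀ i, InS (Iio β) (bx i) := fun i => iota_inS _ _ _ ((hFs i).trans hAβ)
    -- the bound of the bad successors
    have hK : ∀ (s : List ℕ) (i : ℕ), ∃ k, (p₀ * t * bx i ∈ Ds S β Q s →
        (¬ ∃ v, p₀ * t * bx i ∈ Gd S β (Q v) s) → Bd S β Q s (p₀ * t * bx i) ∧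
          ∀ m, k ≤ m → Bd S β Q (s ++ [m]) (p₀ * t * bx i)) := by
      intro s i
      by_cases h : p₀ * t * bx i ∈ Ds S β Q s ∧ ¬ ∃ v, p₀ * t * bx i ∈ Gd S β (Q v) s
      · obtain ⟨h6 | ⟨h6, k, h7⟩, h8⟩ := h
        · exact absurd h6 h8
        · exact ⟨k, fun _ _ => ⟨h6, h7⟩⟩
      · exact ⟨0, fun h1 h2 => absurd ⟨h1, h2⟩ h⟩
    choose K hK using hK
    set bd : List ℕ → Om I → Prop := fun s y => ¬ ∃ v, p₀ * t * bx (idx s y) ∈ Gd S β (Q v) s
      with hbd
    have hbdB : ∀ s y, bd s y → Bd S β Q s (p₀ * t * bx (idx s y)) ∧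
        ∀ m, K s (idx s y) ≤ m → Bd S β Q (s ++ [m]) (p₀ * t * bx (idx s y)) :=
      fun s y h => hK s (idx s y) (hidx2 s y).2 h
    have hbdsucc : ∀ s y, bd s y → ∀ m, K s (idx s y) ≤ m → bd (s ++ [m]) y := by
      intro s y h m hm ⟨v, hv⟩
      have h6 := (hbdB s y h).2 m hm
      set i := idx s y with hi
      set j := idx (s ++ [m]) y with hj
      have hyi := (hidx2 s y).1
      have hyj := (hidx2 (s ++ [m]) y).1
      rw [← hi] at hyi
      rw [← hj] at hyj
      have hag := iota_agree (Fs i ∪ Fs j) (max (ns i) (ns j)) y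
      obtain ⟨r₁, hr1, hr1S, -⟩ := factor (r := iota (Fs i ∪ Fs j) (max (ns i) (ns j)) y)
        (F := Fs i) (n := ns i) (y := xs i) (fun x γ hγ k hk => by
          rw [hag x γ (Finset.mem_union_left _ hγ) k (lt_max_of_lt_left hk)]
          exact hyi γ hγ k hk)
      obtain ⟨r₂, hr2, hr2S, -⟩ := factor (r := iota (Fs i ∪ Fs j) (max (ns i) (ns j)) y)
        (F := Fs j) (n := ns j) (y := xs j) (fun x γ hγ k hk => by
          rw [hag x γ (Finset.mem_union_right _ hγ) k (lt_max_of_lt_right hk)]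
          exact hyj γ hγ k hk)
      have hFF : ↑(Fs i ∪ Fs j) ⊆ Iio β := by
        rw [Finset.coe_union]
        exact (union_subset (hFs i) (hFs j)).trans hAβ
      have hr1' := hr1S (Iio β) (iota_inS _ _ _ hFF) ((hFs i).trans hAβ)
      have hr2' := hr2S (Iio β) (iota_inS _ _ _ hFF) ((hFs j).trans hAβ)
      have h7 := Gd_open hS hβ (hQ v) (s ++ [m]) _ r₂ ((hp₀.mul ht).mul (hbxS j)) hr2' hv
      apply h6 r₁ hr1' v
      have h8 : p₀ * t * bx i * r₁ = p₀ * t * bx j * r₂ := by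
        rw [mul_assoc, mul_assoc (p₀ * t) (bx j)]
        show p₀ * t * (iota (Fs i) (ns i) (xs i) * r₁) =
          p₀ * t * (iota (Fs j) (ns j) (xs j) * r₂)
        rw [← hr1, ← hr2]
      rw [h8]
      exact h7
    have hbdnil : ∀ y, bd [] y := by
      intro y ⟨v, hv⟩
      rw [mul_assoc] at hv
      exact hbad' _ (ht.mul (hbxS _)) v hv
    -- the embedding
    set step : Om I → List ℕ → ℕ → List ℕ := fun y w a => w ++ [K w (idx w y) + a] with hstep
    set b : Om I → LE := fun y =>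
      { tr := fun l => l.foldl (step y) []
        spec := by
          intro l
          refine ⟨fun a => K (l.foldl (step y) []) (idx (l.foldl (step y) []) y) + a,
            fun a b hab => by simpa using hab, fun a => ?_⟩
          rw [List.foldl_append]
          rfl } with hb
    have hbtr : ∀ y l a, (b y).tr (l ++ [a]) =
        (b y).tr l ++ [K ((b y).tr l) (idx ((b y).tr l) y) + a] := by
      intro y l a
      show (l ++ [a]).foldl (step y) [] = _
      rw [List.foldl_append]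
      rfl
    have hbbd : ∀ y l, bd ((b y).tr l) y := by
      intro y l
      induction l using List.reverseRecOn with
      | nil => exact hbdnil y
      | append_singleton l a ih =>
        rw [hbtr]
        exact hbdsucc _ _ ih _ (by omega)
    have hbLC : ∀ l x, ∀ᶠ x' in N A x, (b x').tr l = (b x).tr l := by
      intro l x
      induction l using List.reverseRecOn with
      | nil => exact Filter.Eventually.of_forall (fun _ => rfl)
      | append_singleton l a ih =>
        filter_upwards [ih, hidx1 ((b x).tr l) x] with x' h1 h2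
        rw [hbtr, hbtr, h1, h2]
    set E₂ : I → Om I → LE := fun γ x => if γ = β then b x else 1 with hE₂
    have hE₂S : Supp (A ∪ {β}) E₂ := by
      constructor
      · intro γ hγ x
        exact if_neg (fun h => hγ (Or.inr h))
      · intro γ x l
        by_cases hγ : γ = β
        · subst hγ
          have h6 : ∀ x, E₂ γ x = b x := fun x => if_pos rfl
          simp only [h6]
          exact N_anti (show A ⊆ (A ∪ {γ}) ∩ Iio γ from fun δ hδ => ⟨Or.inl hδ, hAβ hδ⟩) x
            (hbLC l x)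
        · have h6 : ∀ x, E₂ γ x = 1 := fun x => if_neg hγ
          simp only [h6]
          exact Filter.Eventually.of_forall (fun _ => trivial)
    set u₂ : GG I := ⟨E₂, A ∪ {β}, hA.union (countable_singleton β), hE₂S⟩ with hu₂
    have hu₂S : InS S u₂ := by
      intro γ hγ x
      have h : γ ≠ β := by rintro rfl; exact hγ hβ
      exact if_neg h
    have hu₂β : InS (Ici β) u₂ := by
      intro γ hγ x
      have h : γ ≠ β := by rintro rfl; exact hγ self_mem_Ici
      exact if_neg h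
    obtain ⟨r, hrS, hrQ⟩ := hQd (p₀ * t * u₂) (((hp₀.mul ht).mono hISub).mul hu₂S)
    obtain ⟨v, hrQ⟩ := mem_iUnion.mp hrQ
    obtain ⟨u₃, hu₃E, hu₃⟩ := exists_comm hu₂β (low_inS β r)
    set X := u₃ * up β r with hX
    have hXS : InS S X := by
      apply InS.mul _ (up_inS' β hrS)
      intro γ hγ x
      rw [hu₃E, hu₂S γ hγ]
    have hXβ : InS (Ici β) X := by
      apply InS.mul _ (up_inS β r)
      intro γ hγ x
      rw [hu₃E, hu₂β γ hγ]
    have hlowS : InS (Iio β) (low β r) := low_inS β r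
    have hrQ' : p₀ * t * low β r * X ∈ Q v := by
      have : p₀ * t * low β r * X = p₀ * t * u₂ * r := by
        conv_rhs => rw [← low_mul_up β r, ← mul_assoc, mul_assoc (p₀ * t), hu₃]
        rw [hX]
        simp only [mul_assoc]
      rw [this]
      exact hrQ
    set x₀ : Om I := fun _ _ => 0 with hx₀
    set y₁ := (low β r).act ((up β r).act x₀) with hy₁
    set s₁ := (X.E β x₀).tr [] with hs₁
    have hs₁' : s₁ = (b y₁).tr (((up β r).E β x₀).tr []) := by
      rw [hs₁, hX, GG.mul_E, LE.mul_tr, hu₃E]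
      show (E₂ β _).tr _ = _
      rw [hE₂]
      simp only
      rw [if_pos trivial]
    have hbad1 : bd s₁ y₁ := by rw [hs₁']; exact hbbd _ _
    set i := idx s₁ y₁ with hi
    have hyi : ∀ γ ∈ Fs i, ∀ k, k < ns i → y₁ γ k = xs i γ k := (hidx2 s₁ y₁).1
    -- continuity
    obtain ⟨F₁, hF₁, n₁, hc1⟩ := X.A_supp.2 β x₀ []
    obtain ⟨F₂, hF₂, n₂, hc2⟩ := factor_of_eventually (A := Iio β) (r := low β r) (y := x₀)
      (F := Fs i) (n := ns i) (fun δ hδ ε hε => lt_trans (mem_Iio.mp hε.2) (mem_Iio.mp hδ))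
      ((hFs i).trans hAβ)
    set ι := iota (F₁ ∪ F₂) (max n₁ n₂) x₀ with hι
    have hFF : ↑(F₁ ∪ F₂) ⊆ Iio β := by
      rw [Finset.coe_union]
      exact union_subset (hF₁.trans inter_subset_right) hF₂
    have hιS : InS (Iio β) ι := iota_inS _ _ _ hFF
    have hιag := iota_agree (F₁ ∪ F₂) (max n₁ n₂) x₀
    obtain ⟨X', hX'E, hX'⟩ := exists_comm hXβ hιS
    have hX'nil : ∀ x, (X'.E β x).tr [] = s₁ := by
      intro x
      rw [hX'E]
      exact hc1 _ (fun γ hγ k hk => hιag x γ (Finset.mem_union_left _ hγ) k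
        (lt_max_of_lt_left hk))
    have hX'S : InS S X' := fun γ hγ x => by rw [hX'E, hXS γ hγ]
    have hX'β : InS (Ici β) X' := fun γ hγ x => by rw [hX'E, hXβ γ hγ]
    have hreg : ∀ x, RegF {β} (fun _ => s₁) 0 (X'.act x) := by
      intro x γ hγ
      rw [Finset.mem_singleton] at hγ
      subst hγ
      refine ⟨?_, Nat.zero_le _⟩
      have h6 := (X'.E γ x).map_pre (x γ) 0
      rw [pre_zero, hX'nil] at h6
      exact h6
    have hdiv := rho_mul_divG X' {β} (fun _ => s₁) 0 hreg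
    set X'' := divG X' {β} (fun _ => s₁) 0 hreg with hX''
    have hX''S : InS S X'' := divG_inS _ _ _ _ _ hX'S (by simpa using hβ)
    have hX''β : InS (Ici β) X'' := divG_inS _ _ _ _ _ hX'β (by simp)
    have hX''P : Pure {β} X'' := by
      intro γ hγ x
      rw [hX'', divG_E_of_mem _ _ _ _ _ _ hγ]
      rw [Finset.mem_singleton] at hγ
      subst hγ
      show dec s₁ _ ((X'.E γ x).tr []) = []
      rw [hX'nil, dec_self]
    have hgood : p₀ * t * low β r * ι ∈ Gd S β (Q v) s₁ := by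
      refine ⟨X'', hX''S, hX''β, hX''P, ?_⟩
      have h6 : p₀ * t * low β r * ι * ins β s₁ * X'' = p₀ * t * low β r * X * ι := by
        have h7 : ins β s₁ * X'' = X' := hdiv
        rw [mul_assoc _ (ins β s₁), h7, mul_assoc _ ι, ← hX', ← mul_assoc]
      rw [h6]
      exact hQ v _ _ ((((hp₀.mul ht).mul hlowS).mono hISub).mul hXS) (hιS.mono hISub) hrQ'
    obtain ⟨r', hr', hr'S, -⟩ := factor (r := low β r * ι) (F := Fs i) (n := ns i) (y := xs i)
      (fun x γ hγ k hk => by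
        rw [GG.mul_act, hc2 _ (fun γ hγ k hk => hιag x γ (Finset.mem_union_right _ hγ) k
          (lt_max_of_lt_right hk)) γ hγ k hk, ← hyi γ hγ k hk, hy₁]
        have hγβ : γ < β := hAβ (hFs i hγ)
        have : (low β r).act x₀ γ = (low β r).act ((up β r).act x₀) γ := by
          apply GG.act_congr
          intro δ hδ
          rw [(up_inS β r).act (by simpa using hδ.trans_lt hγβ)]
        rw [this])
    have hr'β := hr'S (Iio β) (hlowS.mul hιS) ((hFs i).trans hAβ)
    apply (hbdB s₁ y₁ hbad1).1 r' hr'β v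
    have h8 : p₀ * t * bx (idx s₁ y₁) * r' = p₀ * t * low β r * ι := by
      rw [mul_assoc (p₀ * t) (low β r) ι, hr', ← mul_assoc]
    rw [h8]
    exact hgood

end Pool.Agent.Helper467_LV
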