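import Mathlib
import Pool.Agent.Helper467_LV.KK

/-!
Fusion for all initial segments, and guessing reals from one coordinate.
-/

set_option autoImplicit false

namespace Pool.Agent.Helper467_LV

open Set Filter

variable {I : Type} [LinearOrder I]

theorem KK_empty (S : Set I) : KK S ∅ := by
  intro V _ Q _ _ hd
  obtain ⟨r, hr, h⟩ := hd 1 InS.one
  rw [one_mul] at h
  obtain ⟨v, hv⟩ := mem_iUnion.mp h
  exact ⟨r, hr, fun γ hγ => by simp at hγ, v, hv⟩

theorem KK_all (F : Finset I) : ∀ S : Set I, IsLowerSet S → (∀ β ∈ S, Fus (Iio β)) → ↑F ⊆ S →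
    KK S F := by
  classical
  induction F using Finset.induction_on_max with
  | empty => exact fun S _ _ _ => KK_empty S
  | insert a s hs ih =>
    intro S hS hF hsub
    have ha : a ∈ S := hsub (by simp)
    apply KK_step hS ha hs (hF a ha)
    apply ih (Iio a) (isLowerSet_Iio a) (fun γ hγ => hF γ (hS (le_of_lt hγ) ha))
    intro γ hγ
    exact hs γ hγ

variable [WellFoundedLT I]

theorem fus_Iio (β : I) : Fus (Iio β) := by
  induction β using WellFoundedLT.induction with
  | ind β ih =>
  exact fus_of_KK (isLowerSet_Iio β) (fun F hF => KK_all F _ (isLowerSet_Iio β)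
    (fun γ hγ => ih γ hγ) hF)

theorem KK_univ (F : Finset I) : KK (Set.univ : Set I) F :=
  KK_all F _ isLowerSet_univ (fun β _ => fus_Iio β) (subset_univ _)

theorem fus_univ : Fus (Set.univ : Set I) :=
  fus_of_KK isLowerSet_univ (fun F _ => KK_univ F)

omit [WellFoundedLT I] in
/-- branching at several levels -/
theorem exists_multibranch {α : I} {A : Set I} (hA : A.Countable) (hαA : α ∈ A)
    (C : I → LE → Prop) (L : ℕ) :
    ∀ U : List ℕ → GG I, (∀ u, InS (Ici α) (U u)) → (∀ u, Supp A (U u).E) →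
      (∀ u x, ((U u).E α x).tr [] = []) → (∀ u γ, α < γ → ∀ x, C γ ((U u).E γ x)) →
      ∃ W : GG I, InS (Ici α) W ∧ Supp A W.E ∧ (∀ x, (W.E α x).tr [] = []) ∧
        (∀ γ, α < γ → ∀ x, C γ (W.E γ x)) ∧
        (∀ x l, l.length < L → (W.E α x).tr l = l) ∧
        (∀ x l, L ≤ l.length →
          (W.E α x).tr l = l.take L ++ ((U (l.take L)).E α x).tr (l.drop L)) ∧
        ∀ u, u.length = L → W * ins α u = ins α u * U u := by
  induction L with
  | zero =>
    intro U h1 h2 h3 h4
    refine ⟨U [], h1 _, h2 _, h3 _, h4 _, fun x l hl => absurd hl (Nat.not_lt_zero _),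
      fun x l _ => by simp, fun u hu => ?_⟩
    rw [List.length_eq_zero_iff] at hu
    subst hu
    rw [ins_nil, mul_one, one_mul]
  | succ L ih =>
    intro U h1 h2 h3 h4
    have h5 := fun k : ℕ => ih (fun v => U (k :: v)) (fun v => h1 _) (fun v => h2 _)
      (fun v => h3 _) (fun v => h4 _)
    choose W hW1 hW2 hW3 hW4 hW5 hW6 hW7 using h5
    obtain ⟨B, hB1, hB2, hB3, hB4, hB5, hB6⟩ := exists_branch hA hαA (fun k _ => k)
      (fun k x => Filter.Eventually.of_forall (fun _ => rfl)) (fun x => strictMono_id) W hW1 hW2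
      (fun k x => hW3 k x)
    refine ⟨B, hB1, hB2, hB3, ?_, ?_, ?_, ?_⟩
    · intro γ hγ x
      rw [hB5 γ hγ]
      exact hW4 _ γ hγ _
    · intro x l hl
      cases l with
      | nil => exact hB3 x
      | cons k v =>
        rw [hB4, hW5 k x v (by simpa using hl)]
    · intro x l hl
      cases l with
      | nil => simp at hl
      | cons k v =>
        rw [hB4, hW6 k x v (by simpa using hl)]
        rfl
    · intro u hu
      cases u with
      | nil => simp at hu
      | cons k v =>
        have h6 : B * ins α [k] = ins α [k] * W k := by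
          apply GG.ext_act
          intro x
          rw [GG.mul_act, GG.mul_act, hB6]
        have h7 : ins α (k :: v) = ins α [k] * ins α v := (ins_mul_ins α [k] v).symm
        rw [h7, ← mul_assoc, h6, mul_assoc, hW7 k v (by simpa using hu), ← mul_assoc]

/-- the sequence after the first `i + 1` entries -/
def tl (i : ℕ) (y : ℕ → ℕ) : ℕ → ℕ := fun j => y (j + (i + 1))

/-- one application of a family of reals, with the part below `α` fixed, depends on `x` only
through the regions at the coordinates in `F` -/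
def Dc (α : I) (h : Om I → ℕ → Prop) (P : GG I) (F : Finset I) (i : ℕ) (u : List ℕ) (m : ℕ)
    (p w : GG I) : Prop :=
  Fix F i w ∧ ∀ x x' : Om I, (∀ γ, γ < α → x γ = x' γ) → (∀ γ ∈ F, lp i (x γ) = lp i (x' γ)) →
    ∀ k, k < m → (h (P.act (p.act ((ins α u).act (w.act x)))) k ↔
      h (P.act (p.act ((ins α u).act (w.act x')))) k)

/-- the corresponding subset of the part below `α` -/
def Hs (α : I) (h : Om I → ℕ → Prop) (P : GG I) (F : Finset I) (i : ℕ) (u : List ℕ) (m : ℕ) :
    Set (GG I) := {p | ∃ w, InS (Ici α) w ∧ Dc α h P F i u m p w}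

omit [WellFoundedLT I] in
theorem act_swap {α : I} {p : GG I} (hp : InS (Iio α) p) (u : List ℕ) (x : Om I) :
    (ins α u).act (p.act x) = p.act ((ins α u).act x) := by
  rw [← GG.mul_act, ins_comm hp, GG.mul_act]

omit [WellFoundedLT I] in
theorem Hs_open {α : I} {h : Om I → ℕ → Prop} {P : GG I} {F : Finset I} (hF : ∀ γ ∈ F, α ≤ γ)
    {i : ℕ} {u : List ℕ} {m : ℕ} : OpenS (Iio α) (Hs α h P F i u m) := by
  rintro p r hp hr ⟨w, hw, hw1, hw2⟩
  obtain ⟨w', h1, h2⟩ := exists_comm hw hr
  refine ⟨w', fun γ hγ x => by rw [h1, hw γ hγ], fun γ hγ x => by rw [h1]; exact hw1 γ hγ _, ?_⟩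
  intro x x' hx hlp k hk
  have h3 : ∀ z, (p * r).act ((ins α u).act (w'.act z)) =
      p.act ((ins α u).act (w.act (r.act z))) := by
    intro z
    rw [GG.mul_act, ← act_swap hr, ← GG.mul_act r w', ← h2, GG.mul_act]
  rw [h3, h3]
  apply hw2 _ _ _ _ k hk
  · intro γ hγ
    exact r.act_congr (fun δ hδ => hx δ (hδ.trans_lt hγ))
  · intro γ hγ
    have h4 : γ ∉ Iio α := by simpa using hF γ hγ
    rw [hr.act h4, hr.act h4]
    exact hlp γ hγ

omit [WellFoundedLT I] in
theorem Hs_glue {α : I} {h : Om I → ℕ → Prop} {P : GG I} {F : Finset I} (hF : ∀ γ ∈ F, α ≤ γ)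
    {i : ℕ} {u : List ℕ} {m : ℕ} {t : GG I} (ht : InS (Iio α) t)
    (hl : LocD (Iio α) (Hs α h P F i u m) t) : t ∈ Hs α h P F i u m := by
  obtain ⟨A, hA, hAα, hl⟩ := hl
  obtain ⟨W, hW1, hW2, hW3⟩ := exists_glue hA hAα
    (fun F' n y w => Dc α h P F i u m (t * iota F' n y) w)
    (fun y => by
      obtain ⟨F', hF', n, w, h1, h2⟩ := hl y
      exact ⟨F', hF', n, w, h1, h2⟩)
    (fun F' n y y' w hag h1 => by rw [iota_congr hag]; exact h1)
  refine ⟨W, hW1, ?_, ?_⟩
  · have := hW2 (fun γ e => γ ∈ F → FixLE i e) (fun F' n y w _ h γ x hγ => h.1 γ hγ x)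
    exact fun γ hγ x => this γ x hγ
  · intro x x' hx hlp k hk
    obtain ⟨F₁, n₁, w, hF₁, hw, ⟨-, hw2⟩, F₂, n₂, r, hF₂, hr, h1, h2⟩ := hW3 x
    have hx1 : (iota F₂ n₂ x).act (unrho F₂ (fun γ => pre (x γ) n₂) 0 x) = x :=
      rho_unrho _ _ _ _ (regF_iota.mpr (fun _ _ _ _ => rfl))
    have hx2 : (iota F₂ n₂ x).act (unrho F₂ (fun γ => pre (x γ) n₂) 0 x') = x' :=
      rho_unrho _ _ _ _ (regF_iota.mpr (fun γ hγ j _ => by
        rw [hx γ (hAα (hF₂ hγ))]))
    set z := unrho F₂ (fun γ => pre (x γ) n₂) 0 x with hz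
    set z' := unrho F₂ (fun γ => pre (x γ) n₂) 0 x' with hz'
    have hi : InS (Iio α) (iota F₁ n₁ x) := iota_inS _ _ _ (hF₁.trans hAα)
    have h3 : ∀ v, t.act ((ins α u).act (W.act ((iota F₂ n₂ x).act v))) =
        (t * iota F₁ n₁ x).act ((ins α u).act (w.act (r.act v))) := by
      intro v
      rw [← GG.mul_act W, h2, GG.mul_act, GG.mul_act w, act_swap hi, GG.mul_act]
    rw [← hx1, ← hx2, h3, h3]
    apply hw2 _ _ _ _ k hk
    · intro γ hγ
      apply r.act_congr
      intro δ hδ
      rw [hz, hz']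
      unfold unrho
      rw [hx δ (hδ.trans_lt hγ)]
    · intro γ hγ
      have h4 : γ ∉ Iio α := by simpa using hF γ hγ
      have h5 : γ ∉ F₂ := fun h => h4 (hAα (hF₂ h))
      rw [hr.act h4, hr.act h4, hz, hz']
      unfold unrho
      rw [if_neg h5, if_neg h5]
      exact hlp γ hγ

theorem Hs_dense {α : I} {h : Om I → ℕ → Prop}
    (hh : ∀ k x, ∀ᶠ x' in N Set.univ x, (h x' k ↔ h x k)) {P : GG I} {F : Finset I}
    (hF : ∀ γ ∈ F, α ≤ γ) {i : ℕ} {u : List ℕ} {m : ℕ} :
    DenseS (Iio α) (Hs α h P F i u m) := by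
  classical
  intro p hp
  obtain ⟨t, -, ht1, ht2⟩ := region_decision (S := Set.univ) (F := F) (subset_univ _)
    (KK_univ F) i (V := Fin m → Prop)
    (fun v => {s | ∀ x, ∀ k : Fin m, (h (P.act (p.act ((ins α u).act (s.act x)))) k ↔ v k)})
    (fun v q r _ _ hq x k => by rw [GG.mul_act]; exact hq _ k)
    (fun v s _ hs x k => by
      obtain ⟨A, -, -, hs⟩ := hs
      obtain ⟨F', -, n, h1⟩ := hs x
      have h2 := h1 (unrho F' (fun γ => pre (x γ) n) 0 x) k
      have h3 : (iota F' n x).act (unrho F' (fun γ => pre (x γ) n) 0 x) = x :=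
        rho_unrho _ _ _ _ (regF_iota.mpr (fun _ _ _ _ => rfl))
      rw [GG.mul_act, h3] at h2
      exact h2)
    (fun q _ => by
      set g : GG I := P * (p * (ins α u * q)) with hg
      set x₀ : Om I := fun _ _ => 0
      have h1 : ∀ᶠ x' in N Set.univ x₀, ∀ k ∈ Finset.range m,
          (h (g.act x') k ↔ h (g.act x₀) k) := by
        rw [Filter.eventually_all_finset]
        intro k _
        exact (g.tendsto_act g.A_supp (fun _ _ => subset_univ _) x₀).eventually
          (hh k (g.act x₀))
      obtain ⟨F', -, n, h2⟩ := h1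
      refine ⟨iota F' n x₀, InS.univ _, mem_iUnion.mpr ⟨fun k => h (g.act x₀) k, ?_⟩⟩
      intro x k
      have h3 := h2 ((iota F' n x₀).act x) (iota_agree _ _ _ _) k
        (Finset.mem_range.mpr k.2)
      rw [hg] at h3 ⊢
      simp only [GG.mul_act] at h3 ⊢
      exact h3)
  refine ⟨low α t, low_inS α t, up α t, up_inS α t, ?_, ?_⟩
  · intro γ hγ x
    rw [up_E_ge (hF γ hγ)]
    exact ht1 γ hγ x
  · intro x x' _ hlp k hk
    set σ : I → List ℕ := fun γ => lp i (x γ) with hσ
    obtain ⟨v, hv⟩ := ht2 σ (fun γ _ => wt_lp _ _)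
    have h1 : ∀ z, (∀ γ ∈ F, lp i (z γ) = σ γ) →
        (h (P.act ((p * low α t).act ((ins α u).act ((up α t).act z)))) k ↔ v ⟨k, hk⟩) := by
      intro z hz
      have h2 : RegF F σ (fun γ => i - wt (σ γ)) z := by
        intro γ hγ
        simp only
        rw [← hz γ hγ]
        exact reg_lp i (z γ)
      have h3 : (rg F i σ).act (unrho F σ (fun γ => i - wt (σ γ)) z) = z := rho_unrho _ _ _ _ h2
      have h4 := hv (unrho F σ (fun γ => i - wt (σ γ)) z) ⟨k, hk⟩
      rw [GG.mul_act, h3] at h4
      rw [GG.mul_act, ← act_swap (low_inS α t), ← GG.mul_act (low α t), low_mul_up]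
      exact h4
    rw [h1 x (fun γ _ => rfl), h1 x' (fun γ hγ => (hlp γ hγ).symm)]

omit [LinearOrder I] [WellFoundedLT I] in
theorem wt_drop_le (l : List ℕ) (n : ℕ) : wt (l.drop n) ≤ wt l := by
  conv_rhs => rw [← List.take_append_drop n l, wt_append]
  omega

omit [LinearOrder I] [WellFoundedLT I] in
theorem wt_drop_anti (l : List ℕ) {n m : ℕ} (h : n ≤ m) : wt (l.drop m) ≤ wt (l.drop n) := by
  have : l.drop m = (l.drop n).drop (m - n) := by
    rw [List.drop_drop]
    congr 1
    omega
  rw [this]
  exact wt_drop_le _ _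

omit [LinearOrder I] [WellFoundedLT I] in
theorem unsh_tl (i : ℕ) (y : ℕ → ℕ) (u : List ℕ) (hu : u.length = i + 1) :
    unsh u 0 y = tl i y := by
  funext j
  unfold unsh tl
  split_ifs with h
  · subst h; simp [hu]
  · rw [hu]

/-- guessing -/
theorem guess (α : I) (h : Om I → ℕ → Prop)
    (hh : ∀ k x, ∀ᶠ x' in N Set.univ x, (h x' k ↔ h x k)) :
    ∃ (T : GG I) (Fs : ℕ → Finset I), (∀ x, (T.E α x).tr [] = []) ∧
      ∀ i x x', (∀ γ, γ < α → x γ = x' γ) →
      pre (x α) (i + 1) = pre (x' α) (i + 1) → lp i (tl i (x α)) = lp i (tl i (x' α)) →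
      (∀ β ∈ Fs i, α < β → lp i (x β) = lp i (x' β)) →
      ∀ k, k < x α i → (h (T.act x) k ↔ h (T.act x') k) := by
  classical
  obtain ⟨Fs, t, T, P, h0, hFsm, -, -, h4, -, -, -, hstep, h9, -, h11, h12⟩ :=
    fusion (Set.univ : Set I) {α} (subset_univ _) 0 (fun k P F t =>
      (∀ x l, wt (l.drop (k + 1)) ≤ k → (t.E α x).tr l = l) ∧
      ∀ x x', (∀ γ, γ < α → x γ = x' γ) →
      pre (x α) (k + 1) = pre (x' α) (k + 1) → lp k (tl k (x α)) = lp k (tl k (x' α)) →
      (∀ β ∈ F, α < β → lp k (x β) = lp k (x' β)) →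
      ∀ j, j < x α k → (h (P.act (t.act x)) j ↔ h (P.act (t.act x')) j)) (by
    intro i P F _ _ _
    set Fp : Finset I := insert α (F.filter (fun γ => α < γ)) with hFp
    have hFp' : ∀ γ ∈ Fp, α ≤ γ := by
      intro γ hγ
      rw [hFp, Finset.mem_insert, Finset.mem_filter] at hγ
      rcases hγ with rfl | hγ
      · exact le_rfl
      · exact hγ.2.le
    set dcd : ℕ → List ℕ × ℕ := fun j => (Encodable.decode (α := List ℕ × ℕ) j).getD ([], 0)
      with hdcd
    have hdcd' : ∀ s : List ℕ × ℕ, dcd (Encodable.encode s) = s := fun s => by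
      show (Encodable.decode (α := List ℕ × ℕ) (Encodable.encode s)).getD ([], 0) = s
      rw [Encodable.encodek]
      rfl
    obtain ⟨t₁, ht1, ht2, ht3⟩ := fus_Iio α (fun j => Hs α h P Fp i (dcd j).1 (dcd j).2)
      (fun j => Hs_open hFp') (fun j => Hs_dense hh hFp') (F.filter (fun γ => γ < α))
      (by intro γ hγ; rw [Finset.coe_filter] at hγ; exact hγ.2) i
    have ht4 : ∀ u : List ℕ, t₁ ∈ Hs α h P Fp i u (u.getD i 0) := by
      intro u
      have := ht3 (Encodable.encode (u, u.getD i 0))
      simp only [hdcd'] at this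
      exact Hs_glue hFp' ht1 this
    choose U hU1 hU2 using ht4
    obtain ⟨W, hW1, -, hW3, hW4, hW5, hW6, hW7⟩ := exists_multibranch (α := α)
      (A := {α} ∪ ⋃ u, (U u).A)
      ((countable_singleton α).union (countable_iUnion (fun u => (U u).A_countable)))
      (Or.inl rfl) (fun γ e => γ ∈ F → FixLE i e) (i + 1) U hU1
      (fun u => (U u).A_supp.mono ((subset_iUnion (fun u => (U u).A) u).trans
        subset_union_right))
      (fun u x => ((hU2 u).1 α (by rw [hFp]; simp) x).nil)
      (fun u γ hγ x hγF => (hU2 u).1 γ (by rw [hFp]; simp [hγF, hγ]) x)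
    have hWfix : ∀ x l, wt (l.drop (i + 1)) ≤ i → (W.E α x).tr l = l := by
      intro x l hl
      rcases lt_or_ge l.length (i + 1) with h1 | h1
      · exact hW5 x l h1
      · rw [hW6 x l h1, (hU2 _).1 α (by rw [hFp]; simp) x _ hl, List.take_append_drop]
    refine ⟨t₁ * W, InS.univ _, ?_, ?_, ?_⟩
    · intro γ hγ x
      rw [GG.mul_E, zero_add]
      rcases lt_trichotomy γ α with h1 | h1 | h1
      · rw [hW1 γ (by simpa using h1), mul_one]
        exact ht2 γ (by simp [hγ, h1]) _
      · subst h1
        rw [ht1 γ (by simp), one_mul]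
        exact fun l hl => hWfix x l ((wt_drop_le _ _).trans hl)
      · rw [ht1 γ (by simpa using h1.le), one_mul]
        exact hW4 γ h1 x hγ
    · intro x l hl
      rw [GG.mul_E, ht1 α (by simp), one_mul]
      exact hWfix x l hl
    · intro x x' hx hpre hlpα hlp j hj
      set u := pre (x α) (i + 1) with hu
      have hul : u.length = i + 1 := pre_length _ _
      have hm : u.getD i 0 = x α i := by
        rw [List.getD_eq_getElem _ _ (by rw [hul]; omega), pre_getElem]
      have hz : ∀ z : Om I, pre (z α) (i + 1) = u →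
          (ins α u).act (unrho {α} (fun _ => u) 0 z) = z := by
        intro z hz
        apply rho_unrho
        intro γ hγ
        rw [Finset.mem_singleton] at hγ
        subst hγ
        exact ⟨by rw [hul]; exact hz, Nat.zero_le _⟩
      have hz' : ∀ z : Om I, unrho {α} (fun _ => u) 0 z α = tl i (z α) := by
        intro z
        unfold unrho
        rw [if_pos (by simp)]
        exact unsh_tl i (z α) u hul
      have hz'' : ∀ (z : Om I) γ, γ ≠ α → unrho {α} (fun _ => u) 0 z γ = z γ := by
        intro z γ hγ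
        unfold unrho
        rw [if_neg (by simpa using hγ)]
      have key : ∀ z : Om I, pre (z α) (i + 1) = u → (t₁ * W).act z =
          t₁.act ((ins α u).act ((U u).act (unrho {α} (fun _ => u) 0 z))) := by
        intro z h1
        conv_lhs => rw [← hz z h1]
        rw [GG.mul_act, ← GG.mul_act W, hW7 u hul, GG.mul_act]
      rw [key x rfl, key x' hpre.symm]
      apply (hU2 u).2 _ _ _ _ j (by rw [hm]; exact hj)
      · intro γ hγ
        rw [hz'' _ _ hγ.ne, hz'' _ _ hγ.ne]
        exact hx γ hγ
      · intro γ hγ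
        rw [hFp, Finset.mem_insert, Finset.mem_filter] at hγ
        rcases hγ with rfl | hγ
        · rw [hz', hz']
          exact hlpα
        · rw [hz'' _ _ hγ.2.ne', hz'' _ _ hγ.2.ne']
          exact hlp γ hγ.1 hγ.2)
  simp only [zero_add] at h11
  have hαFs : ∀ k, α ∈ Fs k := by
    intro k
    induction k with
    | zero => rw [h0]; simp
    | succ k ih => exact hFsm k ih
  -- the limits fix the sequences at α
  have hTfix : ∀ k x l, wt (l.drop (k + 1)) ≤ k → ((T k).E α x).tr l = l := by
    intro k x l hl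
    have key : ∀ d m, m + d = max k (wt l) → k ≤ m → ∀ x, ((T m).E α x).tr l = l := by
      intro d
      induction d with
      | zero =>
        intro m hm _ x
        exact h11 m α (hαFs m) x l (by omega)
      | succ d ih =>
        intro m hm hkm x
        rw [h9 m, GG.mul_E, LE.mul_tr, ih (m + 1) (by omega) (by omega) x]
        exact (hstep m).1 _ l (((wt_drop_anti l (by omega)).trans hl).trans hkm)
    exact key (max k (wt l) - k) k (by omega) le_rfl x
  refine ⟨T 0, Fs, fun x => hTfix 0 x [] (by simp), ?_⟩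
  intro i x x' hx hpre hlpα hlp k hk
  have hT : T 0 = P i * (t i * T (i + 1)) := by rw [← h12 (i + 1), h4, mul_assoc]
  rw [hT, GG.mul_act, GG.mul_act, GG.mul_act, GG.mul_act]
  have hpreT : ∀ z : Om I, pre ((T (i + 1)).act z α) (i + 1) = pre (z α) (i + 1) := by
    intro z
    have h1 := ((T (i + 1)).E α z).map_pre (z α) (i + 1)
    rw [hTfix (i + 1) z _ (by
      have : (pre (z α) (i + 1)).drop (i + 1 + 1) = [] := by
        apply List.drop_eq_nil_of_le
        rw [pre_length]
        omega
      rw [this]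
      simp), pre_length] at h1
    exact h1
  have hlpT : ∀ z : Om I, lp i (tl i ((T (i + 1)).act z α)) = lp i (tl i (z α)) := by
    intro z
    set w := lp i (tl i (z α)) with hw
    have hwr := reg_lp i (tl i (z α))
    rw [← hw] at hwr
    set u := pre (z α) (i + 1) with hu
    have hul : u.length = i + 1 := pre_length _ _
    have h1 : pre (z α) (i + 1 + w.length) = u ++ w := by
      have h2 := hwr.1
      apply List.ext_getElem
      · rw [pre_length, List.length_append, hul]
      · intro j hj1 hj2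
        rw [pre_getElem]
        rcases lt_or_ge j (i + 1) with h3 | h3
        · rw [List.getElem_append_left (by rw [hul]; exact h3), pre_getElem]
        · rw [List.getElem_append_right (by rw [hul]; exact h3)]
          have hj3 : j - u.length < w.length := by
            rw [List.length_append] at hj2; omega
          have h4 : (pre (tl i (z α)) w.length)[j - u.length]'(lt_of_lt_of_eq hj3
              (pre_length _ _).symm) = w[j - u.length]'hj3 := by simp only [h2]
          rw [← h4, pre_getElem]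
          unfold tl
          congr 1
          omega
    have h5 : wt ((u ++ w).drop (i + 1 + 1)) ≤ i + 1 := by
      have h6 : wt ((u ++ w).drop (i + 1 + 1)) ≤ wt ((u ++ w).drop (i + 1)) :=
        wt_drop_anti _ (by omega)
      have h7 : (u ++ w).drop (i + 1) = w := by
        rw [← hul, List.drop_left]
      rw [h7] at h6
      have := wt_lp i (tl i (z α))
      rw [← hw] at this
      omega
    have h6 := ((T (i + 1)).E α z).map_pre (z α) (i + 1 + w.length + 1)
    obtain ⟨j, hj, hj'⟩ := ((T (i + 1)).E α z).spec (u ++ w)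
    have h7 : pre (z α) (i + 1 + w.length + 1) = (u ++ w) ++ [z α (i + 1 + w.length)] := by
      rw [pre_succ, h1]
    rw [h7, hj', hTfix (i + 1) z (u ++ w) h5] at h6
    set a := z α (i + 1 + w.length) with ha
    have h8 : (T (i + 1)).act z α = ((T (i + 1)).E α z).map (z α) := rfl
    rw [← h8] at h6
    set y := (T (i + 1)).act z α with hy
    have h9 : pre y (u ++ w).length = u ++ w := pre_eq_of_append h6
    have h10 : y (u ++ w).length = j a := apply_of_pre (v := []) h6
    apply lp_unique i _ _ (by rw [hw]; exact wt_lp _ _)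
    constructor
    · apply List.ext_getElem
      · simp [pre_length]
      · intro q hq1 hq2
        rw [pre_getElem]
        have h11 : (pre y (u ++ w).length)[i + 1 + q]'(by
            rw [pre_length, List.length_append, hul]; omega) =
            (u ++ w)[i + 1 + q]'(by rw [List.length_append, hul]; omega) := by simp only [h9]
        rw [pre_getElem, List.getElem_append_right (by rw [hul]; omega)] at h11
        unfold tl
        have h12 : q + (i + 1) = i + 1 + q := by omega
        rw [h12, h11]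
        congr 1
        omega
    · have h11 := hwr.2
      unfold tl at h11 ⊢
      have h12 : w.length + (i + 1) = i + 1 + w.length := by omega
      rw [h12] at h11 ⊢
      have h13 : (u ++ w).length = i + 1 + w.length := by rw [List.length_append, hul]
      rw [h13] at h10
      rw [h10]
      exact h11.trans hj.le_apply
  apply (hstep i).2 _ _ _ _ _ _ k
  · have h1 := (pre_eq_iff _ _ _).mp (hpreT x) i (by omega)
    rw [h1]
    exact hk
  · intro γ hγ
    exact (T (i + 1)).act_congr (fun δ hδ => hx δ (hδ.trans_lt hγ))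
  · rw [hpreT, hpreT, hpre]
  · rw [hlpT, hlpT, hlpα]
  · intro β hβ hαβ
    have h1 : ∀ z : Om I, lp i ((T (i + 1)).act z β) = lp i (z β) := by
      intro z
      apply lp_map_of_fix
      exact (h11 (i + 1) β (hFsm i hβ) z).mono (by omega)
    rw [h1, h1]
    exact hlp β hβ hαβ

end Pool.Agent.Helper467_LV
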