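import Mathlib
import Pool.Agent.Helper467_LV.Defs
import Pool.Agent.Helper126.Sus.Forc
import Pool.Agent.W876.Two.Gen

/-!
The guiding principle and the statement on scales in the forcing language.
See `Pool.Agent.Helper126.Sus.Forc` for the forcing language, and
`Pool.Agent.Helper467_LV.Defs` for the same statements about actual objects.
-/

set_option autoImplicit false

namespace Pool.Agent.Helper467_LV

open Pool.Agent.Helper126.Sus.Forc
open Pool.Agent.W876.Two.Gen (IsFun)

variable {P : Type} [Preorder P]

/-- `φ` if and only if `ψ` -/
def fiff (φ ψ : Set P) : Set P := fand (fimp φ ψ) (fimp ψ φ)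

/-- The forcing version of: the sets `A w s` are infinite. -/
def InfN {W : Type} (A : W → List ℕ → ℕ → Set P) : Set P :=
  fall fun w => fall fun s => fall fun k => fex fun m => fand (fground (k ≤ m)) (meets (A w s m))

/-- The forcing version of: the first values of `y` are the members of the list `s`. -/
def PreN (y : ℕ → ℕ → Set P) (s : List ℕ) : Set P :=
  fall fun i => fall fun _ : i < s.length => meets (y i (s.getD i 0))

/-- The forcing version of: for all `i`, if `s` is the list `(y 0, …, y (i - 1))` and `m = y i`,
then `m` is in `A w s`, it is at most `l (i + c w)`, and the restriction of `z` to the numbers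
below `m` is one of the first `N w s` of the candidates `b w (s ++ [m]) j`. -/
def GuidedN {W : Type} (N : W → List ℕ → ℕ) (c : W → ℕ) (b : W → List ℕ → ℕ → ℕ → Set P)
    (A : W → List ℕ → ℕ → Set P) (l : ℕ → ℕ → Set P) (z : ℕ → Set P) (w : W)
    (y : ℕ → ℕ → Set P) : Set P :=
  fall fun i => fex fun s : List ℕ => fex fun m : ℕ =>
    fand (fand (fground (s.length = i)) (PreN y (s ++ [m])))
      (fand (meets (A w s m))
        (fand (fex fun v => fand (meets (l (i + c w) v)) (fground (m ≤ v)))
          (fex fun j => fand (fground (j < N w s))
            (fall fun k => fimp (fground (k < m))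
              (fiff (meets (z k)) (meets (b w (s ++ [m]) j k)))))))

/-- The forcing version of the guiding principle. -/
def GuidingN {W : Type} (N : W → List ℕ → ℕ) (c : W → ℕ) (b : W → List ℕ → ℕ → ℕ → Set P) :
    Set P :=
  fall fun A : W → List ℕ → ℕ → Set P => fimp (InfN A)
    (fex fun l : ℕ → ℕ → Set P => fand (IsFun l)
      (fall fun z : ℕ → Set P => fex fun w : W => fex fun y : ℕ → ℕ → Set P =>
        fand (IsFun y) (GuidedN N c b A l z w y)))

/-- The forcing version of: `f n ≤ g n`, for the functions named by `f` and `g`. -/
def LeAtN (f g : ℕ → ℕ → Set P) (n : ℕ) : Set P :=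
  fex fun u => fex fun v => fand (fand (meets (f n u)) (meets (g n v))) (fground (u ≤ v))

/-- The forcing version of: the functions `g a`, `a` in `K`, form a scale. -/
def ScaleN {K : Type} [LinearOrder K] (g : K → ℕ → ℕ → Set P) : Set P :=
  fand (fall fun a => IsFun (g a))
    (fand
      (fall fun a => fall fun b => fall fun _ : a < b =>
        fex fun k => fall fun n => fall fun _ : k ≤ n => LeAtN (g a) (g b) n)
      (fall fun f : ℕ → ℕ → Set P => fimp (IsFun f)
        (fex fun a => fex fun k => fall fun n => fall fun _ : k ≤ n => LeAtN f (g a) n)))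

end Pool.Agent.Helper467_LV
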