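import Mathlib
import Pool.Agent.Helper467_LV.Guess
import Pool.Agent.Helper467_LV.Sent

/-!
Names of reals and functions, given by continuous functions; reading names continuously.
-/

set_option autoImplicit false

namespace Pool.Agent.Helper467_LV

open Set Filter
open Pool.Agent.Helper126.Sus.Forc
open Pool.Agent.W876.Two.Gen (IsFun)

theorem LE.tr_injective (e : LE) {u v : List ℕ} (h : e.tr u = e.tr v) : u = v := by
  have hlen : u.length = v.length := by
    have := congrArg List.length h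
    rw [LE.tr_length, LE.tr_length e v] at this
    omega
  induction u using List.reverseRecOn generalizing v with
  | nil =>
    symm
    exact List.length_eq_zero_iff.mp hlen.symm
  | append_singleton u a ih =>
    rcases List.eq_nil_or_concat v with rfl | ⟨v, b, rfl⟩
    · simp at hlen
    · rw [List.concat_eq_append] at *
      obtain ⟨j, hj, hj'⟩ := e.spec u
      obtain ⟨k, hk, hk'⟩ := e.spec v
      rw [hj', hk'] at h
      obtain ⟨h1, h2⟩ := List.append_inj' h rfl
      have h3 := ih h1 (by simpa using hlen)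
      subst h3
      have h4 : j a = k b := by simpa using h2
      have h5 : j = k := by
        funext m
        have := (hj' m).symm.trans (hk' m)
        have h6 := List.append_cancel_left this
        simpa using h6
      subst h5
      rw [hj.injective h4]

theorem LE.map_injective' (e : LE) {y z : ℕ → ℕ} (h : e.map y = e.map z) : y = z := by
  funext i
  have h1 := e.map_pre y (i + 1)
  have h2 := e.map_pre z (i + 1)
  rw [h, LE.tr_length, pre_length] at h1
  rw [LE.tr_length, pre_length] at h2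
  have h3 := e.tr_injective (h1.symm.trans h2)
  exact (pre_eq_iff _ _ _).mp h3 i (by omega)

variable {I : Type} [LinearOrder I] [WellFoundedLT I]

theorem GG.act_injective (p : GG I) {x y : Om I} (h : p.act x = p.act y) : x = y := by
  have key : ∀ γ, x γ = y γ := by
    intro γ
    induction γ using WellFoundedLT.induction with
    | ind γ ih =>
    have h1 : (p.E γ x).map (x γ) = (p.E γ y).map (y γ) := congrFun h γ
    rw [p.E_congr ih] at h1
    exact LE.map_injective' _ h1
  funext γ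
  exact key γ

theorem GG.cancel {p r s : GG I} (h : p * r = p * s) : r = s := by
  apply GG.ext_act
  intro x
  apply p.act_injective
  rw [← GG.mul_act, ← GG.mul_act, h]

omit [WellFoundedLT I] in
/-- continuity in terms of boxes -/
theorem exists_box (r : GG I) (y : Om I) (F : Finset I) (n : ℕ) :
    ∃ (F' : Finset I) (n' : ℕ) (s : GG I), r * iota F' n' y = iota F n (r.act y) * s := by
  obtain ⟨F', -, n', h⟩ := factor_of_eventually (A := Set.univ) (r := r) (y := y) (F := F) (n := n)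
    (fun _ _ => subset_univ _) (subset_univ _)
  obtain ⟨s, hs, -⟩ := factor (r := r * iota F' n' y) (F := F) (n := n) (y := r.act y)
    (fun x γ hγ i hi => by
      rw [GG.mul_act]
      exact h _ (iota_agree F' n' y x) γ hγ i hi)
  exact ⟨F', n', s, hs⟩

omit [WellFoundedLT I] in
theorem exists_refine (r : GG I) (y : Om I) {Q : Om I → Prop}
    (h : ∀ᶠ x' in N Set.univ (r.act y), Q x') :
    ∃ (F : Finset I) (n : ℕ), ∀ v, Q (r.act ((iota F n y).act v)) := by
  obtain ⟨F, -, n, h1⟩ := (r.tendsto_act r.A_supp (fun _ _ => subset_univ _) y).eventually h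
  exact ⟨F, n, fun v => h1 _ (iota_agree F n y v)⟩

/-- the sentence `Φ` of the generic point relative to `p` -/
def bn (p : GG I) (Φ : Om I → Prop) : Set (GG I) := {r | ∃ r', r = p * r' ∧ ∀ v, Φ (r'.act v)}

/-- the name of the value of `Φ` at the generic point relative to `p` -/
def nm {X : Type} (p : GG I) (Φ : Om I → X) (x : X) : Set (GG I) := bn p (fun v => Φ v = x)

omit [WellFoundedLT I] in
theorem bn_down {p : GG I} {Φ : Om I → Prop} {r s : GG I} (h : r ∈ bn p Φ) : r * s ∈ bn p Φ := by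
  obtain ⟨r', h1, h2⟩ := h
  exact ⟨r' * s, by rw [h1, mul_assoc], fun v => by rw [GG.mul_act]; exact h2 _⟩

omit [WellFoundedLT I] in
theorem exists_of_meets {p : GG I} {Φ : Om I → Prop} {q : GG I} (h : q ∈ meets (bn p Φ)) :
    ∃ s, q * s ∈ bn p Φ := by
  obtain ⟨r, ⟨s, rfl⟩, t, ht, ⟨u, hu⟩⟩ := h q le_rfl
  exact ⟨s, by rw [hu]; exact bn_down ht⟩

theorem bn_decide {p : GG I} {Φ : Om I → Prop} {q' : GG I} {y : Om I}
    (h : ∀ᶠ x' in N Set.univ (q'.act y), (Φ x' ↔ Φ (q'.act y))) :
    ∃ (F : Finset I) (n : ℕ), (Φ (q'.act y) ∧ p * q' * iota F n y ∈ meets (bn p Φ)) ∨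
      (¬ Φ (q'.act y) ∧ p * q' * iota F n y ∈ fnot (meets (bn p Φ))) := by
  obtain ⟨F, n, h1⟩ := exists_refine q' y h
  refine ⟨F, n, ?_⟩
  by_cases hΦ : Φ (q'.act y)
  · refine Or.inl ⟨hΦ, meets_of_mem ⟨q' * iota F n y, by rw [mul_assoc], fun v => ?_⟩⟩
    rw [GG.mul_act, h1]
    exact hΦ
  · refine Or.inr ⟨hΦ, ?_⟩
    rintro r ⟨s, rfl⟩ h2
    obtain ⟨t, ht⟩ := exists_of_meets h2
    obtain ⟨r', h3, h4⟩ := ht
    have h5 : r' = q' * (iota F n y * (s * t)) := by
      apply GG.cancel (p := p)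
      rw [← h3]
      simp only [mul_assoc]
    have h6 := h4 y
    rw [h5, GG.mul_act, GG.mul_act, h1] at h6
    exact hΦ h6

/-- names given by continuous functions are names of functions -/
theorem isFun_nm {p q : GG I} (hq : q ≤ p) {Φ : ℕ → Om I → ℕ}
    (hΦ : ∀ n x, ∀ᶠ x' in N Set.univ x, Φ n x' = Φ n x) :
    q ∈ IsFun (fun n m => nm p (Φ n) m) := by
  constructor
  · intro n
    rw [mem_fex]
    intro r hr
    obtain ⟨r', rfl⟩ := hr.trans hq
    obtain ⟨F, k, h1⟩ := exists_refine r' (fun _ _ => 0) (hΦ n _)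
    refine ⟨p * r' * iota F k (fun _ _ => 0), GG.mul_le _ _, Φ n (r'.act (fun _ _ => 0)), ?_⟩
    exact meets_of_mem ⟨r' * iota F k (fun _ _ => 0), by rw [mul_assoc], fun v => by
      rw [GG.mul_act]; exact h1 v⟩
  · intro n m m'
    rw [mem_fimp]
    rintro r hr ⟨h1, h2⟩
    obtain ⟨s, hs⟩ := exists_of_meets h1
    obtain ⟨t, ht⟩ := exists_of_meets (meets_down h2 (GG.mul_le r s))
    refine ⟨r, le_rfl, ?_⟩
    obtain ⟨a, ha1, ha2⟩ := bn_down (s := t) hs
    obtain ⟨b, hb1, hb2⟩ := ht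
    have : a = b := GG.cancel (ha1.symm.trans hb1)
    subst this
    show m = m'
    rw [← ha2 (fun _ _ => 0), ← hb2 (fun _ _ => 0)]

/-- below `p`, the name `z` is read by the continuous function `h` -/
def Reads (p : GG I) (h : Om I → ℕ → Prop) (z : ℕ → Set (GG I)) : Prop :=
  ∀ y k, ∃ (F : Finset I) (n : ℕ), (h y k ∧ p * iota F n y ∈ meets (z k)) ∨
    (¬ h y k ∧ p * iota F n y ∈ fnot (meets (z k)))

omit [WellFoundedLT I] in
theorem Reads.mul {p : GG I} {h : Om I → ℕ → Prop} {z : ℕ → Set (GG I)} (hr : Reads p h z)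
    (r : GG I) : Reads (p * r) (fun y => h (r.act y)) z := by
  intro y k
  obtain ⟨F, n, h1⟩ := hr (r.act y) k
  obtain ⟨F', n', s, h2⟩ := exists_box r y F n
  refine ⟨F', n', ?_⟩
  rw [mul_assoc, h2, ← mul_assoc]
  rcases h1 with ⟨h1, h3⟩ | ⟨h1, h3⟩
  · exact Or.inl ⟨h1, meets_down h3 (GG.mul_le _ _)⟩
  · exact Or.inr ⟨h1, fnot_down h3 (GG.mul_le _ _)⟩

omit [WellFoundedLT I] in
/-- two boxes around the same point are compatible -/
theorem box_compat (p : GG I) (y : Om I) (F F' : Finset I) (n n' : ℕ) :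
    ∃ r, r ≤ p * iota F n y ∧ r ≤ p * iota F' n' y := by
  classical
  have hag := iota_agree (F ∪ F') (max n n') y
  obtain ⟨s, hs, -⟩ := factor (r := iota (F ∪ F') (max n n') y) (F := F) (n := n) (y := y)
    (fun x γ hγ i hi => hag x γ (Finset.mem_union_left _ hγ) i (lt_max_of_lt_left hi))
  obtain ⟨s', hs', -⟩ := factor (r := iota (F ∪ F') (max n n') y) (F := F') (n := n') (y := y)
    (fun x γ hγ i hi => hag x γ (Finset.mem_union_right _ hγ) i (lt_max_of_lt_right hi))
  refine ⟨p * iota (F ∪ F') (max n n') y, ⟨s, ?_⟩, ⟨s', ?_⟩⟩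
  · rw [mul_assoc, ← hs]
  · rw [mul_assoc, ← hs']

theorem exists_reads (p : GG I) (z : ℕ → Set (GG I)) :
    ∃ (t : GG I) (h : Om I → ℕ → Prop) (A : Set I), A.Countable ∧
      (∀ k x, ∀ᶠ x' in N A x, (h x' k ↔ h x k)) ∧ Reads (p * t) h z := by
  classical
  obtain ⟨t, -, -, ht⟩ := fus_univ (fun k => {q | p * q ∈ meets (z k) ∨ p * q ∈ fnot (meets (z k))})
    (fun k a b _ _ h => by
      rcases h with h | h
      · exact Or.inl (by rw [← mul_assoc]; exact meets_down h (GG.mul_le _ _))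
      · exact Or.inr (by rw [← mul_assoc]; exact fnot_down h (GG.mul_le _ _)))
    (fun k a _ => by
      by_cases h : p * a ∈ fnot (meets (z k))
      · exact ⟨1, InS.one, Or.inr (by rw [mul_one]; exact h)⟩
      · rw [mem_fnot] at h
        push Not at h
        obtain ⟨q, ⟨r, hr⟩, hq⟩ := h
        exact ⟨r, InS.univ _, Or.inl (by rw [← mul_assoc, ← hr]; exact hq)⟩) ∅ (by simp) 0
  choose A hA _ hAy using ht
  set h : Om I → ℕ → Prop := fun y k => ∃ (F : Finset I) (n : ℕ),
    p * t * iota F n y ∈ meets (z k) with hh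
  have key : ∀ y k, ∃ F : Finset I, ↑F ⊆ A k ∧ ∃ n,
      (h y k ∧ p * t * iota F n y ∈ meets (z k)) ∨
        (¬ h y k ∧ p * t * iota F n y ∈ fnot (meets (z k))) := by
    intro y k
    obtain ⟨F, hF, n, h1⟩ := hAy k y
    refine ⟨F, hF, n, ?_⟩
    rw [mem_ofPred_eq, ← mul_assoc] at h1
    rcases h1 with h1 | h1
    · exact Or.inl ⟨⟨F, n, h1⟩, h1⟩
    · refine Or.inr ⟨?_, h1⟩
      rintro ⟨F', n', h2⟩
      obtain ⟨r, hr1, hr2⟩ := box_compat (p * t) y F F' n n'
      exact h1 r hr1 (meets_down h2 hr2)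
  refine ⟨t, h, ⋃ k, A k, countable_iUnion hA, ?_, ?_⟩
  · intro k x
    apply N_anti (subset_iUnion A k)
    obtain ⟨F, hF, n, h1⟩ := key x k
    refine ⟨F, hF, n, fun x' hx' => ?_⟩
    show (h x' k ↔ h x k)
    have hic := iota_congr hx'
    rcases h1 with ⟨h1, h2⟩ | ⟨h1, h2⟩
    · exact ⟨fun _ => h1, fun _ => ⟨F, n, by rw [hic]; exact h2⟩⟩
    · refine ⟨?_, fun h3 => absurd h3 h1⟩
      rintro ⟨F', n', h3⟩
      exfalso
      obtain ⟨r, hr1, hr2⟩ := box_compat (p * t) x' F F' n n'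
      rw [hic] at hr1
      exact h2 r hr1 (meets_down h3 hr2)
  · intro y k
    obtain ⟨F, _, n, h1⟩ := key y k
    exact ⟨F, n, h1⟩

end Pool.Agent.Helper467_LV
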