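import Mathlib
import Pool.Agent.R594.Star.CH
import Pool.Agent.Helper467_LV.Names

/-!
The index set, and a reflection argument.
-/

set_option autoImplicit false

namespace Pool.Agent.Helper467_LV

open Set Filter Cardinal
open Pool.Agent.Helper126.Sus.Forc (K1)
open Pool.Agent.R594.Star (exists_gt_K1 mk_K1)

/-- `2 ^ (2 ^ ℵ₀)` -/
noncomputable def mu : Cardinal.{0} := 2 ^ 𝔠

/-- the index set: the ordinals below the successor of `mu` -/
abbrev II : Type := (Order.succ mu).ord.ToType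

theorem aleph0_le_mu : ℵ₀ ≤ mu := aleph0_le_continuum.trans (cantor 𝔠).le

theorem continuum_le_mu : 𝔠 ≤ mu := (cantor 𝔠).le

theorem mu_pow : mu ^ ℵ₀ = mu := by
  unfold mu
  rw [← power_mul, mul_eq_left aleph0_le_continuum aleph0_le_continuum aleph0_ne_zero]

theorem mu_mul : mu * mu = mu := mul_eq_self aleph0_le_mu

theorem mk_II : #II = Order.succ mu := mk_ord_toType _

theorem mk_Iio_II (a : II) : #(Iio a) ≤ mu := by
  have h := mk_Iio_lt a (by simp)
  rw [mk_II] at h
  exact Order.lt_succ_iff.mp h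

theorem exists_bound {ι : Type} (hι : #ι ≤ mu) (f : ι → II) : ∃ a, ∀ i, f i < a := by
  by_contra hcon
  push Not at hcon
  have h1 : (Set.univ : Set II) ⊆ ⋃ i, (Iio (f i) ∪ {f i}) := by
    intro b _
    obtain ⟨i, hi⟩ := hcon b
    refine mem_iUnion.mpr ⟨i, ?_⟩
    rcases hi.lt_or_eq with h | h
    · exact Or.inl h
    · exact Or.inr h
  have h2 : #II ≤ mu := by
    rw [← mk_univ]
    refine (mk_le_mk_of_subset h1).trans ?_
    refine (mk_iUnion_le_sum_mk).trans ((sum_le_mk_mul_iSup _).trans ?_)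
    refine (mul_le_mul' hι (ciSup_le' fun i => ?_)).trans mu_mul.le
    refine (mk_union_le _ _).trans ?_
    rw [mk_singleton]
    exact (add_le_add (mk_Iio_II _) (one_le_aleph0.trans aleph0_le_mu)).trans
      (add_eq_self aleph0_le_mu).le
  rw [mk_II] at h2
  exact absurd h2 (not_le.mpr (Order.lt_succ mu))

theorem exists_bound_countable (C : Set II) (hC : C.Countable) : ∃ a, ∀ x ∈ C, x < a := by
  obtain ⟨a, ha⟩ := exists_bound (ι := C)
    ((le_aleph0_iff_set_countable.mpr hC).trans aleph0_le_mu) (fun x => x.1)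
  exact ⟨a, fun x hx => ha ⟨x, hx⟩⟩

/-- closure points of uncountable cofinality -/
theorem exists_closure_point (a₀ : II) (F : II → II) :
    ∃ α, a₀ < α ∧ (∀ C : Set II, C.Countable → C ⊆ Iio α → ∃ b, b < α ∧ ∀ x ∈ C, x < b) ∧
      ∀ β, β < α → F β < α := by
  classical
  have hstep : ∀ (ξ : K1) (g : ∀ η, η < ξ → II), ∃ a : II, a₀ < a ∧
      ∀ η (h : η < ξ), g η h < a ∧ ∀ β, β ≤ g η h → F β < a := by
    intro ξ g
    obtain ⟨a, ha⟩ := exists_bound (ι := Option ((Σ η : {η // η < ξ}, Iic (g η.1 η.2)) ⊕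
      {η // η < ξ})) (by
        rw [mk_option, mk_sum, lift_id, lift_id]
        have e1 : #{η // η < ξ} ≤ mu := by
          refine (mk_subtype_le _).trans ?_
          rw [mk_K1]
          exact aleph_one_le_continuum.trans continuum_le_mu
        have e2 : #(Σ η : {η // η < ξ}, Iic (g η.1 η.2)) ≤ mu := by
          rw [mk_sigma]
          refine (sum_le_mk_mul_iSup _).trans ((mul_le_mul' e1 (ciSup_le' fun i => ?_)).trans
            mu_mul.le)
          have h5 : Iic (g i.1 i.2) ⊆ Iio (g i.1 i.2) ∪ {g i.1 i.2} := by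
            intro x hx
            rcases (mem_Iic.mp hx).lt_or_eq with h | h
            · exact Or.inl h
            · exact Or.inr h
          refine (mk_le_mk_of_subset h5).trans ((mk_union_le _ _).trans ?_)
          rw [mk_singleton]
          exact (add_le_add (mk_Iio_II _) (one_le_aleph0.trans aleph0_le_mu)).trans
            (add_eq_self aleph0_le_mu).le
        refine (add_le_add (add_le_add e2 e1) (one_le_aleph0.trans aleph0_le_mu)).trans ?_
        rw [add_eq_self aleph0_le_mu, add_eq_self aleph0_le_mu])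
      (fun o => match o with
        | none => a₀
        | some (Sum.inl x) => F x.2.1
        | some (Sum.inr η) => g η.1 η.2)
    refine ⟨a, ha none, fun η h => ⟨ha (some (Sum.inr ⟨η, h⟩)), fun β hβ => ?_⟩⟩
    exact ha (some (Sum.inl ⟨⟨η, h⟩, ⟨β, hβ⟩⟩))
  choose nx hnx1 hnx2 using hstep
  set s : K1 → II := (wellFounded_lt : WellFounded (fun a b : K1 => a < b)).fix
    (fun ξ ih => nx ξ ih) with hs
  have hs1 : ∀ ξ, s ξ = nx ξ (fun η _ => s η) := fun ξ => by
    rw [hs, WellFounded.fix_eq]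
  have hs2 : ∀ ξ, a₀ < s ξ := fun ξ => by rw [hs1]; exact hnx1 _ _
  have hs3 : ∀ ξ η, η < ξ → s η < s ξ ∧ ∀ β, β ≤ s η → F β < s ξ := by
    intro ξ η h
    have := hnx2 ξ (fun η _ => s η) η h
    rw [← hs1] at this
    exact this
  have hne : {i : II | ∀ ξ, s ξ < i}.Nonempty := by
    obtain ⟨a, ha⟩ := exists_bound (ι := K1) (by
      rw [mk_K1]
      exact aleph_one_le_continuum.trans continuum_le_mu) s
    exact ⟨a, ha⟩
  set α := (wellFounded_lt : WellFounded (fun a b : II => a < b)).min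
    {i : II | ∀ ξ, s ξ < i} hne with hα
  have hα1 : ∀ ξ, s ξ < α :=
    (wellFounded_lt : WellFounded (fun a b : II => a < b)).min_mem _ hne
  have hα2 : ∀ β, β < α → ∃ ξ, β ≤ s ξ := by
    intro β hβ
    by_contra hcon
    push Not at hcon
    exact (wellFounded_lt : WellFounded (fun a b : II => a < b)).not_lt_min
      {i : II | ∀ ξ, s ξ < i} hcon hβ
  obtain ⟨ξ₀, -⟩ := exists_gt_K1 (C := ∅) countable_empty
  refine ⟨α, (hs2 ξ₀).trans (hα1 ξ₀), ?_, ?_⟩
  · intro C hC hCα
    have h1 : ∀ x : C, ∃ ξ, x.1 ≤ s ξ := fun x => hα2 x.1 (hCα x.2)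
    choose ξ hξ using h1
    have : Countable C := hC.to_subtype
    obtain ⟨η, hη⟩ := exists_gt_K1 (countable_range ξ)
    refine ⟨s η, hα1 η, fun x hx => ?_⟩
    exact (hξ ⟨x, hx⟩).trans_lt (hs3 η (ξ ⟨x, hx⟩) (hη _ ⟨_, rfl⟩)).1
  · intro β hβ
    obtain ⟨ξ, hξ⟩ := hα2 β hβ
    obtain ⟨η, hη⟩ := exists_gt_K1 (countable_singleton ξ)
    exact ((hs3 η ξ (hη ξ rfl)).2 β hξ).trans (hα1 η)

/-- the index set of the guiding principle: an element of the monoid, a continuous function, and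
two ground model objects -/
abbrev Wd : Type := GG II × (Om II → List ℕ → ℕ → ℕ → Prop) × (List ℕ → ℕ) × ℕ

/-- `V` depends on countably many coordinates below `β` -/
def VBelow (β : II) (V : Om II → List ℕ → ℕ → ℕ → Prop) : Prop :=
  ∃ A : Set II, A.Countable ∧ A ⊆ Iio β ∧ ∀ x x', (∀ γ ∈ A, x γ = x' γ) → V x = V x'

/-- the index `w` is concerned with the coordinates below `β` only -/
def Below (β : II) (w : Wd) : Prop := InS (Iio β) w.1 ∧ VBelow β w.2.1

/-- a point with given values at the coordinates in a sequence -/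
noncomputable def extp {β : II} (a : ℕ → Iic β) (z : ℕ → ℕ → ℕ) : Om II := by
  classical
  exact fun γ => if h : ∃ m, (a m : II) = γ then z (Nat.find h) else fun _ => 0

theorem extp_eq {β : II} (a : ℕ → Iic β) (x : Om II) {γ : II} (h : ∃ m, (a m : II) = γ) :
    extp a (fun m => x (a m)) γ = x γ := by
  classical
  unfold extp
  rw [dif_pos h]
  have h1 : (a (Nat.find h) : II) = γ := Nat.find_spec h
  show x (a (Nat.find h)) = x γ
  rw [h1]

theorem exists_cover {β : II} {A : Set II} (hA : A.Countable) (hAβ : A ⊆ Iio β) :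
    ∃ a : ℕ → Iic β, ∀ γ ∈ A, ∃ m, (a m : II) = γ := by
  have h1 : {x : Iic β | x.1 ∈ A}.Countable := hA.preimage Subtype.val_injective
  have : Nonempty (Iic β) := ⟨⟨β, mem_Iic.mpr le_rfl⟩⟩
  obtain ⟨e, he⟩ := countable_iff_exists_subset_range.1 h1
  refine ⟨e, fun γ hγ => ?_⟩
  obtain ⟨m, hm⟩ := he (show (⟨γ, mem_Iic.mpr (le_of_lt (hAβ hγ))⟩ : Iic β) ∈
    {x : Iic β | x.1 ∈ A} from hγ)
  exact ⟨m, by rw [hm]⟩

theorem mk_Iic_II (β : II) : #(Iic β) ≤ mu := by
  have h5 : Iic β ⊆ Iio β ∪ {β} := by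
    intro x hx
    rcases (mem_Iic.mp hx).lt_or_eq with h | h
    · exact Or.inl h
    · exact Or.inr h
  refine (mk_le_mk_of_subset h5).trans ((mk_union_le _ _).trans ?_)
  rw [mk_singleton]
  exact (add_le_add (mk_Iio_II _) (one_le_aleph0.trans aleph0_le_mu)).trans
    (add_eq_self aleph0_le_mu).le

theorem mk_seq_le (β : II) : #(ℕ → Iic β) ≤ mu := by
  rw [← power_def, mk_nat]
  exact (power_le_power_right (mk_Iic_II β)).trans mu_pow.le

theorem mk_real : #(ℕ → ℕ → ℕ) = 𝔠 := by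
  rw [← power_def, ← power_def, mk_nat, ← power_mul, aleph0_mul_aleph0, aleph0_power_aleph0]

theorem mk_LE_le : #LE ≤ 𝔠 := by
  refine (mk_le_of_injective (f := LE.tr) (fun a b h => LE.ext h)).trans ?_
  rw [← power_def]
  have h1 : #(List ℕ) = ℵ₀ := by
    rw [mk_list_eq_aleph0]
  rw [h1, aleph0_power_aleph0]

theorem power_mu {a : Cardinal.{0}} (h : a ≤ 𝔠) : a ^ 𝔠 ≤ mu := by
  refine (power_le_power_right h).trans ?_
  unfold mu
  have h1 : (𝔠 : Cardinal.{0}) ^ (𝔠 : Cardinal.{0}) = (2 ^ ℵ₀) ^ (𝔠 : Cardinal.{0}) := by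
    rw [two_power_aleph0]
  rw [h1, ← power_mul, mul_eq_right aleph0_le_continuum aleph0_le_continuum aleph0_ne_zero]

theorem mk_GG_le (β : II) : #{q : GG II // InS (Iio β) q} ≤ mu := by
  classical
  have hA : ∀ q : {q : GG II // InS (Iio β) q}, ∃ a : ℕ → Iic β, ∀ γ ∈ q.1.A ∩ Iio β,
      ∃ m, (a m : II) = γ := fun q =>
    exists_cover (q.1.A_countable.mono inter_subset_left) inter_subset_right
  choose a ha using hA
  set code : {q : GG II // InS (Iio β) q} → (ℕ → Iic β) × (ℕ → (ℕ → ℕ → ℕ) → LE) :=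
    fun q => (a q, fun n z => q.1.E (a q n) (extp (a q) z)) with hcode
  have hS : ∀ q : {q : GG II // InS (Iio β) q}, Supp (q.1.A ∩ Iio β) q.1.E := fun q =>
    q.2.supp q.1.A_supp (isLowerSet_Iio β)
  have key : ∀ q : {q : GG II // InS (Iio β) q}, ∀ n x,
      q.1.E (a q n) x = q.1.E (a q n) (extp (a q) (fun m => x (a q m))) := by
    intro q n x
    apply (hS q).congr
    intro δ hδ _
    exact (extp_eq (a q) x (ha q δ hδ)).symm
  have hinj : Function.Injective code := by
    intro q q' h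
    have h1 : a q = a q' := congrArg Prod.fst h
    have h2 : ∀ n z, q.1.E (a q n) (extp (a q) z) = q'.1.E (a q' n) (extp (a q') z) :=
      fun n z => congrFun (congrFun (congrArg Prod.snd h) n) z
    apply Subtype.ext
    apply GG.ext_E
    funext γ x
    by_cases hγ : ∃ m, (a q m : II) = γ
    · obtain ⟨m, rfl⟩ := hγ
      rw [key q, h2, h1]
      exact (key q' m x).symm
    · have h3 : ∀ r : {q : GG II // InS (Iio β) q}, a r = a q → r.1.E γ x = 1 := by
        intro r hr
        apply (hS r).1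
        intro h4
        apply hγ
        rw [← hr]
        exact ha r γ h4
      rw [h3 q rfl, h3 q' h1.symm]
  refine (mk_le_of_injective hinj).trans ?_
  rw [mk_prod, lift_id, lift_id]
  refine (mul_le_mul' (mk_seq_le β) ?_).trans mu_mul.le
  rw [← power_def, ← power_def, mk_nat, mk_real]
  refine (power_le_power_right (power_mu mk_LE_le)).trans mu_pow.le

theorem mk_V_le (β : II) : #{V : Om II → List ℕ → ℕ → ℕ → Prop // VBelow β V} ≤ mu := by
  classical
  have hA : ∀ V : {V : Om II → List ℕ → ℕ → ℕ → Prop // VBelow β V}, ∃ a : ℕ → Iic β,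
      ∀ x x', (∀ m, x (a m) = x' (a m)) → V.1 x = V.1 x' := by
    rintro ⟨V, A, hA, hAβ, hV⟩
    obtain ⟨a, ha⟩ := exists_cover hA hAβ
    refine ⟨a, fun x x' h => hV x x' (fun γ hγ => ?_)⟩
    obtain ⟨m, rfl⟩ := ha γ hγ
    exact h m
  choose a ha using hA
  set code : {V : Om II → List ℕ → ℕ → ℕ → Prop // VBelow β V} →
      (ℕ → Iic β) × ((ℕ → ℕ → ℕ) → List ℕ → ℕ → ℕ → Prop) :=
    fun V => (a V, fun z => V.1 (extp (a V) z)) with hcode
  have hinj : Function.Injective code := by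
    intro V V' h
    have h1 : a V = a V' := congrArg Prod.fst h
    have h2 : ∀ z, V.1 (extp (a V) z) = V'.1 (extp (a V') z) :=
      fun z => congrFun (congrArg Prod.snd h) z
    have key : ∀ (V : {V : Om II → List ℕ → ℕ → ℕ → Prop // VBelow β V}) x,
        V.1 x = V.1 (extp (a V) (fun m => x (a V m))) := by
      intro V x
      apply ha V
      intro m
      exact (extp_eq (a V) x ⟨m, rfl⟩).symm
    apply Subtype.ext
    funext x
    rw [key V x, key V' x, h2, h1]
  refine (mk_le_of_injective hinj).trans ?_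
  rw [mk_prod, lift_id, lift_id]
  refine (mul_le_mul' (mk_seq_le β) ?_).trans mu_mul.le
  rw [← power_def, mk_real]
  apply power_mu
  rw [← power_def, ← power_def, ← power_def, mk_nat, mk_list_eq_aleph0, mk_Prop,
    ← power_mul, ← power_mul, aleph0_mul_aleph0, aleph0_mul_aleph0, two_power_aleph0]

theorem mk_below_le (β : II) : #{w : Wd // Below β w} ≤ mu := by
  set f : {w : Wd // Below β w} → {q : GG II // InS (Iio β) q} ×
      {V : Om II → List ℕ → ℕ → ℕ → Prop // VBelow β V} × (List ℕ → ℕ) × ℕ :=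
    fun w => (⟨w.1.1, w.2.1⟩, ⟨w.1.2.1, w.2.2⟩, w.1.2.2.1, w.1.2.2.2) with hf
  have hinj : Function.Injective f := by
    rintro ⟨⟨q, V, n, c⟩, h1⟩ ⟨⟨q', V', n', c'⟩, h2⟩ h
    simp only [hf, Prod.mk.injEq, Subtype.mk.injEq] at h
    obtain ⟨rfl, rfl, rfl, rfl⟩ := h
    rfl
  refine (mk_le_of_injective hinj).trans ?_
  simp only [mk_prod, lift_id]
  refine (mul_le_mul' (mk_GG_le β) ((mul_le_mul' (mk_V_le β) ?_).trans mu_mul.le)).trans mu_mul.le
  rw [← power_def, mk_nat, mk_list_eq_aleph0, aleph0_power_aleph0]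
  exact (mul_le_mul' continuum_le_mu aleph0_le_mu).trans mu_mul.le

/-- reflection: below some `α` the given sets are dense -/
theorem exists_reflect (a₀ : II) (D : Wd → List ℕ → ℕ → Set (GG II))
    (hD : ∀ w s k q, ∃ r, q * r ∈ D w s k) :
    ∃ α, a₀ < α ∧ (∀ C : Set II, C.Countable → C ⊆ Iio α → ∃ b, b < α ∧ ∀ x ∈ C, x < b) ∧
      ∀ w, Below α w → ∀ s k, DenseS (Iio α) (D w s k) := by
  classical
  choose r hr using hD
  have hb : ∀ w s k q, ∃ b : II, InS (Iio b) (r w s k q) := by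
    intro w s k q
    obtain ⟨b, hb⟩ := exists_bound_countable _ (r w s k q).A_countable
    exact ⟨b, fun γ hγ x => (r w s k q).A_supp.1 γ (fun h => hγ (hb γ h)) x⟩
  choose b hb using hb
  have hF : ∀ β : II, ∃ a, ∀ (q : {q : GG II // InS (Iio β) q}) (w : {w : Wd // Below β w})
      (s : List ℕ) (k : ℕ), b w.1 s k q.1 < a := by
    intro β
    obtain ⟨a, ha⟩ := exists_bound (ι := {q : GG II // InS (Iio β) q} × {w : Wd // Below β w} ×
      List ℕ × ℕ) (by
        simp only [mk_prod, lift_id]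
        refine (mul_le_mul' (mk_GG_le β) ((mul_le_mul' (mk_below_le β) ?_).trans
          mu_mul.le)).trans mu_mul.le
        rw [mk_nat, mk_list_eq_aleph0, aleph0_mul_aleph0]
        exact aleph0_le_mu) (fun p => b p.2.1.1 p.2.2.1 p.2.2.2 p.1.1)
    exact ⟨a, fun q w s k => ha (q, w, s, k)⟩
  choose F hF using hF
  obtain ⟨α, h1, h2, h3⟩ := exists_closure_point a₀ F
  refine ⟨α, h1, h2, fun w hw s k p hp => ?_⟩
  obtain ⟨hw1, A, hA, hAα, hV⟩ := hw
  obtain ⟨b₁, hb₁, hb₁'⟩ := h2 ((p.A ∩ Iio α) ∪ (w.1.A ∩ Iio α) ∪ A)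
    (((p.A_countable.mono inter_subset_left).union
      (w.1.A_countable.mono inter_subset_left)).union hA)
    (union_subset (union_subset inter_subset_right inter_subset_right) hAα)
  have hS : ∀ q : GG II, InS (Iio α) q → (∀ x ∈ q.A ∩ Iio α, x < b₁) → InS (Iio b₁) q := by
    intro q hq h γ hγ x
    apply (hq.supp q.A_supp (isLowerSet_Iio α)).1
    exact fun h' => hγ (h γ h')
  have hp' : InS (Iio b₁) p := hS p hp (fun x hx => hb₁' x (Or.inl (Or.inl hx)))
  have hw' : Below b₁ w := ⟨hS w.1 hw1 (fun x hx => hb₁' x (Or.inl (Or.inr hx))),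
    A, hA, fun x hx => hb₁' x (Or.inr hx), hV⟩
  refine ⟨r w s k p, ?_, hr w s k p⟩
  apply (hb w s k p).mono
  intro γ hγ
  exact (mem_Iio.mp hγ).trans ((hF b₁ ⟨p, hp'⟩ ⟨w, hw'⟩ s k).trans (h3 b₁ hb₁))

end Pool.Agent.Helper467_LV
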