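import Mathlib
import Pool.Agent.Helper467_LV.Names

/-!
The generic functions form a scale.
-/

set_option autoImplicit false

namespace Pool.Agent.Helper467_LV

open Set Filter
open Pool.Agent.Helper126.Sus.Forc
open Pool.Agent.W876.Two.Gen (IsFun)

theorem LE.le_map (e : LE) (z : ℕ → ℕ) (i : ℕ) : z i ≤ e.map z ((e.tr []).length + i) := by
  have h1 := e.map_pre z (i + 1)
  obtain ⟨j, hj, hj'⟩ := e.spec (pre z i)
  rw [pre_succ, hj'] at h1
  have h2 := apply_of_pre (v := []) h1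
  rw [e.tr_length, pre_length] at h2
  rw [h2]
  exact hj.le_apply

/-- adding a function -/
def addLE (f : ℕ → ℕ) : LE where
  tr := fun l => l.mapIdx (fun i m => f i + m)
  spec := by
    intro l
    refine ⟨fun m => f l.length + m, fun a b hab => by simpa using hab, fun m => ?_⟩
    rw [List.mapIdx_append]
    simp

theorem addLE_map (f z : ℕ → ℕ) : (addLE f).map z = fun i => f i + z i := by
  symm
  apply LE.map_eq_of
  intro n
  show pre _ (List.mapIdx _ (pre z n)).length = List.mapIdx _ (pre z n)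
  apply List.ext_getElem
  · simp [pre_length]
  · intro i h1 h2
    rw [pre_getElem, List.getElem_mapIdx, pre_getElem]

theorem addLE_tr_congr {f g : ℕ → ℕ} {l : List ℕ} (h : ∀ i, i < l.length → f i = g i) :
    (addLE f).tr l = (addLE g).tr l := by
  show List.mapIdx _ l = List.mapIdx _ l
  apply List.ext_getElem
  · simp
  · intro i h1 h2
    rw [List.getElem_mapIdx, List.getElem_mapIdx, h i (by simpa using h1)]

variable {I : Type} [LinearOrder I]

/-- adding functions at one coordinate, depending on the coordinates below -/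
theorem exists_add (b : I) {A : Set I} (hA : A.Countable) (hAb : A ⊆ Iio b)
    (f : ℕ → Om I → ℕ) (hf : ∀ i x, ∀ᶠ x' in N A x, f i x' = f i x) :
    ∃ t : GG I, InS {b} t ∧ (∀ x, t.act x b = fun i => f i x + x b i) := by
  classical
  have hS : Supp (A ∪ {b}) (fun γ x => if γ = b then addLE (fun i => f i x) else 1) := by
    constructor
    · intro γ hγ x
      exact if_neg (fun h => hγ (Or.inr h))
    · intro γ x l
      by_cases hγ : γ = b
      · subst hγ
        simp only [if_true]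
        have h1 : ∀ᶠ x' in N A x, ∀ i ∈ Finset.range l.length, f i x' = f i x := by
          rw [Filter.eventually_all_finset]
          exact fun i _ => hf i x
        have h2 := N_anti (show A ⊆ (A ∪ {γ}) ∩ Iio γ from fun δ hδ => ⟨Or.inl hδ, hAb hδ⟩) x h1
        filter_upwards [h2] with x' h3
        exact addLE_tr_congr (fun i hi => h3 i (Finset.mem_range.mpr hi))
      · simp only [if_neg hγ]
        exact Filter.Eventually.of_forall (fun _ => trivial)
  refine ⟨⟨_, A ∪ {b}, hA.union (countable_singleton b), hS⟩, ?_, ?_⟩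
  · intro γ hγ x
    exact if_neg hγ
  · intro x
    show (if b = b then addLE (fun i => f i x) else 1).map (x b) = _
    rw [if_pos rfl, addLE_map]

/-- making the stem at a coordinate constant -/
theorem exists_const_stem (q : GG I) (b : I) (y : Om I) :
    ∃ (F : Finset I) (n : ℕ) (σ : List ℕ), ↑F ⊆ Iio b ∧
      ∀ x, ((q * iota F n y).E b x).tr [] = σ := by
  obtain ⟨F, hF, n, h1⟩ := q.A_supp.2 b y []
  refine ⟨F, n, (q.E b y).tr [], hF.trans inter_subset_right, fun x => ?_⟩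
  have hb : b ∉ Iio b := by simp
  rw [GG.mul_E, iota_inS F n y (hF.trans inter_subset_right) b hb, mul_one]
  exact h1 _ (iota_agree F n y x)

theorem meets_of_box {p : GG I} {F : Finset I} {n : ℕ} {y : Om I} {Z : Set (GG I)}
    (h : p * iota F n y ∈ meets Z) {r : GG I}
    (hr : ∀ v, ∀ γ ∈ F, ∀ i, i < n → r.act v γ i = y γ i) : p * r ∈ meets Z := by
  obtain ⟨s, hs, -⟩ := factor hr
  rw [hs, ← mul_assoc]
  exact meets_down h (GG.mul_le _ _)

theorem fex_intro {P : Type} [Preorder P] {ι : Type} {φ : ι → Set P} {r : P} (i : ι)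
    (h : ∀ q ≤ r, q ∈ φ i) : r ∈ fex φ := by
  rw [mem_fex]
  exact fun q hq => ⟨q, le_rfl, i, h q hq⟩

theorem leAtN_intro {P : Type} [Preorder P] {f g : ℕ → ℕ → Set P} {n : ℕ} {r : P}
    (h : ∀ q ≤ r, ∃ q' ≤ q, ∃ u v, u ≤ v ∧ q' ∈ meets (f n u) ∧ q' ∈ meets (g n v)) :
    r ∈ LeAtN f g n := by
  unfold LeAtN
  rw [mem_fex]
  intro q hq
  obtain ⟨q', hq', u, v, huv, h1, h2⟩ := h q hq
  exact ⟨q', hq', u, fex_intro v (fun s hs => ⟨⟨meets_down h1 hs, meets_down h2 hs⟩, huv⟩)⟩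

/-- the generic functions -/
def gen (a : I) (n m : ℕ) : Set (GG I) := nm 1 (fun v : Om I => v a n) m

theorem mem_gen {a : I} {n m : ℕ} {r : GG I} (h : ∀ v, r.act v a n = m) :
    r ∈ meets (gen a n m) :=
  meets_of_mem ⟨r, by rw [one_mul], h⟩

variable [WellFoundedLT I]

theorem gen_isFun (a : I) (p : GG I) : p ∈ IsFun (gen a) :=
  isFun_nm (p := 1) ⟨p, by rw [one_mul]⟩ (fun n x => N_coord x (mem_univ a) n)

omit [WellFoundedLT I] in
theorem gen_incr {a b : I} (hab : a < b) (p : GG I) :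
    p ∈ fex fun k => fall fun n => fall fun _ : k ≤ n => LeAtN (gen a) (gen b) n := by
  rw [mem_fex]
  intro q _
  obtain ⟨F, n₀, σ, hF, hσ⟩ := exists_const_stem q b (fun _ _ => 0)
  set q₁ := q * iota F n₀ (fun _ _ => 0) with hq₁
  obtain ⟨t, ht1, ht2⟩ := exists_add b (A := (q₁.A ∪ {a}) ∩ Iio b)
    ((q₁.A_countable.union (countable_singleton a)).mono inter_subset_left) inter_subset_right
    (fun i x => q₁.act x a (σ.length + i)) (fun i x => by
      apply N_anti _ x (q₁.act_eventually q₁.A_supp a (σ.length + i) x)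
      rintro γ (hγ | rfl)
      · exact ⟨Or.inl hγ.1, lt_trans (mem_Iio.mp hγ.2) hab⟩
      · exact ⟨Or.inr rfl, hab⟩)
  have key : ∀ y n, σ.length ≤ n → (q₁ * t).act y a n ≤ (q₁ * t).act y b n := by
    intro y n hn
    obtain ⟨i, rfl⟩ := Nat.exists_eq_add_of_le hn
    rw [GG.mul_act]
    have h1 : q₁.act (t.act y) a = q₁.act y a := by
      apply GG.act_congr
      intro δ hδ
      exact ht1.act (by simpa using (hδ.trans_lt hab).ne) y
    have h2 : q₁.act (t.act y) b = (q₁.E b (t.act y)).map (t.act y b) := rfl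
    rw [h1, h2]
    have h3 := LE.le_map (q₁.E b (t.act y)) (t.act y b) i
    rw [hσ] at h3
    refine le_trans ?_ h3
    rw [ht2]
    exact Nat.le_add_right _ _
  refine ⟨q₁ * t, (GG.mul_le _ _).trans (GG.mul_le _ _), σ.length, ?_⟩
  intro n hn
  apply leAtN_intro
  rintro r ⟨s, rfl⟩
  set r := q₁ * t * s with hr
  obtain ⟨F', n', h4⟩ := exists_refine r (fun _ _ => 0)
    (Q := fun x' => x' a n = r.act (fun _ _ => 0) a n ∧ x' b n = r.act (fun _ _ => 0) b n)
    ((N_coord _ (mem_univ a) n).and (N_coord _ (mem_univ b) n))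
  refine ⟨r * iota F' n' (fun _ _ => 0), GG.mul_le _ _, r.act (fun _ _ => 0) a n,
    r.act (fun _ _ => 0) b n, ?_, ?_, ?_⟩
  · rw [hr, GG.mul_act]
    exact key _ n hn
  · exact mem_gen (fun v => by rw [GG.mul_act]; exact (h4 v).1)
  · exact mem_gen (fun v => by rw [GG.mul_act]; exact (h4 v).2)

/-- reading a name of a function -/
theorem exists_reads_fun (q : GG I) (f : ℕ → ℕ → Set (GG I)) (hf : q ∈ IsFun f) :
    ∃ (t : GG I) (φ : ℕ → Om I → ℕ) (A : Set I), A.Countable ∧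
      (∀ k x, ∀ᶠ x' in N A x, φ k x' = φ k x) ∧
      ∀ y k, ∃ (F : Finset I) (n : ℕ), ↑F ⊆ A ∧ q * t * iota F n y ∈ meets (f k (φ k y)) := by
  classical
  obtain ⟨t, -, -, ht⟩ := fus_univ (fun k => {s | ∃ m, q * s ∈ meets (f k m)})
    (fun k a b _ _ ⟨m, h⟩ => ⟨m, by rw [← mul_assoc]; exact meets_down h (GG.mul_le _ _)⟩)
    (fun k a _ => by
      obtain ⟨r, ⟨s, hs⟩, m, hm⟩ := mem_fex.1 (hf.1 k) (q * a) (GG.mul_le _ _)
      exact ⟨s, InS.univ _, m, by rw [← mul_assoc, ← hs]; exact hm⟩) ∅ (by simp) 0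
  choose A hA _ hAy using ht
  have h1 : ∀ k, ∃ (Fs : ℕ → Finset I) (ns : ℕ → ℕ) (xs : ℕ → Om I) (idx : Om I → ℕ),
      (∀ j, ↑(Fs j) ⊆ A k) ∧ (∀ x, ∀ᶠ x' in N (A k) x, idx x' = idx x) ∧
      ∀ y, (∀ γ ∈ Fs (idx y), ∀ i, i < ns (idx y) → y γ i = xs (idx y) γ i) ∧
        ∃ m, q * (t * iota (Fs (idx y)) (ns (idx y)) (xs (idx y))) ∈ meets (f k m) := by
    intro k
    apply exists_idx (hA k) (fun F n y => ∃ m, q * (t * iota F n y) ∈ meets (f k m))
    · intro y
      exact hAy k y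
    · rintro F n y y' hag ⟨m, hm⟩
      exact ⟨m, by rw [iota_congr hag]; exact hm⟩
  choose Fs ns xs idx h1 h2 h3 using h1
  have h4 : ∀ k j, ∃ m, (∃ m, q * (t * iota (Fs k j) (ns k j) (xs k j)) ∈ meets (f k m)) →
      q * (t * iota (Fs k j) (ns k j) (xs k j)) ∈ meets (f k m) := by
    intro k j
    by_cases h : ∃ m, q * (t * iota (Fs k j) (ns k j) (xs k j)) ∈ meets (f k m)
    · obtain ⟨m, hm⟩ := h
      exact ⟨m, fun _ => hm⟩
    · exact ⟨0, fun h' => absurd h' h⟩
  choose m hm using h4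
  refine ⟨t, fun k y => m k (idx k y), ⋃ k, A k, countable_iUnion hA, ?_, ?_⟩
  · intro k x
    apply N_anti (subset_iUnion A k)
    filter_upwards [h2 k x] with x' h5
    rw [h5]
  · intro y k
    obtain ⟨h5, h6⟩ := h3 k y
    refine ⟨Fs k (idx k y), ns k (idx k y), (h1 k _).trans (subset_iUnion A k), ?_⟩
    rw [iota_congr h5, mul_assoc]
    exact hm k _ h6

theorem gen_dom (hB : ∀ C : Set I, C.Countable → ∃ a, ∀ x ∈ C, x < a)
    (f : ℕ → ℕ → Set (GG I)) (p : GG I) :
    p ∈ fimp (IsFun f) (fex fun a => fex fun k => fall fun n => fall fun _ : k ≤ n =>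
      LeAtN f (gen a) n) := by
  rw [mem_fimp]
  intro q _ hf
  obtain ⟨t, φ, A, hA, hφ, hφ2⟩ := exists_reads_fun q f hf
  obtain ⟨a, ha⟩ := hB (A ∪ (q * t).A) (hA.union (q * t).A_countable)
  have hAa : A ⊆ Iio a := fun x hx => ha x (Or.inl hx)
  obtain ⟨t', ht1, ht2⟩ := exists_add a hA hAa φ hφ
  refine ⟨q * t * t', (GG.mul_le _ _).trans (GG.mul_le _ _), ?_⟩
  apply fex_intro a
  rintro q₁ ⟨s, rfl⟩
  apply fex_intro 0
  rintro q₂ ⟨s', rfl⟩ n _
  apply leAtN_intro
  rintro q₃ ⟨s'', rfl⟩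
  set s₁ := s * s' * s'' with hs₁
  have hq : q * t * t' * s * s' * s'' = q * t * (t' * s₁) := by
    rw [hs₁]; simp only [mul_assoc]
  rw [hq]
  set y := (t' * s₁).act (fun _ _ => 0) with hy
  obtain ⟨F, n₁, hFA, h1⟩ := hφ2 y n
  have hφy : ∀ᶠ x' in N Set.univ y, φ n x' = φ n y := N_anti (subset_univ A) y (hφ n y)
  obtain ⟨F', n', h2⟩ := exists_refine (t' * s₁) (fun _ _ => 0)
    (Q := fun x' => (∀ γ ∈ F, ∀ i, i < n₁ → x' γ i = y γ i) ∧ φ n x' = φ n y ∧
      x' a n = y a n)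
    ((N_agree y F (subset_univ _) n₁).and (hφy.and
      (N_coord _ (mem_univ a) n)))
  have haq : ∀ x, (q * t).act x a = x a := by
    intro x
    unfold GG.act
    rw [(q * t).A_supp.1 a (fun h => lt_irrefl a (ha a (Or.inr h))), LE.map_one]
  refine ⟨q * t * (t' * s₁) * iota F' n' (fun _ _ => 0), GG.mul_le _ _, φ n y, y a n, ?_, ?_, ?_⟩
  · rw [hy, GG.mul_act]
    have h3 : φ n (t'.act (s₁.act (fun _ _ => 0))) = φ n (s₁.act (fun _ _ => 0)) := by
      apply N_of_agree (hφ n (s₁.act (fun _ _ => 0)))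
      intro γ hγ
      exact ht1.act (by simpa using (show γ < a from hAa hγ).ne) _
    rw [h3, ht2]
    exact Nat.le_add_right _ _
  · rw [mul_assoc (q * t)]
    apply meets_of_box h1
    intro v γ hγ i hi
    rw [GG.mul_act]
    exact (h2 v).1 γ hγ i hi
  · apply mem_gen
    intro v
    rw [mul_assoc (q * t), GG.mul_act, haq, GG.mul_act]
    exact (h2 v).2.2

theorem scale_forced (hB : ∀ C : Set I, C.Countable → ∃ a, ∀ x ∈ C, x < a) (p : GG I) :
    p ∈ ScaleN (K := I) gen :=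
  ⟨fun a => gen_isFun a p, fun _ _ hab => gen_incr hab p, fun f => gen_dom hB f p⟩

end Pool.Agent.Helper467_LV
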