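import Mathlib
import Pool.Agent.Helper467_LV.Node

/-!
Combinatorial part of the argument about actual objects: under the guiding principle, squares of
Scheepers sets are Menger.
-/

set_option autoImplicit false

namespace Pool.Agent.Helper467_LV

open Filter

/-- families of sets: `O n k` depends on the first `k` values, and increases with `k` -/
structure Fam (O : ℕ → ℕ → (ℕ → Prop) → Prop) : Prop where
  /-- dependence on the first `k` values only -/
  dep : ∀ n k (x x' : ℕ → Prop), (∀ i, i < k → (x' i ↔ x i)) → O n k x → O n k x'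
  /-- monotonicity -/
  mono : ∀ n k x, O n k x → O n (k + 1) x

theorem Fam.mono' {O : ℕ → ℕ → (ℕ → Prop) → Prop} (h : Fam O) {n k k' : ℕ} (hk : k ≤ k')
    {x : ℕ → Prop} (hx : O n k x) : O n k' x := by
  induction k', hk using Nat.le_induction with
  | base => exact hx
  | succ k' _ ih => exact h.mono n k' x ih

/-- combinatorial form of the Scheepers property, for three points -/
def SchC (X : Set (ℕ → Prop)) : Prop :=
  ∀ O, Fam O → (∀ x ∈ X, ∀ n, ∃ k, O n k x) →
    ∃ f : ℕ → ℕ, ∀ a ∈ X, ∀ b ∈ X, ∀ d ∈ X, ∃ n, O n (f n) a ∧ O n (f n) b ∧ O n (f n) d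

/-- combinatorial form of the Hurewicz property -/
def HurC (X : Set (ℕ → Prop)) : Prop :=
  ∀ O, Fam O → (∀ x ∈ X, ∀ n, ∃ k, O n k x) →
    ∃ f : ℕ → ℕ, ∀ x ∈ X, ∃ n₀, ∀ n, n₀ ≤ n → O n (f n) x

/-- the first member of a coded pair -/
def lft (z : ℕ → Prop) : ℕ → Prop := fun i => z (2 * i)

/-- the second member of a coded pair -/
def rgt (z : ℕ → Prop) : ℕ → Prop := fun i => z (2 * i + 1)

/-- the codes of the pairs of points of `X` -/
def Sq (X : Set (ℕ → Prop)) : Set (ℕ → Prop) := {z | lft z ∈ X ∧ rgt z ∈ X}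

/-- combinatorial form of the Menger property of the square -/
def MenC (X : Set (ℕ → Prop)) : Prop :=
  ∀ O, Fam O → (∀ z ∈ Sq X, ∀ n, ∃ k, O n k z) →
    ∃ f : ℕ → ℕ, ∀ z ∈ Sq X, ∃ n, O n (f n) z

theorem exists_mono_seq (Q : ℕ → ℕ → Prop) (hQ : ∀ r k, ∃ m, k ≤ m ∧ Q r m) :
    ∃ t : ℕ → ℕ, StrictMono t ∧ ∀ r, Q r (t r) := by
  choose nx h1 h2 using hQ
  refine ⟨fun r => Nat.rec (nx 0 0) (fun r v => nx (r + 1) (v + 1)) r, ?_, ?_⟩
  · apply strictMono_nat_of_lt_succ
    intro r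
    exact h1 _ _
  · intro r
    cases r with
    | zero => exact h2 _ _
    | succ r => exact h2 _ _

/-- sequential compactness -/
theorem exists_conv (M : ℕ) (b : ℕ → ℕ → ℕ → Prop) :
    ∃ (u : ℕ → ℕ → Prop) (t : ℕ → ℕ), StrictMono t ∧
      ∀ r j, j < M → ∀ k, k < r → (b (t r) j k ↔ u j k) := by
  classical
  set p : Ultrafilter ℕ := hyperfilter ℕ with hp
  set u : ℕ → ℕ → Prop := fun j k => ∀ᶠ m in (p : Filter ℕ), b m j k with hu
  have h1 : ∀ j k, ∀ᶠ m in (p : Filter ℕ), (b m j k ↔ u j k) := by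
    intro j k
    by_cases h : u j k
    · filter_upwards [h] with m hm
      exact ⟨fun _ => h, fun _ => hm⟩
    · have h' : ∀ᶠ m in (p : Filter ℕ), ¬ b m j k := Ultrafilter.eventually_not.mpr h
      filter_upwards [h'] with m hm
      exact ⟨fun h2 => absurd h2 hm, fun h2 => absurd h2 h⟩
  have h2 : ∀ r : ℕ, ∀ᶠ m in (p : Filter ℕ), ∀ j ∈ Finset.range M, ∀ k ∈ Finset.range r,
      (b m j k ↔ u j k) := by
    intro r
    rw [Filter.eventually_all_finset]
    intro j _
    rw [Filter.eventually_all_finset]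
    intro k _
    exact h1 j k
  obtain ⟨t, ht, ht'⟩ := exists_mono_seq
    (fun r m => ∀ j ∈ Finset.range M, ∀ k ∈ Finset.range r, (b m j k ↔ u j k)) (by
      intro r k
      have h3 : ∀ᶠ m in (p : Filter ℕ), k ≤ m := by
        have h4 : (hyperfilter ℕ : Filter ℕ) ≤ atTop := by
          rw [← Nat.cofinite_eq_atTop]
          exact hyperfilter_le_cofinite
        exact h4 (eventually_ge_atTop k)
      obtain ⟨m, hm⟩ := (h3.and (h2 r)).exists
      exact ⟨m, hm.1, hm.2⟩)
  exact ⟨u, t, ht, fun r j hj k hk => ht' r j (Finset.mem_range.mpr hj) k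
    (Finset.mem_range.mpr hk)⟩

/-- what guidance gives for a set without the Menger property -/
theorem guided_point {W : Type} {N : W → List ℕ → ℕ} {c : W → ℕ}
    {b : W → List ℕ → ℕ → ℕ → Prop} (hG : Guiding W N c b) {Z : Set (ℕ → Prop)}
    {O : ℕ → ℕ → (ℕ → Prop) → Prop} (hO : Fam O)
    (hOn : ∀ f : ℕ → ℕ, ∃ z ∈ Z, ∀ n, ¬ O n (f n) z) :
    ∃ (u : W → List ℕ → ℕ → (ℕ → Prop)) (t : W → List ℕ → ℕ → ℕ),
      (∀ w s, StrictMono (t w s)) ∧
      ∀ Rs : W → List ℕ → ℕ → Prop, (∀ w s k, ∃ r, k ≤ r ∧ Rs w s r) →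
        ∃ z ∈ Z, ∃ (w : W) (y rr : ℕ → ℕ), ∀ i, y i = t w (pre y i) (rr i) ∧
          Rs w (pre y i) (rr i) ∧ ∃ j, (j < N w (pre y i) ∧
            ∀ k, ¬ O ((pre y i).length + c w) k (u w (pre y i) j)) ∧
              ∀ k, k < rr i → (z k ↔ u w (pre y i) j k) := by
  classical
  have h1 : ∀ (w : W) (s : List ℕ), ∃ (u : ℕ → ℕ → Prop) (t : ℕ → ℕ), StrictMono t ∧
      ∀ r j, j < N w s → ∀ k, k < r → (b w (s ++ [t r]) j k ↔ u j k) :=
    fun w s => exists_conv (N w s) (fun m => b w (s ++ [m]))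
  choose u t ht hut using h1
  refine ⟨u, t, ht, ?_⟩
  intro Rs hRs
  -- a bound for the discarded candidates
  have h2 : ∀ (w : W) (s : List ℕ), ∃ r₀, ∀ j, j < N w s →
      (∃ k, O (s.length + c w) k (u w s j)) → ∃ k, k ≤ r₀ ∧ O (s.length + c w) k (u w s j) := by
    intro w s
    have h3 : ∀ j, ∃ k₀, (∃ k, O (s.length + c w) k (u w s j)) →
        O (s.length + c w) k₀ (u w s j) := by
      intro j
      by_cases h : ∃ k, O (s.length + c w) k (u w s j)
      · obtain ⟨k, hk⟩ := h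
        exact ⟨k, fun _ => hk⟩
      · exact ⟨0, fun h' => absurd h' h⟩
    choose k₀ hk₀ using h3
    refine ⟨∑ j ∈ Finset.range (N w s), k₀ j, fun j hj h => ⟨k₀ j, ?_, hk₀ j h⟩⟩
    exact Finset.single_le_sum (f := k₀) (fun _ _ => Nat.zero_le _) (Finset.mem_range.mpr hj)
  choose r₀ hr₀ using h2
  obtain ⟨l, hl⟩ := hG (fun w s m => ∃ r, m = t w s r ∧ Rs w s r ∧ r₀ w s ≤ r) (by
    intro w s k
    obtain ⟨r, hr, hr'⟩ := hRs w s (max k (r₀ w s))
    refine ⟨t w s r, ?_, r, rfl, hr', by omega⟩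
    have := (ht w s).le_apply (x := r)
    omega)
  obtain ⟨z, hz, hzO⟩ := hOn l
  obtain ⟨w, y, hy⟩ := hl z
  choose hA hyl j hj hjz using hy
  choose rr h3 h4 h5 using hA
  refine ⟨z, hz, w, y, rr, fun i => ⟨h3 i, h4 i, j i, ⟨hj i, ?_⟩, ?_⟩⟩
  · intro k hk
    obtain ⟨k', hk', hk''⟩ := hr₀ w (pre y i) (j i) (hj i) ⟨k, hk⟩
    have h6 : O ((pre y i).length + c w) k' z := by
      apply hO.dep _ _ _ _ _ hk''
      intro q hq
      have h7 := (ht w (pre y i)).le_apply (x := rr i)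
      rw [← h3 i] at h7
      have h8 := h5 i
      rw [hjz i q (by omega), pre_succ, h3 i]
      exact hut w (pre y i) (rr i) (j i) (hj i) q (by omega)
    rw [pre_length] at h6
    apply hzO (i + c w)
    apply hO.mono' _ h6
    have h7 := (ht w (pre y i)).le_apply (x := rr i)
    rw [← h3 i] at h7
    have h8 := h5 i
    have h9 := hyl i
    omega
  · intro k hk
    have h7 := (ht w (pre y i)).le_apply (x := rr i)
    rw [← h3 i] at h7
    rw [hjz i k (by omega), pre_succ, h3 i]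
    exact hut w (pre y i) (rr i) (j i) (hj i) k hk

theorem lft_agree {z u : ℕ → Prop} {r f : ℕ} (h : ∀ k, k < r → (z k ↔ u k)) (hf : 2 * f ≤ r) :
    ∀ i, i < f → (lft z i ↔ lft u i) := fun i hi => h (2 * i) (by omega)

theorem rgt_agree {z u : ℕ → Prop} {r f : ℕ} (h : ∀ k, k < r → (z k ↔ u k)) (hf : 2 * f ≤ r) :
    ∀ i, i < f → (rgt z i ↔ rgt u i) := fun i hi => h (2 * i + 1) (by omega)

/-- the family of sets avoiding finitely many points -/
def Uf (M : List ℕ → ℕ) (J : List ℕ → ℕ → Prop) (a : List ℕ → ℕ → (ℕ → Prop)) (n k : ℕ)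
    (x : ℕ → Prop) : Prop :=
  ∀ s, wt s ≤ n → ∀ j, j < M s → J s j → ∃ i, i < k ∧ ¬ (x i ↔ a s j i)

theorem Uf_fam (M : List ℕ → ℕ) (J : List ℕ → ℕ → Prop) (a : List ℕ → ℕ → (ℕ → Prop)) :
    Fam (Uf M J a) := by
  constructor
  · intro n k x x' h hx s hs j hj hJ
    obtain ⟨i, hi, hi'⟩ := hx s hs j hj hJ
    exact ⟨i, hi, fun h' => hi' ((h i hi).symm.trans h')⟩
  · intro n k x hx s hs j hj hJ
    obtain ⟨i, hi, hi'⟩ := hx s hs j hj hJ
    exact ⟨i, by omega, hi'⟩

theorem Uf_cover (M : List ℕ → ℕ) (J : List ℕ → ℕ → Prop) (a : List ℕ → ℕ → (ℕ → Prop))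
    {X : Set (ℕ → Prop)} (ha : ∀ s j, j < M s → J s j → a s j ∉ X) {x : ℕ → Prop} (hx : x ∈ X)
    (n : ℕ) : ∃ k, Uf M J a n k x := by
  classical
  have h1 : ∀ s j, ∃ i, j < M s → J s j → ¬ (x i ↔ a s j i) := by
    intro s j
    by_cases h : j < M s ∧ J s j
    · by_contra hcon
      push Not at hcon
      apply ha s j h.1 h.2
      have : a s j = x := by
        funext i
        exact propext (hcon i).2.2.symm
      rw [this]
      exact hx
    · exact ⟨0, fun h1 h2 => absurd ⟨h1, h2⟩ h⟩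
  choose i hi using h1
  refine ⟨∑ s ∈ (finite_wt_le n).toFinset, ∑ j ∈ Finset.range (M s), (i s j + 1), ?_⟩
  intro s hs j hj hJ
  refine ⟨i s j, ?_, hi s j hj hJ⟩
  have h2 : i s j + 1 ≤ ∑ j ∈ Finset.range (M s), (i s j + 1) :=
    Finset.single_le_sum (f := fun j => i s j + 1) (fun _ _ => Nat.zero_le _)
      (Finset.mem_range.mpr hj)
  have h3 : ∑ j ∈ Finset.range (M s), (i s j + 1) ≤
      ∑ s ∈ (finite_wt_le n).toFinset, ∑ j ∈ Finset.range (M s), (i s j + 1) :=
    Finset.single_le_sum (f := fun s => ∑ j ∈ Finset.range (M s), (i s j + 1))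
      (fun _ _ => Nat.zero_le _) (by rw [Set.Finite.mem_toFinset]; exact hs)
  omega

/-- a common bound for countably many functions indexed by finite sequences -/
theorem exists_dom (h : List ℕ → ℕ → ℕ) : ∃ g : ℕ → ℕ, ∀ s j, wt s ≤ j → h s j ≤ g j := by
  classical
  refine ⟨fun j => ∑ s ∈ (finite_wt_le j).toFinset, h s j, fun s j hs => ?_⟩
  exact Finset.single_le_sum (f := fun s => h s j) (fun _ _ => Nat.zero_le _)
    (by rw [Set.Finite.mem_toFinset]; exact hs)

theorem menC_of_guiding {W : Type} {N : W → List ℕ → ℕ} {c : W → ℕ}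
    {b : W → List ℕ → ℕ → ℕ → Prop} (hG : Guiding W N c b) {X : Set (ℕ → Prop)}
    (hX : SchC X) : MenC X := by
  classical
  intro O hO hcov
  by_contra hcon
  push Not at hcon
  obtain ⟨u, t, ht, hguide⟩ := guided_point hG (Z := Sq X) hO hcon
  set J : W → List ℕ → ℕ → Prop := fun w s j => ∀ k, ¬ O (s.length + c w) k (u w s j) with hJ
  -- the bad side
  set a : W → List ℕ → ℕ → (ℕ → Prop) := fun w s j =>
    if lft (u w s j) ∈ X then rgt (u w s j) else lft (u w s j) with ha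
  have haX : ∀ w s j, j < N w s → J w s j → a w s j ∉ X := by
    intro w s j _ hj
    have h1 : u w s j ∉ Sq X := by
      intro h
      obtain ⟨k, hk⟩ := hcov _ h (s.length + c w)
      exact hj k hk
    rw [ha]
    simp only
    split_ifs with h2
    · exact fun h3 => h1 ⟨h2, h3⟩
    · exact h2
  have haside : ∀ w s j, a w s j = lft (u w s j) ∨ a w s j = rgt (u w s j) := by
    intro w s j
    rw [ha]
    simp only
    split_ifs
    · exact Or.inr rfl
    · exact Or.inl rfl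
  -- a pair of points close to `u` on both sides is not in the square of `Uf`
  have hclose : ∀ w s j n f r (v : ℕ → Prop), wt s ≤ n → j < N w s → J w s j → 2 * f ≤ r →
      (∀ k, k < r → (v k ↔ u w s j k)) → Uf (N w) (J w) (a w) n f (lft v) →
      Uf (N w) (J w) (a w) n f (rgt v) → False := by
    intro w s j n f r v hs hj hJ hf hv h1 h2
    rcases haside w s j with h3 | h3
    · obtain ⟨i, hi, hi'⟩ := h1 s hs j hj hJ
      rw [h3] at hi'
      exact hi' (lft_agree hv hf i hi)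
    · obtain ⟨i, hi, hi'⟩ := h2 s hs j hj hJ
      rw [h3] at hi'
      exact hi' (rgt_agree hv hf i hi)
  by_cases hHur : HurC X
  · -- the Hurewicz case
    have h1 : ∀ w, ∃ f : ℕ → ℕ, ∀ x ∈ X, ∃ n₀, ∀ n, n₀ ≤ n → Uf (N w) (J w) (a w) n (f n) x :=
      fun w => hHur _ (Uf_fam _ _ _) (fun x hx n => Uf_cover _ _ _ (haX w) hx n)
    choose f hf using h1
    obtain ⟨z, hz, w, y, rr, hy⟩ := hguide (fun w s r => 2 * f w (wt s) ≤ r)
      (fun w s k => ⟨max k (2 * f w (wt s)), le_max_left _ _, le_max_right _ _⟩)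
    obtain ⟨n₁, hn₁⟩ := hf w _ hz.1
    obtain ⟨n₂, hn₂⟩ := hf w _ hz.2
    obtain ⟨-, h2, j, ⟨hj, hJ'⟩, h3⟩ := hy (max n₁ n₂)
    have h4 : max n₁ n₂ ≤ wt (pre y (max n₁ n₂)) := by
      have := length_le_wt (pre y (max n₁ n₂))
      rw [pre_length] at this
      exact this
    exact hclose w _ j _ _ _ z le_rfl hj hJ' h2 h3 (hn₁ _ ((le_max_left _ _).trans h4))
      (hn₂ _ ((le_max_right _ _).trans h4))
  · -- the other case
    unfold HurC at hHur
    push Not at hHur
    obtain ⟨Q, hQ, hQcov, hQn⟩ := hHur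
    set P : W → ℕ → ℕ → (ℕ → Prop) → Prop := fun w n k x =>
      Uf (N w) (J w) (a w) n k x ∧ ∀ i, i ≤ n → Q i k x with hP
    have hPfam : ∀ w, Fam (P w) := by
      intro w
      constructor
      · intro n k x x' h ⟨h1, h2⟩
        exact ⟨(Uf_fam _ _ _).dep n k x x' h h1, fun i hi => hQ.dep i k x x' h (h2 i hi)⟩
      · intro n k x ⟨h1, h2⟩
        exact ⟨(Uf_fam _ _ _).mono n k x h1, fun i hi => hQ.mono i k x (h2 i hi)⟩
    have hPcov : ∀ w, ∀ x ∈ X, ∀ n, ∃ k, P w n k x := by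
      intro w x hx n
      obtain ⟨k₁, hk₁⟩ := Uf_cover (N w) (J w) (a w) (haX w) hx n
      choose k₂ hk₂ using fun i => hQcov x hx i
      refine ⟨k₁ + ∑ i ∈ Finset.range (n + 1), k₂ i, (Uf_fam _ _ _).mono' (by omega) hk₁, ?_⟩
      intro i hi
      apply hQ.mono' _ (hk₂ i)
      have : k₂ i ≤ ∑ i ∈ Finset.range (n + 1), k₂ i :=
        Finset.single_le_sum (f := k₂) (fun _ _ => Nat.zero_le _)
          (Finset.mem_range.mpr (by omega))
      omega
    choose f hf using fun w => hX (P w) (hPfam w) (hPcov w)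
    -- the sets of indices
    set Nr : W → List ℕ → ℕ → ℕ → Prop := fun w s r n => wt s ≤ n ∧
      ∃ j', j' < N w (s ++ [t w s r]) ∧ J w (s ++ [t w s r]) j' ∧
        P w n (f w n) (lft (u w (s ++ [t w s r]) j')) ∧
        P w n (f w n) (rgt (u w (s ++ [t w s r]) j')) ∧
        ∃ j, j < N w s ∧ J w s j ∧
          ∀ k, k < r → (u w (s ++ [t w s r]) j' k ↔ u w s j k) with hNr
    have hN1 : ∀ w s r n, Nr w s r n → n < wt (s ++ [t w s r]) := by
      rintro w s r n ⟨-, j', hj', hJ', h1, h2, -⟩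
      by_contra h3
      push Not at h3
      exact hclose w _ j' n (f w n) (2 * f w n) _ h3 hj' hJ' le_rfl (fun _ _ => Iff.rfl)
        h1.1 h2.1
    have hN2 : ∀ w s r n, Nr w s r n → r < 2 * f w n := by
      rintro w s r n ⟨hs, j', hj', hJ', h1, h2, j, hj, hJj, h3⟩
      by_contra h4
      push Not at h4
      exact hclose w s j n (f w n) r _ hs hj hJj h4 h3 h1.1 h2.1
    set sf : W → ℕ → ℕ := fun w q => ∑ n ∈ Finset.range q, f w n with hsf
    have hsf' : ∀ w q n, n < q → f w n ≤ sf w q := fun w q n hn =>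
      Finset.single_le_sum (f := f w) (fun _ _ => Nat.zero_le _) (Finset.mem_range.mpr hn)
    set rj : W → ℕ → ℕ := fun w j => 2 * sf w j + j with hrj
    set hs : W → List ℕ → ℕ → ℕ := fun w s j => sf w (wt (s ++ [t w s (rj w j)])) with hhs
    choose g hg using fun w => exists_dom (hs w)
    choose x₀ hx₀ hx₀' using fun w => hQn (g w)
    have hinf : ∀ w s k, ∃ r, k ≤ r ∧ ∀ n, Nr w s r n → ¬ P w n (f w n) (x₀ w) := by
      intro w s k
      by_contra hcon2
      push Not at hcon2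
      obtain ⟨j, hj, hj'⟩ := hx₀' w (max k (wt s))
      obtain ⟨n, hn, hPn⟩ := hcon2 (rj w j) (by
        have : j ≤ rj w j := by rw [hrj]; simp only; omega
        omega)
      apply hj'
      have h1 : j ≤ n := by
        by_contra h2
        push Not at h2
        have h3 := hN2 w s _ n hn
        have h4 := hsf' w j n h2
        rw [hrj] at h3
        simp only at h3
        omega
      have h2 := hN1 w s _ n hn
      have h3 : f w n ≤ hs w s j := hsf' w _ n h2
      exact hQ.mono' (h3.trans (hg w s j (by omega))) (hPn.2 j h1)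
    obtain ⟨z, hz, w, y, rr, hy⟩ := hguide (fun w s r =>
      (∀ n, Nr w s r n → ¬ P w n (f w n) (x₀ w)) ∧ 2 * sf w (wt s) ≤ r ∧ wt s ≤ r) (by
        intro w s k
        obtain ⟨r, hr, hr'⟩ := hinf w s (max k (max (2 * sf w (wt s)) (wt s)))
        exact ⟨r, by omega, hr', by omega, by omega⟩)
    obtain ⟨n, hn1, hn2, hn3⟩ := hf w _ hz.1 _ hz.2 _ (hx₀ w)
    -- the last initial segment of weight at most `n`
    set i := Nat.findGreatest (fun i => wt (pre y i) ≤ n) n with hi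
    have hi1 : wt (pre y i) ≤ n :=
      Nat.findGreatest_spec (P := fun i => wt (pre y i) ≤ n) (Nat.zero_le n) (by
        show wt (pre y 0) ≤ n
        rw [pre_zero]; simp)
    have hi2 : n < wt (pre y (i + 1)) := by
      by_contra h1
      push Not at h1
      have h2 : i + 1 ≤ n := by
        have := length_le_wt (pre y (i + 1))
        rw [pre_length] at this
        omega
      have h3 := Nat.le_findGreatest (P := fun i => wt (pre y i) ≤ n) h2 h1
      omega
    obtain ⟨h1, ⟨h2, h3, h4⟩, j, ⟨hj, hJj⟩, h5⟩ := hy i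
    obtain ⟨-, ⟨-, h7, h8⟩, j', ⟨hj', hJj'⟩, h9⟩ := hy (i + 1)
    rw [pre_succ, h1] at h7 h8 hj' hJj' h9 hi2
    have h10 : 2 * f w n ≤ rr (i + 1) := by
      have := hsf' w _ n hi2
      omega
    have h11 : rr i ≤ rr (i + 1) := by
      have h12 := (ht w (pre y i)).le_apply (x := rr i)
      simp only [wt_append, wt_cons, wt_nil] at h8
      omega
    apply h2 n ⟨hi1, j', hj', hJj', ?_, ?_, j, hj, hJj, ?_⟩ hn3
    · apply (hPfam w).dep _ _ _ _ _ hn1
      intro q hq
      exact (lft_agree h9 h10 q hq).symm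
    · apply (hPfam w).dep _ _ _ _ _ hn2
      intro q hq
      exact (rgt_agree h9 h10 q hq).symm
    · intro k hk
      exact (h9 k (by omega)).symm.trans (h5 k hk)

end Pool.Agent.Helper467_LV
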