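import Mathlib
import Pool.Agent.Helper467_LV.Comb2

/-!
From sets of reals to subsets of the Cantor space, and scales.
-/

set_option autoImplicit false

namespace Pool.Agent.Helper467_LV

open Filter Set Topology

theorem exists_proj : ∃ π : (ℕ → Bool) → EReal, Continuous π ∧ Function.Surjective π := by
  letI : MetricSpace EReal := TopologicalSpace.metrizableSpaceMetric EReal
  exact exists_nat_bool_continuous_surjective_of_compact EReal

open Classical in
/-- points of the Cantor space as sequences of truth values, and back -/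
noncomputable def bl (x : ℕ → Prop) : ℕ → Bool := fun i => decide (x i)

theorem bl_toProp (x : ℕ → Bool) : bl (fun i => x i = true) = x := by
  funext i
  unfold bl
  cases h : x i <;> simp [h]

theorem bl_injective {x y : ℕ → Prop} (h : bl x = bl y) : x = y := by
  funext i
  have := congrFun h i
  unfold bl at this
  simpa using this

/-- the subset of the Cantor space corresponding to a set of reals -/
def dX (π : (ℕ → Bool) → EReal) (X : Set ℝ) : Set (ℕ → Prop) :=
  {x | ∃ r ∈ X, π (bl x) = (r : EReal)}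

theorem isClopen_dep {k : ℕ} {Q : (ℕ → Bool) → Prop}
    (h : ∀ x x' : ℕ → Bool, (∀ i, i < k → x' i = x i) → Q x → Q x') : IsClopen {x | Q x} := by
  have h1 : ∀ Q : (ℕ → Bool) → Prop, (∀ x x' : ℕ → Bool, (∀ i, i < k → x' i = x i) → Q x → Q x') →
      IsOpen {x | Q x} := by
    intro Q h
    rw [isOpen_iff_mem_nhds]
    intro x hx
    have h2 := PiNat.isOpen_cylinder (fun _ => Bool) x k
    refine Filter.mem_of_superset (h2.mem_nhds (PiNat.self_mem_cylinder x k)) ?_
    intro x' hx'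
    rw [PiNat.mem_cylinder_iff] at hx'
    exact h x x' hx' hx
  refine ⟨?_, h1 Q h⟩
  rw [← isOpen_compl_iff]
  apply h1 (fun x => ¬ Q x)
  intro x x' hxx' hx hx'
  exact hx (h x' x (fun i hi => (hxx' i hi).symm) hx')

theorem schC_of_isScheepers {π : (ℕ → Bool) → EReal} (hπ : Continuous π) {X : Set ℝ}
    (hX : IsScheepers X) : SchC (dX π X) := by
  classical
  intro O hO hcov
  set Ob : ℕ → ℕ → (ℕ → Bool) → Prop := fun n k x => O n k (fun i => x i = true) with hOb
  have hObdep : ∀ n k (x x' : ℕ → Bool), (∀ i, i < k → x' i = x i) → Ob n k x → Ob n k x' := by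
    intro n k x x' h h1
    apply hO.dep n k _ _ _ h1
    intro i hi
    rw [h i hi]
  have hclopen : ∀ n k, IsClopen {x | Ob n k x} := fun n k => isClopen_dep (hObdep n k)
  set V : ℕ → ℕ → Set ℝ := fun n k => {r | ∀ x, π x = (r : EReal) → Ob n k x} with hV
  have hVo : ∀ n k, IsOpen (V n k) := by
    intro n k
    have h1 : V n k = (fun r : ℝ => (r : EReal)) ⁻¹' (π '' {x | Ob n k x}ᶜ)ᶜ := by
      ext r
      simp only [hV, mem_ofPred_eq, mem_preimage, mem_compl_iff, mem_image, not_exists, not_and]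
      constructor
      · intro h x hx hxr
        exact hx (h x hxr)
      · intro h x hx
        by_contra h2
        exact h x h2 hx
    rw [h1]
    apply IsOpen.preimage continuous_coe_real_ereal
    rw [isOpen_compl_iff]
    exact ((hclopen n k).compl.isClosed.isCompact.image hπ).isClosed
  have hVcov : ∀ n, ∀ r ∈ X, ∃ k, r ∈ V n k := by
    intro n r hr
    have h1 : IsCompact (π ⁻¹' {(r : EReal)}) := (isClosed_singleton.preimage hπ).isCompact
    obtain ⟨k, hk⟩ := h1.elim_directed_cover (fun k => {x | Ob n k x})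
      (fun k => (hclopen n k).isOpen) (by
        intro x hx
        have h2 : (fun i => x i = true) ∈ dX π X := ⟨r, hr, by rw [bl_toProp]; exact hx⟩
        obtain ⟨k, hk⟩ := hcov _ h2 n
        exact mem_iUnion.mpr ⟨k, hk⟩)
      (directed_of_isDirected_le (fun i j hij x hx => hO.mono' hij hx))
    exact ⟨k, fun x hx => hk hx⟩
  obtain ⟨F, hF, hFG⟩ := hX (fun n => range (V n)) (fun n => ⟨by
      rintro u ⟨k, rfl⟩
      exact hVo n k, fun r hr => by
      obtain ⟨k, hk⟩ := hVcov n r hr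
      exact ⟨V n k, ⟨k, rfl⟩, hk⟩⟩)
  have h2 : ∀ n, ∃ f, ⋃₀ F n ⊆ V n f := by
    intro n
    have h3 : ∀ v ∈ F n, ∃ k, v = V n k := by
      intro v hv
      obtain ⟨k, hk⟩ := (hF n).1 hv
      exact ⟨k, hk.symm⟩
    choose! kk hkk using h3
    refine ⟨∑ v ∈ (hF n).2.toFinset, kk v, ?_⟩
    rintro r ⟨v, hv, hr⟩
    have h4 : kk v ≤ ∑ v ∈ (hF n).2.toFinset, kk v :=
      Finset.single_le_sum (f := kk) (fun _ _ => Nat.zero_le _)
        (by rw [Set.Finite.mem_toFinset]; exact hv)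
    rw [hkk v hv] at hr
    intro x hx
    exact hO.mono' h4 (hr x hx)
  choose f hf using h2
  refine ⟨f, ?_⟩
  rintro a ⟨ra, hra, ha⟩ b ⟨rb, hrb, hb⟩ d ⟨rd, hrd, hd⟩
  obtain ⟨n, hn⟩ := hFG {ra, rb, rd} (by
    intro r hr
    simp only [Finset.coe_insert, Finset.coe_singleton, mem_insert_iff, mem_singleton_iff] at hr
    rcases hr with rfl | rfl | rfl
    · exact hra
    · exact hrb
    · exact hrd)
  have h3 : ∀ (x : ℕ → Prop) (r : ℝ), π (bl x) = (r : EReal) → r ∈ ({ra, rb, rd} : Finset ℝ) →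
      O n (f n) x := by
    intro x r hx hr
    have h4 := hf n (hn (Finset.mem_coe.mpr hr)) (bl x) hx
    have h5 : (fun i => bl x i = true) = x := by
      funext i
      unfold bl
      simp
    simp only [hOb, h5] at h4
    exact h4
  exact ⟨n, h3 a ra ha (by simp), h3 b rb hb (by simp), h3 d rd hd (by simp)⟩

theorem isMenger_of_menC {π : (ℕ → Bool) → EReal} (hπ : Continuous π)
    (hπs : Function.Surjective π) {X : Set ℝ} (hX : MenC (dX π X)) : IsMenger (X ×ˢ X) := by
  classical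
  intro U hU
  set ρ : (ℕ → Bool) → EReal × EReal :=
    fun z => (π (fun i => z (2 * i)), π (fun i => z (2 * i + 1))) with hρ
  have hρc : Continuous ρ := by
    apply Continuous.prodMk
    · exact hπ.comp (continuous_pi (fun i => continuous_apply _))
    · exact hπ.comp (continuous_pi (fun i => continuous_apply _))
  set cc : ℝ × ℝ → EReal × EReal := Prod.map (fun r : ℝ => (r : EReal)) (fun r : ℝ => (r : EReal))
    with hcc
  have hcco : IsOpenEmbedding cc := EReal.isOpenEmbedding_coe.prodMap EReal.isOpenEmbedding_coe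
  -- the family
  set O : ℕ → ℕ → (ℕ → Prop) → Prop := fun n k z =>
    ∃ u ∈ U n, ∀ z' : ℕ → Bool, (∀ i, i < k → (z' i = true ↔ z i)) → ρ z' ∈ cc '' u with hO
  have hOfam : Fam O := by
    constructor
    · rintro n k x x' h ⟨u, hu, h1⟩
      exact ⟨u, hu, fun z' hz' => h1 z' (fun i hi => (hz' i hi).trans (h i hi))⟩
    · rintro n k x ⟨u, hu, h1⟩
      exact ⟨u, hu, fun z' hz' => h1 z' (fun i hi => hz' i (by omega))⟩
  have hcov : ∀ z ∈ Sq (dX π X), ∀ n, ∃ k, O n k z := by
    rintro z ⟨⟨r₁, hr₁, h1⟩, ⟨r₂, hr₂, h2⟩⟩ n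
    obtain ⟨u, hu, hru⟩ := (hU n).2 (show (r₁, r₂) ∈ X ×ˢ X from ⟨hr₁, hr₂⟩)
    have h3 : IsOpen (ρ ⁻¹' (cc '' u)) := (hcco.isOpenMap u ((hU n).1 u hu)).preimage hρc
    have h4 : bl z ∈ ρ ⁻¹' (cc '' u) := by
      refine ⟨(r₁, r₂), hru, ?_⟩
      rw [hρ, hcc]
      simp only [Prod.map_apply]
      have e1 : (fun i => bl z (2 * i)) = bl (lft z) := rfl
      have e2 : (fun i => bl z (2 * i + 1)) = bl (rgt z) := rfl
      rw [e1, e2, h1, h2]
    obtain ⟨s, ⟨y, k, rfl⟩, hy, hs⟩ := (PiNat.isTopologicalBasis_cylinders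
      (fun _ => Bool)).exists_subset_of_mem_open h4 h3
    refine ⟨k, u, hu, fun z' hz' => hs ?_⟩
    rw [PiNat.mem_cylinder_iff] at hy ⊢
    intro i hi
    rw [← hy i hi]
    have := hz' i hi
    unfold bl
    cases h5 : z' i
    · rw [h5] at this
      simp at this
      simp [this]
    · rw [h5] at this
      simp at this
      simp [this]
  obtain ⟨f, hf⟩ := hX O hOfam hcov
  -- the finite choices
  have h1 : ∀ n (p : Fin (f n) → Bool), ∃ u, (∃ u ∈ U n, ∀ z' : ℕ → Bool,
      (∀ i : Fin (f n), z' i = p i) → ρ z' ∈ cc '' u) → (u ∈ U n ∧ ∀ z' : ℕ → Bool,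
      (∀ i : Fin (f n), z' i = p i) → ρ z' ∈ cc '' u) := by
    intro n p
    by_cases h : ∃ u ∈ U n, ∀ z' : ℕ → Bool, (∀ i : Fin (f n), z' i = p i) → ρ z' ∈ cc '' u
    · obtain ⟨u, hu, h2⟩ := h
      exact ⟨u, fun _ => ⟨hu, h2⟩⟩
    · exact ⟨∅, fun h' => absurd h' h⟩
  choose up hup using h1
  refine ⟨fun n => {u | u ∈ U n ∧ ∃ p, u = up n p}, fun n => ⟨fun u hu => hu.1, ?_⟩, ?_⟩
  · apply (Set.finite_range (up n)).subset
    rintro u ⟨-, p, rfl⟩
    exact ⟨p, rfl⟩
  · rintro ⟨r₁, r₂⟩ ⟨hr₁, hr₂⟩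
    obtain ⟨x₁, hx₁⟩ := hπs (r₁ : EReal)
    obtain ⟨x₂, hx₂⟩ := hπs (r₂ : EReal)
    set zb : ℕ → Bool := fun i => if i % 2 = 0 then x₁ (i / 2) else x₂ (i / 2) with hzb
    have e1 : (fun i => zb (2 * i)) = x₁ := by
      funext i
      rw [hzb]
      simp
    have e2 : (fun i => zb (2 * i + 1)) = x₂ := by
      funext i
      rw [hzb]
      have h1 : (2 * i + 1) % 2 ≠ 0 := by omega
      have h2 : (2 * i + 1) / 2 = i := by omega
      simp only [if_neg h1, h2]
    set z : ℕ → Prop := fun i => zb i = true with hz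
    have hblz : bl z = zb := bl_toProp zb
    have hzS : z ∈ Sq (dX π X) := by
      constructor
      · refine ⟨r₁, hr₁, ?_⟩
        have : bl (lft z) = fun i => bl z (2 * i) := rfl
        rw [this, hblz, e1, hx₁]
      · refine ⟨r₂, hr₂, ?_⟩
        have : bl (rgt z) = fun i => bl z (2 * i + 1) := rfl
        rw [this, hblz, e2, hx₂]
    obtain ⟨n, u, hu, hzu⟩ := hf z hzS
    have h2 := hup n (fun i => zb i) ⟨u, hu, fun z' hz' => hzu z' (fun i hi => by
      have h3 : z' i = zb i := hz' ⟨i, hi⟩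
      rw [h3])⟩
    have h3 : ρ zb ∈ cc '' up n (fun i => zb i) := h2.2 zb (fun _ => rfl)
    obtain ⟨q, hq, hq'⟩ := h3
    have h4 : q = (r₁, r₂) := by
      apply hcco.injective
      rw [hq', hρ, hcc]
      simp only [Prod.map_apply]
      rw [e1, e2, hx₁, hx₂]
    rw [h4] at hq
    exact mem_iUnion.mpr ⟨n, up n (fun i => zb i), ⟨h2.1, _, rfl⟩, hq⟩

/-- under the guiding principle, squares of Scheepers sets of reals are Menger -/
theorem isMenger_sq_of_guiding {W : Type} {N : W → List ℕ → ℕ} {c : W → ℕ}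
    {b : W → List ℕ → ℕ → ℕ → Prop} (hG : Guiding W N c b) {X : Set ℝ}
    (hX : IsScheepers X) : IsMenger (X ×ˢ X) := by
  obtain ⟨π, hπ, hπs⟩ := exists_proj
  exact isMenger_of_menC hπ hπs (menC_of_guiding hG (schC_of_isScheepers hπ hX))

/-- a scale gives `𝔡 ≤ 𝔯` -/
theorem dLeR_of_scale {K : Type} [LinearOrder K] {g : K → ℕ → ℕ} (h : Scale K g) : DLeR := by
  classical
  intro R hR hsplit
  have h1 : ∀ A : R, ∀ n, ∃ m, n ≤ m ∧ m ∈ A.1 := by
    intro A n
    obtain ⟨m, hm, hnm⟩ := (hR A.1 A.2).exists_gt n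
    exact ⟨m, hnm.le, hm⟩
  choose nx hnx1 hnx2 using h1
  choose a ha using fun A => h.2 (nx A)
  have hcof : ∀ a₁, ∃ A, a₁ < a A := by
    by_contra hcon
    push Not at hcon
    obtain ⟨a₁, ha₁⟩ := hcon
    apply hsplit
    -- the intervals
    have h2 : ∀ A : R, ∃ k, ∀ n, k ≤ n → nx A n ≤ g a₁ n := by
      intro A
      obtain ⟨k, hk⟩ := ha A
      rcases (ha₁ A).lt_or_eq with h3 | h3
      · obtain ⟨k', hk'⟩ := h.1 _ _ h3
        exact ⟨max k k', fun n hn => (hk n (by omega)).trans (hk' n (by omega))⟩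
      · rw [h3] at hk
        exact ⟨k, hk⟩
    set e : ℕ → ℕ := fun k => Nat.rec 0 (fun _ v => max v (g a₁ v) + 1) k with he
    have he1 : ∀ k, e (k + 1) = max (e k) (g a₁ (e k)) + 1 := fun _ => rfl
    have hemono : StrictMono e := strictMono_nat_of_lt_succ (fun k => by rw [he1]; omega)
    have hmeet : ∀ A : R, ∃ k₀, ∀ k, k₀ ≤ k → ∃ m ∈ A.1, e k ≤ m ∧ m < e (k + 1) := by
      intro A
      obtain ⟨k, hk⟩ := h2 A
      refine ⟨k, fun j hj => ⟨nx A (e j), hnx2 A _, hnx1 A _, ?_⟩⟩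
      have h3 := hk (e j) (hj.trans hemono.le_apply)
      rw [he1]
      omega
    refine ⟨{m | ∃ k, e (2 * k) ≤ m ∧ m < e (2 * k + 1)}, ?_⟩
    intro A hA
    obtain ⟨k₀, hk₀⟩ := hmeet ⟨A, hA⟩
    constructor
    · rw [Set.infinite_iff_exists_gt]
      intro n
      obtain ⟨m, hm, hm1, hm2⟩ := hk₀ (2 * (k₀ + n + 1)) (by omega)
      refine ⟨m, ⟨hm, k₀ + n + 1, hm1, hm2⟩, ?_⟩
      have := hemono.le_apply (x := 2 * (k₀ + n + 1))
      omega
    · rw [Set.infinite_iff_exists_gt]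
      intro n
      obtain ⟨m, hm, hm1, hm2⟩ := hk₀ (2 * (k₀ + n + 1) + 1) (by omega)
      refine ⟨m, ⟨hm, ?_⟩, ?_⟩
      · rintro ⟨k, hk1, hk2⟩
        rcases lt_or_ge k (k₀ + n + 2) with h3 | h3
        · have := hemono.monotone (show 2 * k + 1 ≤ 2 * (k₀ + n + 1) + 1 by omega)
          omega
        · have := hemono.monotone (show 2 * (k₀ + n + 1) + 1 + 1 ≤ 2 * k by omega)
          omega
      · have := hemono.le_apply (x := 2 * (k₀ + n + 1) + 1)
        omega
  refine ⟨Set.range (fun A : R => g (a A)), ?_, ?_⟩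
  · intro f
    obtain ⟨a₁, k, hk⟩ := h.2 f
    obtain ⟨A, hA⟩ := hcof a₁
    obtain ⟨k', hk'⟩ := h.1 _ _ hA
    refine ⟨g (a A), ⟨A, rfl⟩, ?_⟩
    filter_upwards [eventually_ge_atTop (max k k')] with n hn
    exact (hk n (by omega)).trans (hk' n (by omega))
  · exact Cardinal.mk_range_le

end Pool.Agent.Helper467_LV
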